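import Pool.Agent.Sdp.NestedMain

/-!
# The local closure decides generic global rigidity of graphs with a modular model
-/

set_option autoImplicit false

namespace Pool.Sdp

open Pool.Rgd Finset

/-- `ModularModel d l G`: the vertices of `G` are divided into classes `c = i` such that vertices of
different classes are adjacent if and only if their classes are adjacent in the graph `Q` (so the
classes are modules; nothing is asked of the graphs inside of them), the graph `Q` on the classes
has a tree model with `l` labels, of any height, and every class with two different vertices `x`, `y`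
is not adjacent to some other class or leaves out more than `d` vertices. -/
def ModularModel {V : Type} [Fintype V] (d l : ℕ) (G : SimpleGraph V) : Prop :=
  ∃ (c : V → ℕ) (Q : SimpleGraph ℕ) (lab : ℕ → Fin l) (H : ℕ),
    TreeModel Q lab H (univ.image c) ∧
    (∀ x y, c x ≠ c y → (G.Adj x y ↔ Q.Adj (c x) (c y))) ∧
    ∀ x y, x ≠ y → c x = c y →
      (∃ z, c z ≠ c x ∧ ¬ Q.Adj (c x) (c z)) ∨ d < (univ.filter fun z => c z ≠ c x).card

theorem pot_le {V : Type} (d : ℕ) (T S : Finset V) : pot d T S ≤ d + 2 := by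
  unfold pot
  split_ifs <;> omega

/-- the local closure decides generic global rigidity of the graphs with a modular model -/
theorem exists_constant_modular (d l : ℕ) (hd : 0 < d) : ∃ C0 : ℕ, ∀ C, C0 ≤ C →
    ∀ {V : Type} [Fintype V] (G : SimpleGraph V), ModularModel d l G →
      GGR d G → ∀ u v, u ≠ v → (clos d C G).Adj u v := by
  classical
  obtain ⟨c0, hc0⟩ := exists_pieces
    (L := FL d (l * (d * (d + 1) + 1)) (NL d (l * (d * (d + 1) + 1)) (l * (d * (d + 1) + 1))
      (l * (d * (d + 1) + 1) * (d + 2)))) (phi d)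
    (HT 1 (l * (d * (d + 1) + 1) * (d + 2)) + 1)
  refine ⟨max c0 (2 * (d * (d + 1) + 1) + d + 3), fun C hC {V} _ G hT hr u v huv => ?_⟩
  have hR : Rules d C (clos d C G) := (closed_clos d _ G).rules ((le_max_right _ _).trans hC)
  have hGc := le_clos d C G
  obtain ⟨c, Q, lab, H, hQ, hadj, hcl⟩ := hT
  obtain ⟨lab', hlab'⟩ := exists_small_labels c (d * (d + 1))
  -- the graph in which the large classes are cliques
  let G' : SimpleGraph V :=
    { Adj := fun x y => G.Adj x y ∨
        (x ≠ y ∧ c x = c y ∧ d * (d + 1) + 1 ≤ (univ.filter fun v => c v = c x).card)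
      symm := ⟨by
        rintro x y (h1 | ⟨h1, h2, h3⟩)
        · exact Or.inl h1.symm
        · exact Or.inr ⟨h1.symm, h2.symm, by rw [← h2]; exact h3⟩⟩
      loopless := ⟨by
        rintro x (h1 | ⟨h1, _⟩)
        · exact G.loopless.irrefl x h1
        · exact h1 rfl⟩ }
  have hG' : G ≤ G' := fun x y hxy => Or.inl hxy
  have hle : G' ≤ clos d C G := by
    rintro x y (h1 | ⟨h1, h2, h3⟩)
    · exact hGc h1
    · refine clique_of_module hd hGc hR hr (univ.filter fun v => c v = c x) h3 ?_ ?_ x ?_ y ?_ h1
      · intro a ha b hb z hz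
        have ha' : c a = c x := (Finset.mem_filter.1 ha).2
        have hb' : c b = c x := (Finset.mem_filter.1 hb).2
        have hz' : c z ≠ c x := fun h => hz (Finset.mem_filter.2 ⟨Finset.mem_univ _, h⟩)
        rw [hadj a z (by rw [ha']; exact hz'.symm), hadj b z (by rw [hb']; exact hz'.symm), ha', hb']
      · rcases hcl x y h1 h2 with ⟨z, hz1, hz2⟩ | h4
        · refine Or.inl ⟨x, Finset.mem_filter.2 ⟨Finset.mem_univ _, rfl⟩, z, ?_, ?_⟩
          · intro h
            exact hz1 (Finset.mem_filter.1 h).2
          · rw [hadj x z hz1.symm]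
            exact hz2
        · refine Or.inr ⟨univ.filter fun z => c z ≠ c x, h4, fun z hz h => ?_⟩
          exact (Finset.mem_filter.1 hz).2 (Finset.mem_filter.1 h).2
      · exact Finset.mem_filter.2 ⟨Finset.mem_univ _, rfl⟩
      · exact Finset.mem_filter.2 ⟨Finset.mem_univ _, h2.symm⟩
  have hadj' : ∀ x y, c x ≠ c y → (G'.Adj x y ↔ Q.Adj (c x) (c y)) := by
    intro x y hxy
    rw [← hadj x y hxy]
    refine ⟨?_, fun h1 => Or.inl h1⟩
    rintro (h1 | ⟨_, h2, _⟩)
    · exact h1
    · exact absurd h2 hxy
  have hclass : ∀ i, TreeModel G' lab' 1 (univ.filter fun v => c v = i) := by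
    intro i
    refine ⟨fun v => (Fintype.equivFin V v).val, fun a b => ∃ x y, c x = i ∧ c y = i ∧
      lab' x = a ∧ lab' y = b ∧ G'.Adj x y, fun j => ?_, fun x hx y hy hxy => ?_⟩
    · show (Finset.filter _ (Finset.filter _ univ)).card ≤ 1
      rw [Finset.card_le_one]
      intro a ha b hb
      have h1 := (Finset.mem_filter.1 ha).2
      have h2 := (Finset.mem_filter.1 hb).2
      exact (Fintype.equivFin V).injective (Fin.ext (h1.trans h2.symm))
    · have hx' : c x = i := (Finset.mem_filter.1 hx).2
      have hy' : c y = i := (Finset.mem_filter.1 hy).2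
      have hne : x ≠ y := fun h => hxy (by rw [h])
      constructor
      · intro h1
        exact ⟨x, y, hx', hy', rfl, rfl, h1⟩
      · rintro ⟨x1, y1, hx1, hy1, hlx, hly, h1⟩
        by_cases hbig : d * (d + 1) + 1 ≤ (univ.filter fun v => c v = c x).card
        · exact Or.inr ⟨hne, by rw [hx', hy'], hbig⟩
        · have e1 : x = x1 := hlab' x x1 (by rw [hx', hx1]) (by omega) hlx.symm
          have e2 : y = y1 := hlab' y y1 (by rw [hy', hy1]) (by
            rw [hy', ← hx']
            omega) hly.symm
          rw [e1, e2]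
          exact h1
  have htree := TreeModel.compose H (univ.image c) univ hQ
    (fun v _ => Finset.mem_image_of_mem c (Finset.mem_univ v)) hclass
    (fun x _ y _ hxy => hadj' x y hxy)
  let labF : V → Fin (l * (d * (d + 1) + 1)) := fun v => finProdFinEquiv (lab (c v), lab' v)
  have hN : Nested d (l * (d * (d + 1) + 1)) (l * (d * (d + 1) + 1)) 1 G' labF univ :=
    TreeModel.nested d (1 + H) (TreeModel.relabel (lab' := labF) (fun a => finProdFinEquiv.symm a)
      (fun v => (Equiv.symm_apply_apply finProdFinEquiv (lab (c v), lab' v)).symm) (1 + H) htree)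
  have hS0 : ∀ w ∈ (univ : Finset V), ∀ s ∈ (fun _ : Fin (l * (d * (d + 1) + 1)) =>
      (∅ : Finset V)) (labF w), G'.Adj s w := fun w _ s hs => absurd hs (Finset.notMem_empty s)
  obtain ⟨G1, lab1, c1, q1, q2, q3, q4⟩ := nested_model hd hle hR labF hN
    (l * (d * (d + 1) + 1) * (d + 2)) (fun _ => ∅) hS0
    (fun _ s hs => absurd hs (Finset.notMem_empty s)) (by
      have h1 := Finset.sum_le_card_nsmul (univ : Finset (Fin (l * (d * (d + 1) + 1))))
        (fun a => pot d ((univ : Finset V).filter fun v => labF v = a) ∅) (d + 2)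
        (fun a _ => pot_le d _ _)
      rw [Finset.card_univ, Fintype.card_fin, smul_eq_mul] at h1
      exact h1)
  obtain ⟨G2, lab2, h1, h2, h3⟩ := finish hd hle hR labF univ (fun _ => ∅) hS0 G1 lab1 c1
    q1 q2 q3 q4
  have hG2 : G ≤ G2 := fun x y hxy => h1 x (Finset.mem_univ _) y (Finset.mem_univ _) (hG' hxy)
  have hG2c : G2 ≤ clos d C G := fun x y hxy =>
    h2 x (Finset.mem_univ _) y (Finset.mem_univ _) hxy
  refine clique_of_gron hd G2 _ hG2c hR _ (fun W hW hcard => ?_) univ h3
    ((gron_univ hr).mono hG2) u (Finset.mem_univ _) v (Finset.mem_univ _) huv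
  obtain ⟨k, e, hk, he, _⟩ := hc0 G2 _ W hW (lt_of_le_of_lt ((le_max_left _ _).trans hC) hcard)
  exact ⟨k, e, hk, he⟩

theorem tree_image {n : ℕ} {L : Type} {G : SimpleGraph (Fin n)} {lab : Fin n → L} (H : ℕ)
    {W : Finset (Fin n)} (hT : TreeModel G lab H W) (lab' : ℕ → L)
    (hl : ∀ x : Fin n, lab' x.val = lab x) :
    TreeModel (G.map Fin.valEmbedding) lab' H (W.image Fin.val) := by
  have hadj : ∀ x y : Fin n, (G.map Fin.valEmbedding).Adj x.val y.val ↔ G.Adj x y := fun x y =>
    SimpleGraph.map_adj_apply (f := Fin.valEmbedding)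
  induction H generalizing W with
  | zero => exact Finset.card_image_le.trans hT
  | succ H ih =>
    obtain ⟨c, M, h1, h2⟩ := hT
    refine ⟨fun i => if h : i < n then c ⟨i, h⟩ else 0, M, fun i => ?_, ?_⟩
    · have heq : ((W.image Fin.val).filter fun j => (if h : j < n then c ⟨j, h⟩ else 0) = i) =
          (W.filter fun v => c v = i).image Fin.val := by
        ext j
        simp only [Finset.mem_filter, Finset.mem_image]
        constructor
        · rintro ⟨⟨x, hx, rfl⟩, hj⟩
          rw [dif_pos x.isLt] at hj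
          exact ⟨x, ⟨hx, hj⟩, rfl⟩
        · rintro ⟨x, ⟨hx, hxi⟩, rfl⟩
          refine ⟨⟨x, hx, rfl⟩, ?_⟩
          rw [dif_pos x.isLt]
          exact hxi
      rw [heq]
      exact ih (h1 i)
    · intro i hi j hj hij
      obtain ⟨x, hx, rfl⟩ := Finset.mem_image.1 hi
      obtain ⟨y, hy, rfl⟩ := Finset.mem_image.1 hj
      simp only [x.isLt, y.isLt, dif_pos] at hij
      rw [hadj x y, hl x, hl y]
      exact h2 x hx y hy hij

/-- a graph with a tree model has a modular model with classes of one vertex -/
theorem modular_of_tree {n : ℕ} (hn : 0 < n) (d : ℕ) {l : ℕ} {G : SimpleGraph (Fin n)}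
    (lab : Fin n → Fin l) (H : ℕ) (hT : TreeModel G lab H univ) : ModularModel d l G := by
  refine ⟨Fin.val, G.map Fin.valEmbedding, fun i => if h : i < n then lab ⟨i, h⟩ else lab ⟨0, hn⟩,
    H, tree_image H hT _ (fun x => by rw [dif_pos x.isLt]), fun x y _ => ?_, fun x y hxy h => ?_⟩
  · exact (SimpleGraph.map_adj_apply (f := Fin.valEmbedding)).symm
  · exact absurd (Fin.ext h) hxy

end Pool.Sdp
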