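import Pool.Agent.Rgd.Der

/-!
# Algebraically independent families over subfields of the reals
-/

set_option autoImplicit false

namespace Pool.Sdp

open MvPolynomial IntermediateField

/-- A derivation which kills `S` kills the field generated by `S`.
Proof: `adjoin_induction`; the rational numbers are killed, and the elements which are killed are
closed under sums, products and inverses (`Derivation.leibniz_inv` or `Derivation.leibniz`). -/
theorem der_adjoin (D : Derivation ℚ ℝ ℝ) (S : Set ℝ) (h : ∀ s ∈ S, D s = 0) :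
    ∀ a ∈ IntermediateField.adjoin ℚ S, D a = 0 := by
  intro a ha
  induction ha using IntermediateField.adjoin_induction with
  | mem x hx => exact h x hx
  | algebraMap x => exact D.map_algebraMap x
  | add x y _ _ hx hy => rw [map_add, hx, hy, add_zero]
  | inv x _ hx => rw [Derivation.leibniz_inv, hx, smul_zero]
  | mul x y _ _ hx hy => rw [Derivation.leibniz, hx, hy, smul_zero, smul_zero, add_zero]

private theorem ai_of_der_eval {κ : Type} [Fintype κ] (K : IntermediateField ℚ ℝ) (y : κ → ℝ)
    (D : Derivation ℚ ℝ ℝ) (hD : ∀ a ∈ K, D a = 0) (P : MvPolynomial κ K) :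
    D (aeval y P) = ∑ k, aeval y (pderiv k P) * D (y k) := by
  classical
  induction P using MvPolynomial.induction_on with
  | C a =>
    have h1 : D (algebraMap K ℝ a) = 0 := hD _ a.2
    rw [aeval_C, h1]
    simp
  | add p q hp hq =>
    simp only [map_add, hp, hq, add_mul, Finset.sum_add_distrib]
  | mul_X p n hp =>
    rw [map_mul, aeval_X, Derivation.leibniz, hp]
    have h1 : ∀ k, aeval y (pderiv k (p * X n)) * D (y k) =
        y n * (aeval y (pderiv k p) * D (y k)) + (if k = n then aeval y p * D (y n) else 0) := by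
      intro k
      rw [pderiv_mul, map_add, map_mul, map_mul, aeval_X]
      by_cases hk : k = n
      · subst hk
        rw [pderiv_X_self, map_one, if_pos rfl]
        ring
      · rw [pderiv_X_of_ne (Ne.symm hk), map_zero, if_neg hk]
        ring
    rw [Finset.sum_congr rfl fun k _ => h1 k, Finset.sum_add_distrib, ← Finset.mul_sum,
      Finset.sum_ite_eq' Finset.univ n, if_pos (Finset.mem_univ n)]
    simp only [smul_eq_mul]
    ring

private theorem ai_of_der_ind {κ : Type} [Fintype κ] (K : IntermediateField ℚ ℝ) (y : κ → ℝ)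
    (h : ∀ c : κ → ℝ, ∃ D : Derivation ℚ ℝ ℝ, (∀ a ∈ K, D a = 0) ∧ ∀ k, D (y k) = c k) (n : ℕ) :
    ∀ P : MvPolynomial κ K, (∀ m ∈ P.support, m.degree < n) → aeval y P = 0 → P = 0 := by
  classical
  induction n with
  | zero =>
    intro P hP _
    rw [← MvPolynomial.support_eq_empty]
    exact Finset.eq_empty_of_forall_notMem fun m hm => absurd (hP m hm) (Nat.not_lt_zero _)
  | succ n ih =>
    intro P hP h0
    have hk : ∀ k, pderiv k P = 0 := by
      intro k
      apply ih
      · intro m hm
        have h1 : m + Finsupp.single k 1 ∈ P.support := by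
          rw [mem_support_iff] at hm ⊢
          intro h2
          exact hm (by rw [coeff_pderiv, h2, zero_mul])
        have h2 := hP _ h1
        rw [map_add, Finsupp.degree_single] at h2
        omega
      · obtain ⟨D, hD, hy⟩ := h (Pi.single k 1)
        have h1 := ai_of_der_eval K y D hD P
        rw [h0, map_zero, Finset.sum_eq_single k] at h1
        · rw [hy k, Pi.single_eq_same, mul_one] at h1
          exact h1.symm
        · intro j _ hj
          rw [hy j, Pi.single_eq_of_ne hj, mul_zero]
        · intro hk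
          exact absurd (Finset.mem_univ k) hk
    have hc : P = C (coeff 0 P) := by
      ext m
      rw [coeff_C]
      by_cases hm : 0 = m
      · rw [if_pos hm, hm]
      · rw [if_neg hm]
        obtain ⟨k, hk'⟩ : ∃ k, m k ≠ 0 := by
          by_contra hcon
          push Not at hcon
          exact hm (Finsupp.ext fun k => (hcon k).symm)
        have h1 : m - Finsupp.single k 1 + Finsupp.single k 1 = m := by
          apply Finsupp.ext
          intro j
          rw [Finsupp.add_apply, Finsupp.tsub_apply]
          by_cases hj : k = j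
          · subst hj
            rw [Finsupp.single_eq_same]
            omega
          · rw [Finsupp.single_apply, if_neg hj]
            omega
        have h2 := coeff_pderiv (i := k) P (m - Finsupp.single k 1)
        rw [hk k, coeff_zero, h1] at h2
        rcases mul_eq_zero.1 h2.symm with h3 | h3
        · exact_mod_cast congrArg (fun t : K => (t : ℝ)) h3
        · exfalso
          have h4 : (((m - Finsupp.single k 1 : κ →₀ ℕ) k : ℕ) : K) + 1 ≠ 0 := Nat.cast_add_one_ne_zero _
          exact h4 h3
    rw [hc, aeval_C] at h0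
    have h3 : coeff 0 P = 0 := (algebraMap K ℝ).injective (by rw [h0, map_zero])
    rw [hc, h3, C_0]

/-- If every vector `c` is the value on `y` of a derivation which kills `K`, then `y` is
algebraically independent over `K`.
Proof: let `P ≠ 0` be a polynomial over `K` with `P(y) = 0`, of least total degree. For a
derivation `D` which kills `K`: `0 = D (P(y)) = ∑ k, (∂_k P)(y) D (y k)`. With `c = Pi.single k 1`:
`(∂_k P)(y) = 0` for every `k`, so `∂_k P = 0` by minimality (`pderiv` lowers the total degree, or it is zero). In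
characteristic zero all partial derivatives zero means that `P` is a constant, so `P = P(y) = 0`. -/
theorem ai_of_der {κ : Type} [Finite κ] (K : IntermediateField ℚ ℝ) (y : κ → ℝ)
    (h : ∀ c : κ → ℝ, ∃ D : Derivation ℚ ℝ ℝ, (∀ a ∈ K, D a = 0) ∧ ∀ k, D (y k) = c k) :
    AlgebraicIndependent K y := by
  have : Fintype κ := Fintype.ofFinite κ
  rw [algebraicIndependent_iff]
  intro P hP
  exact ai_of_der_ind K y h (P.support.sup (fun m => m.degree) + 1) P
    (fun m hm => Nat.lt_succ_of_le (Finset.le_sup (f := fun m : κ →₀ ℕ => m.degree) hm)) hP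

/-- The field generated by a countable set is countable. -/
theorem countable_adjoin (S : Set ℝ) (hS : S.Countable) :
    (IntermediateField.adjoin ℚ S : Set ℝ).Countable := by
  rw [← Set.countable_coe_iff, ← Cardinal.mk_le_aleph0_iff]
  have h1 := IntermediateField.cardinalMk_adjoin_le ℚ S
  have h2 : Cardinal.mk S ≤ Cardinal.aleph0 := Cardinal.mk_le_aleph0_iff.2 hS
  refine h1.trans ?_
  simp only [Cardinal.mkRat, max_le_iff]
  exact ⟨⟨le_rfl, h2⟩, le_rfl⟩

/-- Near every point there is a point which is algebraically independent over a countable field.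
Proof: `Finite.induction_empty_option` on `κ`; in the step the reals which are algebraic over the
countable field `K(z)` are countable, an open interval is not; then
`AlgebraicIndependent.option_iff_transcendental`. -/
theorem exists_near {κ : Type} [Finite κ] (K : IntermediateField ℚ ℝ)
    (hK : (K : Set ℝ).Countable) (y : κ → ℝ) (ε : ℝ) (hε : 0 < ε) :
    ∃ z : κ → ℝ, (∀ k, |z k - y k| < ε) ∧ AlgebraicIndependent K z := by
  have hKc : Countable K := hK.to_subtype
  revert y ε
  refine Finite.induction_empty_option (P := fun κ => ∀ (y : κ → ℝ) (ε : ℝ), 0 < ε →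
    ∃ z : κ → ℝ, (∀ k, |z k - y k| < ε) ∧ AlgebraicIndependent K z) ?_ ?_ ?_ κ
  · intro α β e h y ε hε
    obtain ⟨z, h1, h2⟩ := h (y ∘ e) ε hε
    refine ⟨z ∘ e.symm, fun k => ?_, (algebraicIndependent_equiv e.symm).2 h2⟩
    have h3 := h1 (e.symm k)
    rwa [Function.comp_apply, Equiv.apply_symm_apply] at h3
  · intro y ε hε
    refine ⟨y, fun k => k.elim, ?_⟩
    rw [algebraicIndependent_empty_type_iff]
    exact (algebraMap K ℝ).injective
  · intro α _ h y ε hε
    obtain ⟨z, h1, h2⟩ := h (y ∘ some) ε hε
    have hc : Countable (Algebra.adjoin K (Set.range z)) := by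
      rw [← Cardinal.mk_le_aleph0_iff]
      refine (Algebra.cardinalMk_adjoin_le _ _).trans ?_
      refine max_le (max_le (Cardinal.mk_le_aleph0_iff.2 hKc) ?_) le_rfl
      exact Cardinal.mk_le_aleph0_iff.2 (Set.countable_range z).to_subtype
    have h3 : Set.Countable {a : ℝ | IsAlgebraic (Algebra.adjoin K (Set.range z)) a} :=
      Algebraic.countable _ _
    obtain ⟨a, ha1, ha2⟩ := Metric.dense_iff.1 (h3.dense_compl ℝ) (y none) ε hε
    refine ⟨fun o => o.elim a z, fun k => ?_, (h2.option_iff_transcendental a).2 ha2⟩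
    cases k with
    | none =>
      rw [← Real.dist_eq]
      exact ha1
    | some k => exact h1 k

/-- Two algebraically independent families over `K`: the `K`-homomorphism `K(y) → ℝ` with
`y ↦ z`. Proof: `AlgebraicIndependent.aevalEquivField` or `reprField` for `y`, and for `z`. -/
theorem exists_sigma {κ : Type} (K : IntermediateField ℚ ℝ) (y z : κ → ℝ)
    (hy : AlgebraicIndependent K y) (hz : AlgebraicIndependent K z) :
    ∃ σ : IntermediateField.adjoin K (Set.range y) →ₐ[K] ℝ,
      ∀ k, σ ⟨y k, IntermediateField.subset_adjoin K _ ⟨k, rfl⟩⟩ = z k := by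
  refine ⟨(IntermediateField.val _).comp
    (hz.aevalEquivField.toAlgHom.comp hy.aevalEquivField.symm.toAlgHom), fun k => ?_⟩
  have h1 : hy.aevalEquivField.symm ⟨y k, IntermediateField.subset_adjoin K _ ⟨k, rfl⟩⟩ =
      algebraMap _ _ (MvPolynomial.X k : MvPolynomial κ K) := by
    rw [AlgEquiv.symm_apply_eq]
    apply Subtype.ext
    rw [hy.aevalEquivField_algebraMap_apply_coe, MvPolynomial.aeval_X]
  show ((hz.aevalEquivField (hy.aevalEquivField.symm ⟨y k, _⟩) :
    IntermediateField.adjoin K (Set.range z)) : ℝ) = z k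
  rw [h1, hz.aevalEquivField_algebraMap_apply_coe, MvPolynomial.aeval_X]

theorem sigma_pos_cont {κ : Type} [Finite κ] (K : IntermediateField ℚ ℝ) (r : MvPolynomial κ K) :
    Continuous fun z : κ → ℝ => aeval z r := by
  have h1 : (fun z : κ → ℝ => aeval z r) =
      fun z : κ → ℝ => eval z (MvPolynomial.map (algebraMap K ℝ) r) := by
    funext z
    rw [aeval_def, eval₂_eq_eval_map]
  rw [h1]
  exact MvPolynomial.continuous_eval _

/-- The sign of an element of `K(y)` does not change if `y` is changed a little.
Proof: `u = r(y) / s(y)` with polynomials `r`, `s` over `K` (`mem_adjoin_range_iff`), so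
`σ u = r(z) / s(z)`, and `r(y) s(y) > 0` stays positive near `y` by continuity. -/
theorem sigma_pos {κ : Type} [Finite κ] (K : IntermediateField ℚ ℝ) (y : κ → ℝ)
    (hy : AlgebraicIndependent K y) (u : IntermediateField.adjoin K (Set.range y))
    (hu : 0 < (u : ℝ)) :
    ∃ ε : ℝ, 0 < ε ∧ ∀ z : κ → ℝ, (∀ k, |z k - y k| < ε) → AlgebraicIndependent K z →
      ∀ σ : IntermediateField.adjoin K (Set.range y) →ₐ[K] ℝ,
        (∀ k, σ ⟨y k, IntermediateField.subset_adjoin K _ ⟨k, rfl⟩⟩ = z k) → 0 < σ u := by
  classical
  have := Fintype.ofFinite κ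
  obtain ⟨r, s, hrs⟩ := (IntermediateField.mem_adjoin_range_iff K y (u : ℝ)).1 u.2
  have hs : aeval y s ≠ 0 := by
    intro h0
    rw [h0, div_zero] at hrs
    exact hu.ne' hrs
  have hr : (u : ℝ) * aeval y s = aeval y r := by
    rw [hrs, div_mul_cancel₀ _ hs]
  have hc : Continuous fun z : κ → ℝ => aeval z r * aeval z s :=
    (sigma_pos_cont K r).mul (sigma_pos_cont K s)
  have h0 : 0 < aeval y r * aeval y s := by
    rw [← hr, mul_assoc]
    exact mul_pos hu (mul_self_pos.2 hs)
  obtain ⟨ε, hε, hball⟩ := Metric.isOpen_iff.1 (isOpen_lt continuous_const hc) y h0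
  refine ⟨ε, hε, fun z hz _ σ hσ => ?_⟩
  have hzb : z ∈ Metric.ball y ε := by
    rw [Metric.mem_ball, dist_pi_lt_iff hε]
    intro k
    rw [Real.dist_eq]
    exact hz k
  have h1 : 0 < aeval z r * aeval z s := hball hzb
  set Y : κ → IntermediateField.adjoin K (Set.range y) :=
    fun k => ⟨y k, IntermediateField.subset_adjoin K _ ⟨k, rfl⟩⟩ with hY
  have h2 : ∀ t : MvPolynomial κ K, ((aeval Y t : IntermediateField.adjoin K (Set.range y)) : ℝ) =
      aeval y t := by
    intro t
    exact comp_aeval_apply (f := Y) (IntermediateField.adjoin K (Set.range y)).val t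
  have h3 : u * aeval Y s = aeval Y r := by
    apply Subtype.ext
    rw [IntermediateField.coe_mul, h2, h2]
    exact hr
  have h4 : ∀ t : MvPolynomial κ K, σ (aeval Y t) = aeval z t := by
    intro t
    have h5 := comp_aeval_apply (f := Y) σ t
    rw [show (fun i => σ (Y i)) = z from funext hσ] at h5
    exact h5
  have h5 : σ u * aeval z s = aeval z r := by
    rw [← h4, ← h4, ← map_mul, h3]
  rw [← h5, mul_assoc] at h1
  exact (pos_iff_pos_of_mul_pos h1).2 (by
    rcases lt_or_eq_of_le (mul_self_nonneg (aeval z s : ℝ)) with h6 | h6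
    · exact h6
    · rw [← h6, mul_zero] at h1
      exact absurd h1 (lt_irrefl _))

/-- A simple root of a real polynomial: there are rationals on both sides where the values have
opposite signs. -/
theorem exists_sign_change (f : Polynomial ℝ) (θ : ℝ) (h0 : f.eval θ = 0)
    (h1 : f.derivative.eval θ ≠ 0) :
    ∃ r s : ℚ, (r : ℝ) < s ∧ f.eval (r : ℝ) * f.eval (s : ℝ) < 0 := by
  obtain ⟨g, hg⟩ := Polynomial.dvd_iff_isRoot.2 h0
  have h2 : g.eval θ ≠ 0 := by
    intro h
    apply h1
    rw [hg, Polynomial.derivative_mul]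
    simp [h]
  have hpos : 0 < g.eval θ * g.eval θ := mul_self_pos.2 h2
  have hc : ContinuousAt (fun x => g.eval x * g.eval θ) θ := by fun_prop
  have hev : ∀ᶠ x in nhds θ, 0 < g.eval x * g.eval θ := hc.eventually (lt_mem_nhds hpos)
  obtain ⟨δ, hδ, hball⟩ := Metric.eventually_nhds_iff.1 hev
  obtain ⟨r, hr1, hr2⟩ := exists_rat_btwn (show θ - δ < θ by linarith)
  obtain ⟨s, hs1, hs2⟩ := exists_rat_btwn (show θ < θ + δ by linarith)
  refine ⟨r, s, hr2.trans hs1, ?_⟩
  have a1 : 0 < g.eval (r : ℝ) * g.eval θ := hball (by rw [Real.dist_eq, abs_lt]; constructor <;> linarith)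
  have a2 : 0 < g.eval (s : ℝ) * g.eval θ := hball (by rw [Real.dist_eq, abs_lt]; constructor <;> linarith)
  have h3 : 0 < g.eval (r : ℝ) * g.eval (s : ℝ) := by
    have h4 := mul_pos a1 a2
    have h5 : (g.eval (r : ℝ) * g.eval θ) * (g.eval (s : ℝ) * g.eval θ) =
        (g.eval (r : ℝ) * g.eval (s : ℝ)) * (g.eval θ * g.eval θ) := by ring
    rw [h5] at h4
    exact (mul_pos_iff_of_pos_right hpos).1 h4
  have h6 : 0 < (θ - r) * (s - θ) := mul_pos (by linarith) (by linarith)
  have h7 : f.eval (r : ℝ) * f.eval (s : ℝ) = -(((θ - r) * (s - θ)) * (g.eval (r : ℝ) * g.eval (s : ℝ))) := by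
    rw [hg, Polynomial.eval_mul, Polynomial.eval_mul, Polynomial.eval_sub, Polynomial.eval_sub, Polynomial.eval_X,
      Polynomial.eval_X, Polynomial.eval_C, Polynomial.eval_C]
    ring
  rw [h7]
  exact neg_neg_of_pos (mul_pos h6 h3)

end Pool.Sdp
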