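import Pool.Agent.Sdp.AlgA

/-!
# Real solutions of polynomial equations near a generic point
-/

set_option autoImplicit false

namespace Pool.Sdp

open MvPolynomial IntermediateField

theorem near_alg_prim {L : Type} [Field L] [Algebra L ℝ] {μ : Type} [Finite μ] (x : μ → ℝ)
    (hx : ∀ m, IsAlgebraic L (x m)) : ∃ (θ : ℝ) (g : μ → Polynomial L), IsIntegral L θ ∧
      ∀ m, Polynomial.aeval θ (g m) = x m := by
  have : CharZero L := by
    have : FaithfulSMul L ℝ := by infer_instance
    exact (algebraMap L ℝ).charZero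
  have : FiniteDimensional L (IntermediateField.adjoin L (Set.range x)) :=
    IntermediateField.finiteDimensional_adjoin (by
      rintro _ ⟨m, rfl⟩
      exact (hx m).isIntegral)
  obtain ⟨θ, hθ⟩ := Field.exists_primitive_element L (IntermediateField.adjoin L (Set.range x))
  have hθi : IsIntegral L θ := Algebra.IsIntegral.isIntegral θ
  have hmem : ∀ a : IntermediateField.adjoin L (Set.range x), ∃ g : Polynomial L,
      Polynomial.aeval θ g = a := by
    intro a
    have h1 : a ∈ (IntermediateField.adjoin L {θ}).toSubalgebra := by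
      rw [hθ]; exact IntermediateField.mem_top
    rw [IntermediateField.adjoin_simple_toSubalgebra_of_isAlgebraic hθi.isAlgebraic,
      Algebra.adjoin_singleton_eq_range_aeval] at h1
    exact h1
  choose G hG using hmem
  refine ⟨(θ : ℝ), fun m => G ⟨x m, IntermediateField.subset_adjoin L _ ⟨m, rfl⟩⟩, ?_, fun m => ?_⟩
  · exact hθi.map (IntermediateField.val _)
  · have h2 := congrArg (IntermediateField.val (IntermediateField.adjoin L (Set.range x)))
      (hG ⟨x m, IntermediateField.subset_adjoin L _ ⟨m, rfl⟩⟩)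
    rw [← Polynomial.aeval_algHom_apply] at h2
    exact h2

theorem near_alg_root (f : Polynomial ℝ) (r s : ℝ) (hrs : r < s) (h : f.eval r * f.eval s < 0) :
    ∃ θ : ℝ, f.eval θ = 0 := by
  have hc : ContinuousOn (fun t => f.eval t) (Set.Icc r s) := f.continuous.continuousOn
  rcases mul_neg_iff.1 h with ⟨h1, h2⟩ | ⟨h1, h2⟩
  · obtain ⟨t, _, ht⟩ := intermediate_value_Icc' hrs.le hc ⟨h2.le, h1.le⟩
    exact ⟨t, ht⟩
  · obtain ⟨t, _, ht⟩ := intermediate_value_Icc hrs.le hc ⟨h1.le, h2.le⟩
    exact ⟨t, ht⟩

/-- The algebraic case. `y` is algebraically independent over `K` and all `x m` are algebraic over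
`K(y)`. If `z` is close to `y` and algebraically independent over `K`, then there is `x'` such that
all polynomial relations over `K` of `(y, x)` hold for `(z, x')`.
Proof. `L = K(y)`. Primitive element `θ` of `L(x) / L` (finite, characteristic zero):
`x m = g m (θ)` with `g m ∈ L[T]`; `f = minpoly L θ` is separable, so `θ` is a simple root, and
`f(r) f(s) < 0` for rationals `r < s` (`exists_sign_change` for `f` mapped to `ℝ`). These are
elements of `L`. Take `ε` from `sigma_pos` for `- f(r) f(s) ∈ L`. Let `σ : L → ℝ` be from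
`exists_sigma`. Then `(σ f)(r) (σ f)(s) < 0`, so `σ f` has a real root `θ'` (intermediate value
theorem). Put `x' m = (σ (g m)) (θ')`. If `P(y, x) = 0`, then `G = P(C y, g) ∈ L[T]` has the root
`θ`, so `f ∣ G`, so `(σ G)(θ') = 0`, that is `P(z, x') = 0`. -/
theorem near_alg {κ μ : Type} [Finite κ] [Finite μ] (K : IntermediateField ℚ ℝ) (y : κ → ℝ)
    (hy : AlgebraicIndependent K y) (x : μ → ℝ)
    (hx : ∀ m, IsAlgebraic (IntermediateField.adjoin K (Set.range y)) (x m)) :
    ∃ ε : ℝ, 0 < ε ∧ ∀ z : κ → ℝ, (∀ k, |z k - y k| < ε) → AlgebraicIndependent K z →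
      ∃ x' : μ → ℝ, ∀ P : MvPolynomial (κ ⊕ μ) K, aeval (Sum.elim y x) P = 0 →
        aeval (Sum.elim z x') P = 0 := by
  set L := IntermediateField.adjoin K (Set.range y) with hL
  obtain ⟨θ, g, hθ, hg⟩ := near_alg_prim (L := L) x hx
  have hf0 : Polynomial.aeval θ (minpoly L θ) = 0 := minpoly.aeval L θ
  have hsep : (minpoly L θ).Separable := (minpoly.irreducible hθ).separable
  have hf1 := hsep.aeval_derivative_ne_zero hf0
  obtain ⟨r, s, hrs, hlt⟩ := exists_sign_change ((minpoly L θ).map (algebraMap L ℝ)) θ
    (by rw [Polynomial.eval_map_algebraMap]; exact hf0)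
    (by rw [Polynomial.derivative_map, Polynomial.eval_map_algebraMap]; exact hf1)
  have hval : ∀ (φ : L →+* ℝ) (q : ℚ), ((minpoly L θ).map φ).eval (q : ℝ)
      = φ ((minpoly L θ).eval (q : L)) := by
    intro φ q
    rw [Polynomial.eval_map, ← map_ratCast φ q, Polynomial.eval₂_at_apply]
  obtain ⟨ε, hε, hσ⟩ := sigma_pos K y hy
    (-((minpoly L θ).eval (r : L) * (minpoly L θ).eval (s : L))) (by
      rw [hval, hval, ← map_mul] at hlt
      have h2 : ((-((minpoly L θ).eval (r : L) * (minpoly L θ).eval (s : L)) : L) : ℝ)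
          = -(algebraMap L ℝ ((minpoly L θ).eval (r : L) * (minpoly L θ).eval (s : L))) := by
        rw [← map_neg]; rfl
      rw [h2]
      linarith)
  refine ⟨ε, hε, fun z hz hzi => ?_⟩
  obtain ⟨σ, hσz⟩ := exists_sigma K y z hy hzi
  have hpos := hσ z hz hzi σ hσz
  have hneg : ((minpoly L θ).map (σ : L →+* ℝ)).eval (r : ℝ)
      * ((minpoly L θ).map (σ : L →+* ℝ)).eval (s : ℝ) < 0 := by
    rw [hval, hval, ← map_mul]
    rw [map_neg] at hpos
    have h3 : ((σ : L →+* ℝ)) ((minpoly L θ).eval (r : L) * (minpoly L θ).eval (s : L))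
        = σ ((minpoly L θ).eval (r : L) * (minpoly L θ).eval (s : L)) := rfl
    rw [h3]
    linarith
  obtain ⟨θ', hθ'⟩ := near_alg_root _ _ _ hrs hneg
  refine ⟨fun m => (Polynomial.eval₂AlgHom σ θ' (fun a => Commute.all _ _)) (g m), fun P hP => ?_⟩
  have h4 := MvPolynomial.comp_aeval (R := K) (f := (Sum.elim
    (fun k => Polynomial.C (⟨y k, IntermediateField.subset_adjoin K _ ⟨k, rfl⟩⟩ : L)) g :
      κ ⊕ μ → Polynomial L)) ((Polynomial.aeval (R := L) θ).restrictScalars K)
  have h5 := MvPolynomial.comp_aeval (R := K) (f := (Sum.elim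
    (fun k => Polynomial.C (⟨y k, IntermediateField.subset_adjoin K _ ⟨k, rfl⟩⟩ : L)) g :
      κ ⊕ μ → Polynomial L)) (Polynomial.eval₂AlgHom σ θ' (fun a => Commute.all _ _))
  have e4 : (fun i => ((Polynomial.aeval (R := L) θ).restrictScalars K)
      ((Sum.elim (fun k => Polynomial.C (⟨y k, IntermediateField.subset_adjoin K _ ⟨k, rfl⟩⟩ : L)) g :
      κ ⊕ μ → Polynomial L) i)) = Sum.elim y x := by
    funext i
    rcases i with k | m
    · simp only [Sum.elim_inl, AlgHom.restrictScalars_apply, Polynomial.aeval_C]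
      rfl
    · simp only [Sum.elim_inr, AlgHom.restrictScalars_apply]
      exact hg m
  have e5 : (fun i => (Polynomial.eval₂AlgHom σ θ' (fun a => Commute.all _ _))
      ((Sum.elim (fun k => Polynomial.C (⟨y k, IntermediateField.subset_adjoin K _ ⟨k, rfl⟩⟩ : L)) g :
      κ ⊕ μ → Polynomial L) i)) = Sum.elim z
        (fun m => (Polynomial.eval₂AlgHom σ θ' (fun a => Commute.all _ _)) (g m)) := by
    funext i
    rcases i with k | m
    · simp only [Sum.elim_inl]
      rw [← hσz k]
      exact Polynomial.eval₂_C _ _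
    · simp only [Sum.elim_inr]
  rw [e4] at h4
  rw [e5] at h5
  rw [← h4, AlgHom.comp_apply] at hP
  rw [← h5, AlgHom.comp_apply]
  set G : Polynomial L := (aeval (Sum.elim
    (fun k => Polynomial.C (⟨y k, IntermediateField.subset_adjoin K _ ⟨k, rfl⟩⟩ : L)) g :
      κ ⊕ μ → Polynomial L)) P with hG
  have hdvd : minpoly L θ ∣ G := minpoly.dvd L θ hP
  obtain ⟨q, hq⟩ := hdvd
  rw [hq, map_mul]
  have h6 : (Polynomial.eval₂AlgHom σ θ' (fun a => Commute.all _ _)) (minpoly L θ) = 0 := by
    have : (Polynomial.eval₂AlgHom σ θ' (fun a => Commute.all _ _)) (minpoly L θ)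
        = ((minpoly L θ).map (σ : L →+* ℝ)).eval θ' := by
      rw [Polynomial.eval_map]; rfl
    rw [this, hθ']
  rw [h6, zero_mul]

private theorem exists_middle_max {κ μ : Type} [Finite μ] (F : IntermediateField ℚ ℝ) (y : κ → ℝ)
    (hy : AlgebraicIndependent F y) (x : μ → ℝ) :
    ∃ A : Set μ, AlgebraicIndependent F (Sum.elim y (fun a : A => x a)) ∧
      ∀ B : Set μ, AlgebraicIndependent F (Sum.elim y (fun a : B => x a)) → A ⊆ B → B ⊆ A := by
  have hne : ({A : Set μ | AlgebraicIndependent F (Sum.elim y (fun a : A => x a))}).Nonempty := by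
    refine ⟨∅, ?_⟩
    have h := hy.comp (fun s : κ ⊕ (∅ : Set μ) => Sum.elim id (fun a => a.2.elim) s) (by
      rintro (a | a) (b | b) hab
      · simpa using hab
      · exact b.2.elim
      · exact a.2.elim
      · exact a.2.elim)
    show AlgebraicIndependent F (Sum.elim y (fun a : (∅ : Set μ) => x a))
    have he : (Sum.elim y (fun a : (∅ : Set μ) => x a)) =
        y ∘ (fun s : κ ⊕ (∅ : Set μ) => Sum.elim id (fun a => a.2.elim) s) := by
      ext (a | a)
      · rfl
      · exact a.2.elim
    rw [he]
    exact h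
  obtain ⟨A, hA⟩ := (Set.toFinite {A : Set μ | AlgebraicIndependent F
    (Sum.elim y (fun a : A => x a))}).exists_maximal hne
  exact ⟨A, hA.1, fun B hB hAB => hA.2 hB hAB⟩

private theorem exists_middle_alg {κ μ : Type} (F : IntermediateField ℚ ℝ) (y : κ → ℝ)
    (x : μ → ℝ) (A : Set μ) (hA : AlgebraicIndependent F (Sum.elim y (fun a : A => x a)))
    (hmax : ∀ B : Set μ, AlgebraicIndependent F (Sum.elim y (fun a : B => x a)) → A ⊆ B → B ⊆ A)
    (m : μ) (hm : m ∉ A) :
    IsAlgebraic (Algebra.adjoin F (Set.range (Sum.elim y (fun a : A => x a)))) (x m) := by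
  classical
  by_contra hcon
  have h := (hA.option_iff_transcendental (x m)).2 hcon
  have h2 := h.comp (fun s : κ ⊕ (insert m A : Set μ) => match s with
    | Sum.inl k => some (Sum.inl k)
    | Sum.inr b => if hb : (b : μ) = m then none else
        some (Sum.inr ⟨b.1, (Set.mem_insert_iff.1 b.2).resolve_left hb⟩)) (by
      rintro (a | a) (b | b) hab
      · simpa using hab
      · by_cases hb : (b : μ) = m <;> simp [hb] at hab
      · by_cases ha : (a : μ) = m <;> simp [ha] at hab
      · by_cases ha : (a : μ) = m <;> by_cases hb : (b : μ) = m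
        · congr 1
          exact Subtype.ext (ha.trans hb.symm)
        · simp [ha, hb] at hab
        · simp [ha, hb] at hab
        · simp only [ha, hb, dite_false, Option.some.injEq, Sum.inr.injEq, Subtype.mk.injEq] at hab
          congr 1
          exact Subtype.ext hab)
  refine hm (hmax (insert m A) ?_ (Set.subset_insert _ _) (Set.mem_insert _ _))
  refine Eq.mpr (congrArg (fun g : κ ⊕ (insert m A : Set μ) → ℝ =>
    AlgebraicIndependent F g) ?_) h2
  ext (a | a)
  · rfl
  · by_cases ha : (a : μ) = m
    · simp [ha]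
    · simp [ha]

/-- Choice of the transcendental part: a field `K` between `F` and the field generated by `F` and
`x`, such that `y` is still algebraically independent over `K` and all `x m` are algebraic over
`K(y)`.
Proof: a maximal set `A` of indices such that `y` together with `x m`, `m ∈ A`, is algebraically
independent over `F`; `K = F(x m : m ∈ A)`. -/
theorem exists_middle {κ μ : Type} [Finite κ] [Finite μ] (F : IntermediateField ℚ ℝ) (y : κ → ℝ)
    (hy : AlgebraicIndependent F y) (x : μ → ℝ) :
    ∃ K : IntermediateField ℚ ℝ, F ≤ K ∧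
      (∀ K' : IntermediateField ℚ ℝ, F ≤ K' → (∀ m, x m ∈ K') → K ≤ K') ∧
      AlgebraicIndependent K y ∧
      ∀ m, IsAlgebraic (IntermediateField.adjoin K (Set.range y)) (x m) := by
  obtain ⟨A, hA, hmax⟩ := exists_middle_max F y hy x
  set S : Set ℝ := Set.range (fun a : A => x a) with hS
  have hFK : F ≤ (IntermediateField.adjoin F S).restrictScalars ℚ := by
    intro r hr
    exact IntermediateField.algebraMap_mem (IntermediateField.adjoin F S) ⟨r, hr⟩
  have hSK : ∀ m ∈ A, x m ∈ (IntermediateField.adjoin F S).restrictScalars ℚ := by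
    intro m hm
    exact IntermediateField.subset_adjoin F S ⟨⟨m, hm⟩, rfl⟩
  refine ⟨(IntermediateField.adjoin F S).restrictScalars ℚ, hFK, ?_, ?_, ?_⟩
  · intro K' hK' hx r hr
    have hle : IntermediateField.adjoin F S ≤ IntermediateField.extendScalars hK' := by
      rw [IntermediateField.adjoin_le_iff]
      rintro _ ⟨a, rfl⟩
      exact hx a
    exact hle hr
  · have h1 := (AlgebraicIndependent.sumElim_iff.1 hA).2
    exact (IntermediateField.algebraicIndependent_adjoin_iff (F := F) (s := S)).2 h1
  · intro m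
    set K := (IntermediateField.adjoin F S).restrictScalars ℚ with hK
    by_cases hm : m ∈ A
    · have : x m ∈ IntermediateField.adjoin K (Set.range y) :=
        IntermediateField.algebraMap_mem (IntermediateField.adjoin K (Set.range y))
          ⟨x m, hSK m hm⟩
      exact isAlgebraic_algebraMap (R := IntermediateField.adjoin K (Set.range y)) (A := ℝ)
        ⟨x m, this⟩
    · have h1 := exists_middle_alg F y x A hA hmax m hm
      have hsub : ∀ r ∈ Algebra.adjoin F (Set.range (Sum.elim y (fun a : A => x a))),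
          r ∈ IntermediateField.adjoin K (Set.range y) := by
        intro r hr
        induction hr using Algebra.adjoin_induction with
        | mem r hr =>
          obtain ⟨s, rfl⟩ := hr
          rcases s with k | a
          · exact IntermediateField.subset_adjoin K (Set.range y) ⟨k, rfl⟩
          · exact IntermediateField.algebraMap_mem (IntermediateField.adjoin K (Set.range y))
              ⟨x a, hSK a a.2⟩
        | algebraMap r =>
          exact IntermediateField.algebraMap_mem (IntermediateField.adjoin K (Set.range y))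
            ⟨r.1, hFK r.2⟩
        | add a b _ _ ha hb => exact add_mem ha hb
        | mul a b _ _ ha hb => exact mul_mem ha hb
      let f : Algebra.adjoin F (Set.range (Sum.elim y (fun a : A => x a))) →+*
          IntermediateField.adjoin K (Set.range y) :=
        { toFun := fun r => ⟨r.1, hsub r.1 r.2⟩
          map_one' := rfl
          map_mul' := fun _ _ => rfl
          map_zero' := rfl
          map_add' := fun _ _ => rfl }
      have hf : Function.Injective f := by
        intro a b hab
        have h2 : ((f a : IntermediateField.adjoin K (Set.range y)) : ℝ) = (f b) := by rw [hab]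
        exact Subtype.ext h2
      exact h1.ringHom_of_comp_eq f (RingHom.id ℝ) hf (by ext r; rfl)

private theorem near_sol_map {ι : Type} (K K' : IntermediateField ℚ ℝ) (h : K ≤ K') (w : ι → ℝ)
    (P : MvPolynomial ι K) :
    aeval w (MvPolynomial.map (IntermediateField.inclusion h).toRingHom P) = aeval w P := by
  rw [MvPolynomial.aeval_def, MvPolynomial.aeval_def, MvPolynomial.eval₂_map]
  rfl

private theorem near_sol_ai {ι : Type} (K K' : IntermediateField ℚ ℝ) (h : K ≤ K') (z : ι → ℝ)
    (hz : AlgebraicIndependent K' z) : AlgebraicIndependent K z := by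
  rw [algebraicIndependent_iff] at hz ⊢
  intro P hP
  have h1 := hz (MvPolynomial.map (IntermediateField.inclusion h).toRingHom P)
    (by rw [near_sol_map]; exact hP)
  have h2 : Function.Injective (MvPolynomial.map (σ := ι)
      (IntermediateField.inclusion h).toRingHom) :=
    MvPolynomial.map_injective _ (IntermediateField.inclusion h).toRingHom.injective
  exact h2 (by rw [h1, map_zero])

/-- The general case, for `z` algebraically independent over a field which contains `F` and `x`.
Proof: `exists_middle` and `near_alg`. -/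
theorem near_sol {κ μ : Type} [Finite κ] [Finite μ] (F : IntermediateField ℚ ℝ) (y : κ → ℝ)
    (hy : AlgebraicIndependent F y) (x : μ → ℝ) (K' : IntermediateField ℚ ℝ) (hFK : F ≤ K')
    (hxK : ∀ m, x m ∈ K') :
    ∃ ε : ℝ, 0 < ε ∧ ∀ z : κ → ℝ, (∀ k, |z k - y k| < ε) → AlgebraicIndependent K' z →
      ∃ x' : μ → ℝ, ∀ P : MvPolynomial (κ ⊕ μ) F, aeval (Sum.elim y x) P = 0 →
        aeval (Sum.elim z x') P = 0 := by
  obtain ⟨K, hFK1, hmin, hyK, hxK1⟩ := exists_middle F y hy x
  obtain ⟨ε, hε, h⟩ := near_alg K y hyK x hxK1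
  refine ⟨ε, hε, fun z hz hzK' => ?_⟩
  obtain ⟨x', hx'⟩ := h z hz (near_sol_ai K K' (hmin K' hFK hxK) z hzK')
  refine ⟨x', fun P hP => ?_⟩
  have h1 := hx' (MvPolynomial.map (IntermediateField.inclusion hFK1).toRingHom P)
    (by rw [near_sol_map]; exact hP)
  rw [near_sol_map] at h1
  exact h1

end Pool.Sdp
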