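import Pool.Agent.Rgd.Defs

/-!
# Tree models and interchangeable pieces: definitions
-/

set_option autoImplicit false

namespace Pool.Sdp

open Pool.Rgd

/-- `TreeModel G lab h W`: the subgraph of `G` on `W` has a tree model of height `h` with the
labels `lab`: for `h = 0` there is at most one vertex in `W`; for `h + 1` the set `W` is divided
into classes which have tree models of height `h`, and whether vertices `x`, `y` of different
classes are adjacent depends only on their labels. -/
def TreeModel {V L : Type} (G : SimpleGraph V) (lab : V → L) : ℕ → Finset V → Prop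
  | 0, W => W.card ≤ 1
  | h + 1, W => ∃ (c : V → ℕ) (M : L → L → Prop),
      (∀ i, TreeModel G lab h (W.filter fun v => c v = i)) ∧
      ∀ x ∈ W, ∀ y ∈ W, c x ≠ c y → (G.Adj x y ↔ M (lab x) (lab y))

/-- `m` interchangeable pieces with `k` vertices each inside `W`. -/
structure Pieces {V : Type} (G : SimpleGraph V) (W : Finset V) (m k : ℕ)
    (e : Fin m → Fin k → V) : Prop where
  mem : ∀ i a, e i a ∈ W
  inj : ∀ i j a b, e i a = e j b → i = j ∧ a = b
  ins : ∀ i j a b, G.Adj (e i a) (e i b) ↔ G.Adj (e j a) (e j b)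
  crs : ∀ i i' j j' a b, i ≠ i' → j ≠ j' → (G.Adj (e i a) (e i' b) ↔ G.Adj (e j a) (e j' b))
  out : ∀ i j a, ∀ w ∈ W, (∀ i' b, e i' b ≠ w) → (G.Adj (e i a) w ↔ G.Adj (e j a) w)

/-- `p` is generic on `S` -/
def GenOn {V : Type} {d : ℕ} (S : Finset V) (p : V → E d) : Prop :=
  AlgebraicIndependent ℚ (fun x : S × Fin d => (p x.1) x.2)

/-- `p` and `q` are equivalent on `S` -/
def EqvOn {V : Type} {d : ℕ} (G : SimpleGraph V) (S : Finset V) (p q : V → E d) : Prop :=
  ∀ u ∈ S, ∀ v ∈ S, G.Adj u v → dist (p u) (p v) = dist (q u) (q v)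

/-- the subgraph on `S` is generically globally rigid -/
def GRon {V : Type} (d : ℕ) (G : SimpleGraph V) (S : Finset V) : Prop :=
  ∀ p q : V → E d, GenOn S p → EqvOn G S p q →
    ∀ u ∈ S, ∀ v ∈ S, dist (p u) (p v) = dist (q u) (q v)

/-- the number of pieces which is needed: more than the number `k (d + 1) d` of reals, and enough
for the local rules -/
def phi (d k : ℕ) : ℕ := k * ((d + 1) * d) + (d * (d + 1) + 1) + (d + 1) + 2

end Pool.Sdp
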