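import Pool.Agent.Rgd.Link
import Pool.Agent.Sdp.Defs

/-!
# Labels whose copies move rigidly, and the other ones

`e : Fin (m + 1) → Fin k → V` are pieces in `W`; `e 0` is the piece which is removed, `S` is the
rest of `W`. The vertices `e (Fin.succ i) a` for fixed `a` are the copies of label `a` in `S`.
-/

set_option autoImplicit false

namespace Pool.Sdp

open Pool.Rgd

/-- a point of `ℝ^d` is determined by its distances to `d + 1` affinely independent points -/
theorem eq_of_dist {d : ℕ} (S : Fin (d + 1) → E d) (hS : AffineIndependent ℝ S) (x y : E d)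
    (h : ∀ i, dist x (S i) = dist y (S i)) : x = y := by
  obtain ⟨R, c, _, h2⟩ := frame S S hS (fun _ _ => rfl)
  rw [h2 x x fun _ => rfl, ← h2 x y h]

/-- `d + 1` points of a configuration which is generic on `S` are affinely independent. -/
theorem GenOn.affineIndependent {V : Type} {d : ℕ} {S : Finset V} {p : V → E d} (hp : GenOn S p)
    (s : Fin (d + 1) → V) (hs : Function.Injective s) (hsS : ∀ i, s i ∈ S) :
    AffineIndependent ℝ (fun i => p (s i)) := by
  have h1 : Gen (fun x : S => p x) := hp
  exact h1.affineIndependent (fun i => (⟨s i, hsS i⟩ : S)) (fun i j hij => hs (congrArg Subtype.val hij))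

/-- `linked_bipartite` for a subset -/
theorem linked_bipartite_on {V : Type} {d : ℕ} (G : SimpleGraph V) (S : Finset V) (p q : V → E d)
    (hp : GenOn S p) (hq : EqvOn G S p q) (s : Fin (d + 1) → V) (hs : Function.Injective s)
    (hsS : ∀ i, s i ∈ S) (t : Fin (d * (d + 1) + 1) → V) (ht : Function.Injective t)
    (htS : ∀ i, t i ∈ S) (h : ∀ i j, G.Adj (s i) (t j)) (i j : Fin (d + 1)) :
    dist (p (s i)) (p (s j)) = dist (q (s i)) (q (s j)) :=
  linked_bipartite (V := S) (G.comap Subtype.val) (fun i => ⟨s i, hsS i⟩)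
    (fun _ _ hab => hs (congrArg Subtype.val hab)) (fun i => ⟨t i, htS i⟩)
    (fun _ _ hab => ht (congrArg Subtype.val hab)) (fun i j => h i j) i j
    (fun v => p v) (fun v => q v) hp (fun u v huv => hq u u.2 v v.2 huv)

/-- The set-up of this file: `e` are interchangeable pieces of `W`, `S` is `W` without the piece
`e 0`, `p` is generic on `S` and `q` is equivalent to it on `S`. -/
structure Setup {V : Type} (d : ℕ) (G : SimpleGraph V) (W S : Finset V) (m k : ℕ)
    (e : Fin (m + 1) → Fin k → V) (p q : V → E d) : Prop where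
  pcs : Pieces G W (m + 1) k e
  sub : S ⊆ W
  memS : ∀ w ∈ W, (w ∈ S ↔ ∀ a, e 0 a ≠ w)
  gen : GenOn S p
  eqv : EqvOn G S p q

/-- the copies of label `a` in `S` move rigidly -/
def RigidLabel {V : Type} {d m k : ℕ} (e : Fin (m + 1) → Fin k → V) (p q : V → E d) (a : Fin k) :
    Prop :=
  ∀ i j : Fin m, dist (p (e i.succ a)) (p (e j.succ a)) = dist (q (e i.succ a)) (q (e j.succ a))

/-- **(B1)** If the copies of label `a` move rigidly, the same isometry moves every neighbour of
`e 0 a` in `S`.
Proof: `frame` for the first `d + 1` copies gives `R`, `c`, and `q = R p + c` on all copies. Let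
`v ∈ S` be adjacent to `e 0 a`. If `v` is in no piece, it is adjacent to all copies (`out`); if
`v = e (succ j) b`, it is adjacent to all copies `e (succ i) a`, `i ≠ j` (`crs`). So there are
`d + 1` copies with the right distance to `v` (`m ≥ d + 2`), and `eq_of_dist` for `q v` and
`R (p v) + c`. -/
theorem rigid_body {V : Type} {d : ℕ} {G : SimpleGraph V} {W S : Finset V} {m k : ℕ}
    {e : Fin (m + 1) → Fin k → V} {p q : V → E d} (hs : Setup d G W S m k e p q)
    (hm : d + 2 ≤ m) (a : Fin k) (ha : RigidLabel e p q a) :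
    ∃ (R : E d ≃ₗᵢ[ℝ] E d) (c : E d), (∀ i : Fin m, q (e i.succ a) = R (p (e i.succ a)) + c) ∧
      ∀ v ∈ S, G.Adj (e 0 a) v → q v = R (p v) + c := by
  have hdm : d + 1 ≤ m := by omega
  have hmem : ∀ i : Fin m, e i.succ a ∈ S := by
    intro i
    rw [hs.memS _ (hs.pcs.mem _ _)]
    intro a' h
    exact (Fin.succ_ne_zero i) (hs.pcs.inj _ _ _ _ h).1.symm
  have haff : ∀ t : Fin (d + 1) → Fin m, Function.Injective t →
      AffineIndependent ℝ (fun i => p (e (t i).succ a)) := by
    intro t ht
    refine GenOn.affineIndependent hs.gen (fun i => e (t i).succ a) ?_ (fun i => hmem _)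
    intro i j hij
    exact ht (Fin.succ_injective _ (hs.pcs.inj _ _ _ _ hij).1)
  obtain ⟨R, c, -, hall⟩ := frame (fun i : Fin (d + 1) => p (e (Fin.castLE hdm i).succ a))
    (fun i : Fin (d + 1) => q (e (Fin.castLE hdm i).succ a))
    (haff (fun i => Fin.castLE hdm i) (Fin.castLE_injective hdm)) (fun i j => ha _ _)
  have hcop : ∀ i : Fin m, q (e i.succ a) = R (p (e i.succ a)) + c :=
    fun i => hall _ _ (fun j => ha _ _)
  refine ⟨R, c, hcop, ?_⟩
  intro v hv hav
  have key : ∀ t : Fin (d + 1) → Fin m, Function.Injective t →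
      (∀ i, G.Adj (e (t i).succ a) v) → q v = R (p v) + c := by
    intro t ht hadj
    have h1 : R.symm (q v - c) = p v := by
      refine eq_of_dist (fun i => p (e (t i).succ a)) (haff t ht) _ _ (fun i => ?_)
      have h2 := hs.eqv v hv _ (hmem (t i)) (hadj i).symm
      rw [h2, ← R.dist_map (R.symm (q v - c)), LinearIsometryEquiv.apply_symm_apply, hcop (t i),
        dist_eq_norm, dist_eq_norm]
      congr 1
      abel
    rw [← h1, LinearIsometryEquiv.apply_symm_apply]
    abel
  by_cases hp : ∃ j b, e j b = v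
  · obtain ⟨j', b, hjb⟩ := hp
    have hj0 : j' ≠ 0 := by
      intro h0
      have := (hs.memS v (hs.sub hv)).1 hv b
      rw [h0] at hjb
      exact this hjb
    obtain ⟨j, rfl⟩ := Fin.exists_succ_eq.2 hj0
    obtain ⟨m', rfl⟩ : ∃ m', m = m' + 1 := ⟨m - 1, by omega⟩
    refine key (fun i => j.succAbove (Fin.castLE (by omega) i)) ?_ ?_
    · exact (Fin.succAbove_right_injective).comp (Fin.castLE_injective _)
    · intro i
      rw [← hjb] at hav ⊢
      refine (hs.pcs.crs 0 j.succ _ j.succ a b (Fin.succ_ne_zero j).symm ?_).1 hav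
      intro h
      exact Fin.succAbove_ne j _ (Fin.succ_injective _ h)
  · refine key (fun i => Fin.castLE hdm i) (Fin.castLE_injective hdm) ?_
    intro i
    refine (hs.pcs.out 0 _ a v (hs.sub hv) ?_).1 hav
    intro i' b h
    exact hp ⟨i', b, h⟩

/-- a permutation which sends two given indices to two given other ones -/
private theorem rigid_of_cross_perm {m : ℕ} (x y i j : Fin m) (hxy : x ≠ y) (hij : i ≠ j) :
    ∃ τ : Equiv.Perm (Fin m), τ x = i ∧ τ y = j := by
  have h1 : (Equiv.swap x i) j ≠ x := by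
    intro h
    have h2 : (Equiv.swap x i) ((Equiv.swap x i) j) = (Equiv.swap x i) x := by rw [h]
    rw [Equiv.swap_apply_self, Equiv.swap_apply_left] at h2
    exact hij h2.symm
  refine ⟨(Equiv.swap y ((Equiv.swap x i) j)).trans (Equiv.swap x i), ?_, ?_⟩
  · rw [Equiv.trans_apply, Equiv.swap_apply_of_ne_of_ne hxy h1.symm, Equiv.swap_apply_left]
  · rw [Equiv.trans_apply, Equiv.swap_apply_left, Equiv.swap_apply_self]

/-- **(B2)** If `e 0 a` is adjacent to a vertex of another piece, the copies of `a` move rigidly.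
Proof: `e 0 a ~ e (succ j) b` gives `e (succ i) a ~ e (succ i') b` for all `i ≠ i'` (`crs`). Given
two copies `i, j` of `a`, take `d + 1` copies of `a` which contain them, and `d (d + 1) + 1` copies
of `b` with other indices: `linked_bipartite_on`. -/
theorem rigid_of_cross {V : Type} {d : ℕ} {G : SimpleGraph V} {W S : Finset V} {m k : ℕ}
    {e : Fin (m + 1) → Fin k → V} {p q : V → E d} (hs : Setup d G W S m k e p q)
    (hd : 0 < d) (hm : (d + 1) + (d * (d + 1) + 1) ≤ m) (a b : Fin k) (j : Fin m)
    (hab : G.Adj (e 0 a) (e j.succ b)) : RigidLabel e p q a := by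
  have hcr : ∀ i i' : Fin m, i ≠ i' → G.Adj (e i.succ a) (e i'.succ b) := fun i i' h =>
    (hs.pcs.crs 0 j.succ i.succ i'.succ a b (Fin.succ_ne_zero j).symm
      (fun h1 => h (Fin.succ_injective _ h1))).1 hab
  have hcS : ∀ (i : Fin m) (c : Fin k), e i.succ c ∈ S := by
    intro i c
    rw [hs.memS _ (hs.pcs.mem _ _)]
    intro a' h
    exact absurd (hs.pcs.inj _ _ _ _ h).1 (Fin.succ_ne_zero i).symm
  intro i i'
  by_cases hii : i = i'
  · rw [hii, dist_self, dist_self]
  have h0 : (0 : ℕ) < d + 1 := Nat.succ_pos d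
  have h1 : (1 : ℕ) < d + 1 := by omega
  have hm1 : d + 1 ≤ m := by omega
  obtain ⟨τ, hτ0, hτ1⟩ := rigid_of_cross_perm (m := m)
    (Fin.castLE hm1 ⟨0, h0⟩) (Fin.castLE hm1 ⟨1, h1⟩) i i'
    (fun h => by simp [Fin.ext_iff] at h) hii
  have hkey := linked_bipartite_on G S p q hs.gen hs.eqv
    (fun l : Fin (d + 1) => e (τ (Fin.castLE hm1 l)).succ a)
    (fun l l' h => Fin.castLE_injective hm1
      (τ.injective (Fin.succ_injective _ (hs.pcs.inj _ _ _ _ h).1)))
    (fun l => hcS _ a)
    (fun l : Fin (d * (d + 1) + 1) => e (τ (Fin.castLE hm (Fin.natAdd (d + 1) l))).succ b)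
    (fun l l' h => by
      have h2 := Fin.castLE_injective hm
        (τ.injective (Fin.succ_injective _ (hs.pcs.inj _ _ _ _ h).1))
      have h3 := congrArg Fin.val h2
      simp only [Fin.val_natAdd] at h3
      exact Fin.ext (by omega))
    (fun l => hcS _ b)
    (fun l l' => hcr _ _ (fun h => by
      have h2 := congrArg Fin.val (τ.injective h)
      simp only [Fin.val_castLE, Fin.val_natAdd] at h2
      have h3 := l.isLt
      omega))
    ⟨0, h0⟩ ⟨1, h1⟩
  simp only [hτ0, hτ1] at hkey
  exact hkey

/-- **(B3)** If `e 0 a` has more than `d` neighbours in `S` outside of all pieces, the copies of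
`a` move rigidly.
Proof: these neighbours `s 0, …, s d` are adjacent to all copies of `a` (`out`), so their mutual
distances are preserved (`linked_bipartite_on`), and then `frame` for them gives `q = R p + c` on
all copies of `a`. -/
theorem rigid_of_many {V : Type} {d : ℕ} {G : SimpleGraph V} {W S : Finset V} {m k : ℕ}
    {e : Fin (m + 1) → Fin k → V} {p q : V → E d} (hs : Setup d G W S m k e p q)
    (hm : d * (d + 1) + 1 ≤ m) (a : Fin k) (s : Fin (d + 1) → V) (hsi : Function.Injective s)
    (hsS : ∀ i, s i ∈ S) (hse : ∀ i j b, e j b ≠ s i) (hsa : ∀ i, G.Adj (e 0 a) (s i)) :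
    RigidLabel e p q a := by
  have hadj : ∀ j i, G.Adj (e j a) (s i) := fun j i =>
    (hs.pcs.out j 0 a (s i) (hs.sub (hsS i)) (fun i' b => hse i i' b)).2 (hsa i)
  have hcS : ∀ i : Fin m, e i.succ a ∈ S := by
    intro i
    rw [hs.memS _ (hs.pcs.mem _ _)]
    intro a' h
    exact absurd (hs.pcs.inj _ _ _ _ h).1 (Fin.succ_ne_zero i).symm
  have hss : ∀ i j, dist (p (s i)) (p (s j)) = dist (q (s i)) (q (s j)) := by
    intro i j
    refine linked_bipartite_on G S p q hs.gen hs.eqv s hsi hsS
      (fun l : Fin (d * (d + 1) + 1) => e (Fin.castLE hm l).succ a) ?_ (fun l => hcS _)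
      (fun i l => (hadj _ i).symm) i j
    intro l l' h
    have h1 := (hs.pcs.inj _ _ _ _ h).1
    exact Fin.castLE_injective hm (Fin.succ_injective _ h1)
  obtain ⟨R, c, -, h⟩ := frame (fun i => p (s i)) (fun i => q (s i))
    (hs.gen.affineIndependent s hsi hsS) hss
  have hq : ∀ i : Fin m, q (e i.succ a) = R (p (e i.succ a)) + c := fun i =>
    h _ _ (fun j => hs.eqv _ (hcS i) _ (hsS j) (hadj _ j))
  intro i j
  rw [hq i, hq j, dist_add_right, R.dist_map]

/-- **(B4)** The frame of a label: `d + 1` vectors `z a` which determine the positions in `q` of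
everything that `e 0 a` sees in `S`: either the label is rigid and `z a` are the columns and the
translation of the isometry, or `e 0 a` has at most `d` neighbours in `S`, none of them in a piece,
and `z a` are their positions in `q`.
Proof: (B1), (B2), (B3). -/
theorem exists_frame {V : Type} {d : ℕ} {G : SimpleGraph V} {W S : Finset V} {m k : ℕ}
    {e : Fin (m + 1) → Fin k → V} {p q : V → E d} (hs : Setup d G W S m k e p q)
    (hd : 0 < d) (hm : (d + 1) + (d * (d + 1) + 1) ≤ m) (a : Fin k) :
    ∃ z : Fin (d + 1) → E d,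
      (∃ (R : E d ≃ₗᵢ[ℝ] E d) (c : E d), (∀ l : Fin d, z l.castSucc = R (EuclideanSpace.single l 1)) ∧
        z (Fin.last d) = c ∧ (∀ i : Fin m, q (e i.succ a) = R (p (e i.succ a)) + c) ∧
        ∀ v ∈ S, G.Adj (e 0 a) v → q v = R (p v) + c) ∨
      (∀ v ∈ S, G.Adj (e 0 a) v → (∀ i b, e i b ≠ v) ∧ ∃ l, z l = q v) := by
  classical
  by_cases ha : RigidLabel e p q a
  · obtain ⟨R, c, h1, h2⟩ := rigid_body hs (by omega) a ha
    refine ⟨fun i => if h : i.val < d then R (EuclideanSpace.single ⟨i.val, h⟩ 1) else c,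
      Or.inl ⟨R, c, fun l => ?_, ?_, h1, h2⟩⟩
    · have : (l.castSucc : Fin (d + 1)).val < d := l.isLt
      simp [this]
    · simp
  · have hout : ∀ v ∈ S, G.Adj (e 0 a) v → ∀ i b, e i b ≠ v := by
      intro v hv hadj i b hib
      rcases Fin.eq_zero_or_eq_succ i with h0 | ⟨j, hj⟩
      · subst h0
        exact (hs.memS v (hs.sub hv)).1 hv b hib
      · subst hj
        rw [← hib] at hadj
        exact ha (rigid_of_cross hs hd hm a b j hadj)
    have hcard : (S.filter fun v => G.Adj (e 0 a) v).card ≤ d := by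
      by_contra hlt
      push Not at hlt
      have hle : d + 1 ≤ (S.filter fun v => G.Adj (e 0 a) v).card := hlt
      have hmem : ∀ i : Fin (d + 1),
          (((S.filter fun v => G.Adj (e 0 a) v).equivFin.symm (Fin.castLE hle i) :
            (S.filter fun v => G.Adj (e 0 a) v)) : V) ∈ S.filter fun v => G.Adj (e 0 a) v :=
        fun i => Subtype.property _
      refine ha (rigid_of_many hs (by omega) a
        (fun i => (((S.filter fun v => G.Adj (e 0 a) v).equivFin.symm (Fin.castLE hle i) :
            (S.filter fun v => G.Adj (e 0 a) v)) : V)) ?_ ?_ ?_ ?_)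
      · intro i j hij
        have h1 := (S.filter fun v => G.Adj (e 0 a) v).equivFin.symm.injective (Subtype.ext hij)
        exact Fin.castLE_injective hle h1
      · intro i
        exact (Finset.mem_filter.1 (hmem i)).1
      · intro i j b
        exact hout _ (Finset.mem_filter.1 (hmem i)).1 (Finset.mem_filter.1 (hmem i)).2 j b
      · intro i
        exact (Finset.mem_filter.1 (hmem i)).2
    refine ⟨fun i => if h : i.val < (S.filter fun v => G.Adj (e 0 a) v).card then
      q (((S.filter fun v => G.Adj (e 0 a) v).equivFin.symm ⟨i.val, h⟩ :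
            (S.filter fun v => G.Adj (e 0 a) v)) : V) else 0, Or.inr fun v hv hadj => ?_⟩
    refine ⟨hout v hv hadj, ?_⟩
    have hvT : v ∈ S.filter fun v => G.Adj (e 0 a) v := Finset.mem_filter.2 ⟨hv, hadj⟩
    have hlt := ((S.filter fun v => G.Adj (e 0 a) v).equivFin ⟨v, hvT⟩).isLt
    refine ⟨⟨((S.filter fun v => G.Adj (e 0 a) v).equivFin ⟨v, hvT⟩).val, by omega⟩, ?_⟩
    simp only
    rw [dif_pos hlt]
    simp

end Pool.Sdp
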