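import Pool.Agent.Rgd.Defs

/-!
# Transfer of distance equations along a change of a generic point
-/

set_option autoImplicit false

namespace Pool.Sdp

open Pool.Rgd MvPolynomial

/-- the coordinates of a configuration -/
def coords {κ : Type} {d : ℕ} (y : κ → E d) (t : κ × Fin d) : ℝ := (y t.1) t.2

/-- Every polynomial relation over `F` between the coordinates of `y` and `x` holds for `y'` and
`x'`. -/
def Transfers {κ : Type} {d : ℕ} (F : IntermediateField ℚ ℝ) (y x y' x' : κ → E d) : Prop :=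
  ∀ P : MvPolynomial ((κ × Fin d) ⊕ (κ × Fin d)) F,
    aeval (Sum.elim (coords y) (coords x)) P = 0 → aeval (Sum.elim (coords y') (coords x')) P = 0

private theorem dist_pair_iff {d : ℕ} (p u r v : E d) :
    dist p u = dist r v ↔ ∑ l, (p l - u l) ^ 2 = ∑ l, (r l - v l) ^ 2 := by
  rw [EuclideanSpace.dist_eq, EuclideanSpace.dist_eq]
  simp only [Real.dist_eq, sq_abs]
  exact Real.sqrt_inj (Finset.sum_nonneg fun _ _ => sq_nonneg _)
    (Finset.sum_nonneg fun _ _ => sq_nonneg _)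

/-- Proof: `P = ∑ l, (Y(a,l) - Y(b,l))² - ∑ l, (X(a,l) - X(b,l))²`
(`EuclideanSpace.dist_eq`, squares of distances). -/
theorem Transfers.dist_pair {κ : Type} {d : ℕ} {F : IntermediateField ℚ ℝ} {y x y' x' : κ → E d}
    (h : Transfers F y x y' x') (a b : κ) (hab : dist (y a) (y b) = dist (x a) (x b)) :
    dist (y' a) (y' b) = dist (x' a) (x' b) := by
  have key : ∀ y x : κ → E d, aeval (Sum.elim (coords y) (coords x))
      (∑ l : Fin d, (X (Sum.inl (a, l)) - X (Sum.inl (b, l))) ^ 2 -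
        ∑ l : Fin d, (X (Sum.inr (a, l)) - X (Sum.inr (b, l))) ^ 2 :
          MvPolynomial ((κ × Fin d) ⊕ (κ × Fin d)) F) =
      ∑ l, ((y a) l - (y b) l) ^ 2 - ∑ l, ((x a) l - (x b) l) ^ 2 := by
    intro y x
    rw [map_sub, map_sum, map_sum]
    simp only [map_pow, map_sub, aeval_X, Sum.elim_inl, Sum.elim_inr, coords]
  rw [dist_pair_iff] at hab ⊢
  have h1 := h _ ((key y x).trans (sub_eq_zero.2 hab))
  exact sub_eq_zero.1 ((key y' x').symm.trans h1)

private theorem dist_const_iff {d : ℕ} (p u r v : E d) :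
    dist p u = dist r v ↔ ∑ l, (p l - u l) ^ 2 = ∑ l, (r l - v l) ^ 2 := by
  rw [EuclideanSpace.dist_eq, EuclideanSpace.dist_eq]
  simp only [Real.dist_eq, sq_abs]
  exact Real.sqrt_inj (Finset.sum_nonneg fun _ _ => sq_nonneg _) (Finset.sum_nonneg fun _ _ => sq_nonneg _)

/-- Proof: `P = ∑ l, (Y(a,l) - C (u l))² - ∑ l, (X(a,l) - C (v l))²`. -/
theorem Transfers.dist_const {κ : Type} {d : ℕ} {F : IntermediateField ℚ ℝ}
    {y x y' x' : κ → E d} (h : Transfers F y x y' x') (a : κ) (u v : E d)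
    (hu : ∀ l, u l ∈ F) (hv : ∀ l, v l ∈ F) (hab : dist (y a) u = dist (x a) v) :
    dist (y' a) u = dist (x' a) v := by
  have key : ∀ y x : κ → E d, aeval (Sum.elim (coords y) (coords x))
      (∑ l : Fin d, (X (Sum.inl (a, l)) - C (⟨u l, hu l⟩ : F)) ^ 2 -
        ∑ l : Fin d, (X (Sum.inr (a, l)) - C (⟨v l, hv l⟩ : F)) ^ 2 :
          MvPolynomial ((κ × Fin d) ⊕ (κ × Fin d)) F) =
      ∑ l, ((y a) l - u l) ^ 2 - ∑ l, ((x a) l - v l) ^ 2 := by
    intro y x
    rw [map_sub, map_sum, map_sum]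
    simp only [map_pow, map_sub, aeval_X, aeval_C, Sum.elim_inl, Sum.elim_inr, coords]
    rfl
  rw [dist_const_iff] at hab ⊢
  have h1 := h _ ((key y x).trans (sub_eq_zero.2 hab))
  exact sub_eq_zero.1 ((key y' x').symm.trans h1)

private theorem isometry_exp {d : ℕ} (R : E d ≃ₗᵢ[ℝ] E d) (w : E d) (i : Fin d) :
    (R w) i = ∑ l, (R (EuclideanSpace.single l (1 : ℝ))) i * w l := by
  have h1 : w = ∑ l, w l • EuclideanSpace.single l (1 : ℝ) := by
    have h2 := (EuclideanSpace.basisFun (Fin d) ℝ).sum_repr w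
    simp only [EuclideanSpace.basisFun_repr, EuclideanSpace.basisFun_apply] at h2
    exact h2.symm
  have h3 : R w = ∑ l, w l • R (EuclideanSpace.single l (1 : ℝ)) := by
    conv_lhs => rw [h1]
    rw [map_sum]
    exact Finset.sum_congr rfl fun l _ => map_smul R _ _
  rw [h3]
  simp only [WithLp.ofLp_sum, WithLp.ofLp_smul, Finset.sum_apply, Pi.smul_apply, smul_eq_mul]
  exact Finset.sum_congr rfl fun l _ => mul_comm _ _

/-- Proof: for each coordinate `i` the polynomial
`P = X(a,i) - (∑ l, C ((R e_l) i) * Y(a,l) + C (c i))`. -/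
theorem Transfers.isometry {κ : Type} {d : ℕ} {F : IntermediateField ℚ ℝ}
    {y x y' x' : κ → E d} (h : Transfers F y x y' x') (a : κ) (R : E d ≃ₗᵢ[ℝ] E d) (c : E d)
    (hR : ∀ l i, (R (EuclideanSpace.single l (1 : ℝ))) i ∈ F) (hc : ∀ i, c i ∈ F)
    (ha : x a = R (y a) + c) : x' a = R (y' a) + c := by
  have key : ∀ (i : Fin d) (y x : κ → E d), aeval (Sum.elim (coords y) (coords x))
      (X (Sum.inr (a, i)) - (∑ l : Fin d, C (⟨_, hR l i⟩ : F) * X (Sum.inl (a, l)) +
        C (⟨c i, hc i⟩ : F)) : MvPolynomial ((κ × Fin d) ⊕ (κ × Fin d)) F) =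
      (x a) i - (∑ l, (R (EuclideanSpace.single l (1 : ℝ))) i * (y a) l + c i) := by
    intro i y x
    rw [map_sub, map_add, map_sum]
    simp only [map_mul, aeval_X, aeval_C, Sum.elim_inl, Sum.elim_inr, coords]
    rfl
  ext i
  have h0 : (x a) i = (R (y a)) i + c i := by rw [ha]; rfl
  have h1 := h _ ((key i y x).trans (sub_eq_zero.2 (h0.trans (by rw [isometry_exp R (y a) i]))))
  have h2 := sub_eq_zero.1 ((key i y' x').symm.trans h1)
  rw [h2]
  show _ = (R (y' a)) i + c i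
  rw [isometry_exp R (y' a) i]

end Pool.Sdp
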