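import Pool.Agent.Sdp.AlgB
import Pool.Agent.Sdp.Body
import Pool.Agent.Sdp.Trans

/-!
# Extension of an equivalent configuration over a removed piece
-/

set_option autoImplicit false

namespace Pool.Sdp

open Pool.Rgd MvPolynomial

/-- the field generated by the frames `z` and the coordinates of `p` outside of all pieces -/
noncomputable def baseField {V : Type} {d m k : ℕ} (S : Finset V) (e : Fin (m + 1) → Fin k → V) (p : V → E d)
    (z : Fin k → Fin (d + 1) → E d) : IntermediateField ℚ ℝ :=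
  IntermediateField.adjoin ℚ ({r | ∃ a l i, r = (z a l) i} ∪
    {r | ∃ w ∈ S, (∀ i b, e i b ≠ w) ∧ ∃ i, r = (p w) i})

/-- Some piece is independent of the frames and of everything outside of the pieces.
Proof: `exists_block` (blocks `J = Fin m`, `κ = Fin k × Fin d`, family: the coordinates of `p` on
`S`; `Z` = the `k (d + 1) d` coordinates of `z`), then `der_adjoin` and `ai_of_der`. -/
theorem exists_indep_block {V : Type} {d : ℕ} {G : SimpleGraph V} {W S : Finset V} {m k : ℕ}
    {e : Fin (m + 1) → Fin k → V} {p q : V → E d} (hs : Setup d G W S m k e p q)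
    (hm : k * ((d + 1) * d) < m) (z : Fin k → Fin (d + 1) → E d) :
    ∃ j : Fin m, AlgebraicIndependent (baseField S e p z) (coords fun a => p (e j.succ a)) := by
  have hmem : ∀ (i : Fin m) (a : Fin k), e i.succ a ∈ S := fun i a =>
    (hs.memS _ (hs.pcs.mem _ _)).2 fun b h => Fin.succ_ne_zero _ (hs.pcs.inj _ _ _ _ h).1.symm
  obtain ⟨j, hj⟩ := exists_block (J := Fin m) (κ := Fin k × Fin d) hs.gen
    (fun y : Fin m × (Fin k × Fin d) => (⟨e y.1.succ y.2.1, hmem y.1 y.2.1⟩, y.2.2))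
    (fun a b hab => by
      simp only [Prod.mk.injEq, Subtype.mk.injEq] at hab
      have h := hs.pcs.inj _ _ _ _ hab.1
      exact Prod.ext (Fin.succ_injective _ h.1) (Prod.ext h.2 hab.2))
    (fun t : Fin k × Fin (d + 1) × Fin d => (z t.1 t.2.1) t.2.2) (by simpa using hm)
  refine ⟨j, ai_of_der _ _ fun c => ?_⟩
  obtain ⟨D, h1, h2, h3⟩ := hj c
  refine ⟨D, der_adjoin D _ ?_, h2⟩
  rintro s (⟨a, l, i, rfl⟩ | ⟨w, hw, hw', i, rfl⟩)
  · exact h1 (a, l, i)
  · refine h3 (⟨w, hw⟩, i) ?_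
    rintro ⟨y, hy⟩
    simp only [Prod.mk.injEq, Subtype.mk.injEq] at hy
    exact hw' _ _ hy.1

/-- A configuration which is generic on `S`, with a piece whose coordinates are algebraically
independent over a field which contains the coordinates on `S`, is generic on `W`.
Proof: `AlgebraicIndependent.sumElim_of_tower` / `sumElim_iff` and the bijection of `W` with
`S ⊕ Fin k`. -/
theorem genOn_extend {V : Type} {d : ℕ} {G : SimpleGraph V} {W S : Finset V} {m k : ℕ}
    {e : Fin (m + 1) → Fin k → V} {p q : V → E d} (hs : Setup d G W S m k e p q) (p1 : V → E d)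
    (h1 : ∀ v ∈ S, p1 v = p v) (K : IntermediateField ℚ ℝ) (hK : ∀ v ∈ S, ∀ l, (p v) l ∈ K)
    (hz : AlgebraicIndependent K (coords fun a => p1 (e 0 a))) : GenOn W p1 := by
  classical
  have hX : AlgebraicIndependent ℚ (fun x : S × Fin d => (p x.1) x.2) := hs.gen
  have hsum := hX.sumElim_of_tower (S := K) (y := coords fun a => p1 (e 0 a)) (by
    rintro _ ⟨x, rfl⟩
    exact ⟨⟨(p x.1) x.2, hK x.1 x.1.2 x.2⟩, rfl⟩) hz
  have hS : ∀ w ∈ W, (¬ ∃ a, e 0 a = w) → w ∈ S :=
    fun w hw h => (hs.memS w hw).2 fun a ha => h ⟨a, ha⟩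
  let g : W × Fin d → (Fin k × Fin d) ⊕ (S × Fin d) := fun x =>
    if h : ∃ a, e 0 a = (x.1 : V) then Sum.inl (h.choose, x.2)
    else Sum.inr (⟨x.1, hS x.1 x.1.2 h⟩, x.2)
  have hgl : ∀ (x : W × Fin d) (h : ∃ a, e 0 a = (x.1 : V)), g x = Sum.inl (h.choose, x.2) :=
    fun x h => dif_pos h
  have hgr : ∀ (x : W × Fin d) (h : ¬ ∃ a, e 0 a = (x.1 : V)),
      g x = Sum.inr (⟨x.1, hS x.1 x.1.2 h⟩, x.2) := fun x h => dif_neg h
  have hg : Function.Injective g := by
    intro x y hxy
    by_cases hx : ∃ a, e 0 a = (x.1 : V)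
    · by_cases hy : ∃ a, e 0 a = (y.1 : V)
      · rw [hgl x hx, hgl y hy] at hxy
        have h3 := Sum.inl.inj hxy
        have h4 : hx.choose = hy.choose := (Prod.mk.inj h3).1
        have h5 : x.2 = y.2 := (Prod.mk.inj h3).2
        have h6 : (x.1 : V) = y.1 := by
          rw [← hx.choose_spec, ← hy.choose_spec, h4]
        exact Prod.ext (Subtype.ext h6) h5
      · rw [hgl x hx, hgr y hy] at hxy
        exact absurd hxy (by simp)
    · by_cases hy : ∃ a, e 0 a = (y.1 : V)
      · rw [hgr x hx, hgl y hy] at hxy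
        exact absurd hxy (by simp)
      · rw [hgr x hx, hgr y hy] at hxy
        have h3 := Sum.inr.inj hxy
        have h4 := (Prod.mk.inj h3).1
        have h5 : x.2 = y.2 := (Prod.mk.inj h3).2
        exact Prod.ext (Subtype.ext (Subtype.mk.inj h4)) h5
  have hcomp := hsum.comp g hg
  have hfun : (Sum.elim (coords fun a => p1 (e 0 a)) (fun x : S × Fin d => (p x.1) x.2)) ∘ g =
      fun x : W × Fin d => (p1 x.1) x.2 := by
    funext x
    by_cases hx : ∃ a, e 0 a = (x.1 : V)
    · show Sum.elim (coords fun a => p1 (e 0 a)) (fun x : S × Fin d => (p x.1) x.2) (g x) = _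
      rw [hgl x hx]
      show (p1 (e 0 hx.choose)) x.2 = _
      rw [hx.choose_spec]
    · show Sum.elim (coords fun a => p1 (e 0 a)) (fun x : S × Fin d => (p x.1) x.2) (g x) = _
      rw [hgr x hx]
      show (p (x.1 : V)) x.2 = _
      rw [h1 _ (hS x.1 x.1.2 hx)]
  rw [hfun] at hcomp
  exact hcomp

/-- The new positions of one piece: there are `y'`, `x'` such that all relations transfer and `y'`
is algebraically independent over the field generated by the coordinates of `p` and `q` on `W` and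
the base field.
Proof: `near_sol` with `F = baseField`, `K'` generated by `F`, and all coordinates of `p` and `q`
on the finite set `W` (countable: `countable_adjoin`), then `exists_near`. -/
theorem exists_new_piece {V : Type} {d : ℕ} {G : SimpleGraph V} {W S : Finset V} {m k : ℕ}
    {e : Fin (m + 1) → Fin k → V} {p q : V → E d} (hs : Setup d G W S m k e p q)
    (z : Fin k → Fin (d + 1) → E d) (j : Fin m)
    (hj : AlgebraicIndependent (baseField S e p z) (coords fun a => p (e j.succ a))) :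
    ∃ (K : IntermediateField ℚ ℝ) (y' x' : Fin k → E d), (∀ v ∈ S, ∀ l, (p v) l ∈ K) ∧
      AlgebraicIndependent K (coords y') ∧
      Transfers (baseField S e p z) (fun a => p (e j.succ a)) (fun a => q (e j.succ a)) y' x' := by
  let A1 : Set ℝ := {r | ∃ a l i, r = (z a l) i}
  let A2 : Set ℝ := {r | ∃ w ∈ S, (∀ i b, e i b ≠ w) ∧ ∃ i, r = (p w) i}
  let A3 : Set ℝ := {r | ∃ w ∈ W, ∃ i, r = (p w) i ∨ r = (q w) i}
  let K : IntermediateField ℚ ℝ := IntermediateField.adjoin ℚ ((A1 ∪ A2) ∪ A3)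
  have h1 : A1.Countable := by
    refine (Set.countable_range (fun t : Fin k × Fin (d + 1) × Fin d => (z t.1 t.2.1) t.2.2)).mono ?_
    rintro r ⟨a, l, i, rfl⟩
    exact ⟨(a, l, i), rfl⟩
  have h2 : A2.Countable := by
    refine (Set.countable_range (fun t : S × Fin d => (p t.1) t.2)).mono ?_
    rintro r ⟨w, hw, _, i, rfl⟩
    exact ⟨(⟨w, hw⟩, i), rfl⟩
  have h3 : A3.Countable := by
    have h3p := Set.countable_range (fun t : W × Fin d => (p t.1) t.2)
    have h3q := Set.countable_range (fun t : W × Fin d => (q t.1) t.2)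
    refine (h3p.union h3q).mono ?_
    rintro r ⟨w, hw, i, h | h⟩
    · exact Or.inl ⟨(⟨w, hw⟩, i), h.symm⟩
    · exact Or.inr ⟨(⟨w, hw⟩, i), h.symm⟩
  have hK : (K : Set ℝ).Countable := countable_adjoin _ ((h1.union h2).union h3)
  have hFK : baseField S e p z ≤ K := IntermediateField.adjoin.mono ℚ _ _ Set.subset_union_left
  have hA3 : ∀ r ∈ A3, r ∈ K := fun r hr => IntermediateField.subset_adjoin ℚ _ (Or.inr hr)
  have hxK : ∀ t : Fin k × Fin d, coords (fun a => q (e j.succ a)) t ∈ K := fun t =>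
    hA3 _ ⟨e j.succ t.1, hs.pcs.mem _ _, t.2, Or.inr rfl⟩
  obtain ⟨ε, hε, hnear⟩ := near_sol (baseField S e p z) (coords fun a => p (e j.succ a)) hj
    (coords fun a => q (e j.succ a)) K hFK hxK
  obtain ⟨y, hy, hyK⟩ := exists_near K hK (coords fun a => p (e j.succ a)) ε hε
  obtain ⟨x, hx⟩ := hnear y hy hyK
  have hc : ∀ u : Fin k × Fin d → ℝ,
      coords (fun a => (WithLp.toLp 2 (fun i => u (a, i)) : E d)) = u := fun u => rfl
  refine ⟨K, fun a => WithLp.toLp 2 (fun i => y (a, i)), fun a => WithLp.toLp 2 (fun i => x (a, i)),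
    fun v hv l => hA3 _ ⟨v, hs.sub hv, l, Or.inl rfl⟩, ?_, ?_⟩
  · rw [hc]
    exact hyK
  · intro P hP
    rw [hc, hc]
    exact hx P hP

/-- The equations between the new piece and `S`, and inside the new piece.
Proof. Edge inside the piece: `Transfers.dist_pair` (edge of the piece `j` by `ins`). Edge
`e 0 a ~ v`, `v ∈ S`: in the rigid case `x' a = R (y' a) + c` (`Transfers.isometry`) and
`q v = R (p v) + c`. In the other case `v` is in no piece, `e j a ~ v` (`out`), `q v = z a l`, and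
`Transfers.dist_const`. -/
theorem eqvOn_extend {V : Type} {d : ℕ} {G : SimpleGraph V} {W S : Finset V} {m k : ℕ}
    {e : Fin (m + 1) → Fin k → V} {p q : V → E d} (hs : Setup d G W S m k e p q)
    (z : Fin k → Fin (d + 1) → E d) (j : Fin m)
    (hz : ∀ a, (∃ (R : E d ≃ₗᵢ[ℝ] E d) (c : E d),
        (∀ l : Fin d, z a l.castSucc = R (EuclideanSpace.single l 1)) ∧
        z a (Fin.last d) = c ∧ (∀ i : Fin m, q (e i.succ a) = R (p (e i.succ a)) + c) ∧
        ∀ v ∈ S, G.Adj (e 0 a) v → q v = R (p v) + c) ∨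
      (∀ v ∈ S, G.Adj (e 0 a) v → (∀ i b, e i b ≠ v) ∧ ∃ l, z a l = q v))
    (y' x' : Fin k → E d)
    (ht : Transfers (baseField S e p z) (fun a => p (e j.succ a)) (fun a => q (e j.succ a)) y' x')
    (p1 q1 : V → E d) (hp1 : ∀ v ∈ S, p1 v = p v) (hq1 : ∀ v ∈ S, q1 v = q v)
    (hp0 : ∀ a, p1 (e 0 a) = y' a) (hq0 : ∀ a, q1 (e 0 a) = x' a) : EqvOn G W p1 q1 := by
  have hmemS : ∀ a, e j.succ a ∈ S := by
    intro a
    refine (hs.memS _ (hs.pcs.mem _ _)).2 fun b hb => ?_
    exact absurd (hs.pcs.inj _ _ _ _ hb).1 (Fin.succ_ne_zero j).symm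
  have hzF : ∀ a l i, (z a l) i ∈ baseField S e p z := fun a l i =>
    IntermediateField.subset_adjoin ℚ _ (Or.inl ⟨a, l, i, rfl⟩)
  -- the mixed case
  have hmix : ∀ a, ∀ v ∈ S, G.Adj (e 0 a) v → dist (y' a) (p v) = dist (x' a) (q v) := by
    intro a v hv hav
    rcases hz a with ⟨R, c, hR, hc, hq, hn⟩ | h
    · have h1 : x' a = R (y' a) + c := by
        refine Transfers.isometry ht a R c (fun l i => ?_) (fun i => ?_) (hq j)
        · rw [← hR]
          exact hzF _ _ _
        · rw [← hc]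
          exact hzF _ _ _
      rw [h1, hn v hv hav, dist_add_right, R.dist_map]
    · obtain ⟨hne, l, hl⟩ := h v hv hav
      refine Transfers.dist_const ht a (p v) (q v) (fun i => ?_) (fun i => ?_) ?_
      · exact IntermediateField.subset_adjoin ℚ _ (Or.inr ⟨v, hv, hne, i, rfl⟩)
      · rw [← hl]
        exact hzF _ _ _
      · exact hs.eqv _ (hmemS a) v hv ((hs.pcs.out 0 j.succ a v (hs.sub hv) hne).1 hav)
  have hcase : ∀ w ∈ W, w ∈ S ∨ ∃ a, e 0 a = w := by
    intro w hw
    by_cases h : w ∈ S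
    · exact Or.inl h
    · right
      by_contra hcon
      push Not at hcon
      exact h ((hs.memS w hw).2 hcon)
  intro u hu v hv huv
  rcases hcase u hu with hu' | ⟨a, rfl⟩
  · rcases hcase v hv with hv' | ⟨b, rfl⟩
    · rw [hp1 u hu', hp1 v hv', hq1 u hu', hq1 v hv']
      exact hs.eqv u hu' v hv' huv
    · rw [hp1 u hu', hq1 u hu', hp0, hq0, dist_comm, dist_comm (q u)]
      exact hmix b u hu' huv.symm
  · rcases hcase v hv with hv' | ⟨b, rfl⟩
    · rw [hp1 v hv', hq1 v hv', hp0, hq0]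
      exact hmix a v hv' huv
    · rw [hp0, hp0, hq0, hq0]
      refine Transfers.dist_pair ht a b ?_
      exact hs.eqv _ (hmemS a) _ (hmemS b) ((hs.pcs.ins 0 j.succ a b).1 huv)

/-- **Extension lemma.** -/
theorem exists_extension {V : Type} {d : ℕ} {G : SimpleGraph V} {W S : Finset V} {m k : ℕ}
    {e : Fin (m + 1) → Fin k → V} {p q : V → E d} (hs : Setup d G W S m k e p q) (hd : 0 < d)
    (hm1 : (d + 1) + (d * (d + 1) + 1) ≤ m) (hm2 : k * ((d + 1) * d) < m) :
    ∃ p1 q1 : V → E d, GenOn W p1 ∧ EqvOn G W p1 q1 ∧ ∀ v ∈ S, p1 v = p v ∧ q1 v = q v := by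
  classical
  choose z hz using fun a => exists_frame hs hd hm1 a
  obtain ⟨j, hj⟩ := exists_indep_block hs hm2 z
  obtain ⟨K, y', x', hK, hy', ht⟩ := exists_new_piece hs z j hj
  have hinj : ∀ a b, e 0 a = e 0 b → a = b := fun a b h => (hs.pcs.inj 0 0 a b h).2
  let p1 : V → E d := fun v => if h : ∃ a, e 0 a = v then y' h.choose else p v
  let q1 : V → E d := fun v => if h : ∃ a, e 0 a = v then x' h.choose else q v
  have hS : ∀ v ∈ S, ¬ ∃ a, e 0 a = v := by
    rintro v hv ⟨a, ha⟩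
    exact (hs.memS v (hs.sub hv)).1 hv a ha
  have hp1 : ∀ v ∈ S, p1 v = p v := fun v hv => dif_neg (hS v hv)
  have hq1 : ∀ v ∈ S, q1 v = q v := fun v hv => dif_neg (hS v hv)
  have hp0 : ∀ a, p1 (e 0 a) = y' a := by
    intro a
    have h : ∃ b, e 0 b = e 0 a := ⟨a, rfl⟩
    show (if h : ∃ b, e 0 b = e 0 a then y' h.choose else p (e 0 a)) = _
    rw [dif_pos h, hinj _ _ h.choose_spec]
  have hq0 : ∀ a, q1 (e 0 a) = x' a := by
    intro a
    have h : ∃ b, e 0 b = e 0 a := ⟨a, rfl⟩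
    show (if h : ∃ b, e 0 b = e 0 a then x' h.choose else q (e 0 a)) = _
    rw [dif_pos h, hinj _ _ h.choose_spec]
  refine ⟨p1, q1, genOn_extend hs p1 hp1 K hK ?_, eqvOn_extend hs z j hz y' x' ht p1 q1 hp1 hq1
    hp0 hq0, fun v hv => ⟨hp1 v hv, hq1 v hv⟩⟩
  simpa only [hp0] using hy'

end Pool.Sdp
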