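import Pool.Agent.Sdp.Defs

/-!
# Large tree models contain many interchangeable pieces
-/

set_option autoImplicit false

namespace Pool.Sdp

/-- tree models are hereditary -/
theorem TreeModel.mono {V L : Type} {G : SimpleGraph V} {lab : V → L} (h : ℕ) {W W' : Finset V}
    (hW : TreeModel G lab h W) (hs : W' ⊆ W) : TreeModel G lab h W' := by
  induction h generalizing W W' with
  | zero => exact le_trans (Finset.card_le_card hs) hW
  | succ h ih =>
    obtain ⟨c, M, h1, h2⟩ := hW
    exact ⟨c, M, fun i => ih (h1 i) (Finset.filter_subset_filter _ hs),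
      fun x hx y hy hxy => h2 x (hs hx) y (hs hy) hxy⟩

private theorem exists_iso_classes_enum {V : Type} (v0 : V) (C : Finset V) (c0 : ℕ)
    (hc : C.card ≤ c0) :
    ∃ f : Fin c0 → V, (∀ a : Fin c0, (a : ℕ) < C.card → f a ∈ C) ∧
      (∀ v ∈ C, ∃ a : Fin c0, (a : ℕ) < C.card ∧ f a = v) ∧
      (∀ a b : Fin c0, (a : ℕ) < C.card → (b : ℕ) < C.card → f a = f b → a = b) := by
  classical
  refine ⟨fun a => if h : (a : ℕ) < C.card then (C.equivFin.symm ⟨a, h⟩ : V) else v0,
    ?_, ?_, ?_⟩
  · intro a ha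
    simp only [ha, dif_pos]
    exact (C.equivFin.symm ⟨a, ha⟩).2
  · intro v hv
    have h1 : ((C.equivFin ⟨v, hv⟩ : Fin C.card) : ℕ) < C.card := (C.equivFin ⟨v, hv⟩).2
    refine ⟨⟨(C.equivFin ⟨v, hv⟩ : Fin C.card), lt_of_lt_of_le h1 hc⟩, h1, ?_⟩
    simp
  · intro a b ha hb hab
    simp only [ha, hb, dif_pos] at hab
    have h2 := C.equivFin.symm.injective (Subtype.ext hab)
    have h3 : (a : ℕ) = b := by
      have := congrArg Fin.val h2
      exact this
    exact Fin.ext h3

/-- Pigeonhole. `W` is divided into classes `c = i` with at most `c0` vertices, adjacency between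
different classes depends only on the labels, and `W` has more than
`c0 * (m * ((c0 + 1) * |L| ^ c0 * 2 ^ (c0 * c0)) )` vertices: then `m` classes (all with `k > 0`
vertices) are isomorphic, by bijections `e i : Fin k → class` which respect labels and adjacency.
Proof: list the vertices of each nonempty class by `Fin c0 → V` (the first `s` values are the `s`
vertices of the class, without repetition, the other values are equal to the first one); the type
of a class is `s : Fin (c0 + 1)`, the labels `Fin c0 → L` and the adjacency matrix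
`Fin c0 → Fin c0 → Bool`; more than `m * T` nonempty classes, `T` the number of types
(`Finset.exists_lt_card_fiber_of_mul_lt_card_of_maps_to`). -/
theorem exists_iso_classes {V L : Type} [Fintype L] (G : SimpleGraph V) (lab : V → L)
    (W : Finset V) (c : V → ℕ) (c0 m : ℕ) (hc : ∀ i, (W.filter fun v => c v = i).card ≤ c0)
    (hW : c0 * (m * ((c0 + 1) * Fintype.card L ^ c0 * 2 ^ (c0 * c0))) < W.card) :
    ∃ (k : ℕ) (e : Fin m → Fin k → V) (i0 : Fin m → ℕ), 0 < k ∧ k ≤ c0 ∧ Function.Injective i0 ∧
      (∀ i a, e i a ∈ W ∧ c (e i a) = i0 i) ∧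
      (∀ i, ∀ w ∈ W, c w = i0 i → ∃ a, e i a = w) ∧
      (∀ i, Function.Injective (e i)) ∧
      (∀ i j a, lab (e i a) = lab (e j a)) ∧
      (∀ i j a b, G.Adj (e i a) (e i b) ↔ G.Adj (e j a) (e j b)) := by
  classical
  have hW0 : 0 < W.card := lt_of_le_of_lt (Nat.zero_le _) hW
  obtain ⟨v0, hv0⟩ := Finset.card_pos.1 hW0
  have hcard : W.card ≤ c0 * (W.image c).card :=
    Finset.card_le_mul_card_image W c0 (fun i _ => hc i)
  have hIc : m * ((c0 + 1) * Fintype.card L ^ c0 * 2 ^ (c0 * c0)) < (W.image c).card := by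
    by_contra hcon
    push Not at hcon
    exact absurd (hcard.trans (Nat.mul_le_mul_left c0 hcon)) (not_le.2 hW)
  have hpos : ∀ i ∈ W.image c, 0 < (W.filter fun v => c v = i).card := by
    intro i hi
    obtain ⟨v, hv, hvi⟩ := Finset.mem_image.1 hi
    exact Finset.card_pos.2 ⟨v, Finset.mem_filter.2 ⟨hv, hvi⟩⟩
  choose f hf1 hf2 hf3 using fun i =>
    exists_iso_classes_enum v0 (W.filter fun v => c v = i) c0 (hc i)
  let ty : ℕ → Fin (c0 + 1) × (Fin c0 → L) × (Fin c0 × Fin c0 → Bool) := fun i =>
    (⟨(W.filter fun v => c v = i).card, Nat.lt_succ_of_le (hc i)⟩, fun a => lab (f i a),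
      fun p => decide (G.Adj (f i p.1) (f i p.2)))
  have hT : (Finset.univ : Finset (Fin (c0 + 1) × (Fin c0 → L) × (Fin c0 × Fin c0 → Bool))).card
      = (c0 + 1) * Fintype.card L ^ c0 * 2 ^ (c0 * c0) := by
    simp [Fintype.card_prod, mul_assoc]
  obtain ⟨y, -, hy⟩ := Finset.exists_lt_card_fiber_of_mul_lt_card_of_maps_to
    (s := W.image c) (t := Finset.univ) (f := ty) (n := m) (fun i _ => Finset.mem_univ _)
    (by rw [hT, mul_comm]; exact hIc)
  set F := (W.image c).filter fun i => ty i = y with hF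
  have hFI : ∀ i ∈ F, i ∈ W.image c ∧ ty i = y := fun i hi => Finset.mem_filter.1 hi
  have hFc : ∀ i ∈ F, (W.filter fun v => c v = i).card = (y.1 : ℕ) := by
    intro i hi
    rw [← (hFI i hi).2]
  have hk0 : 0 < (y.1 : ℕ) := by
    obtain ⟨i, hi⟩ := Finset.card_pos.1 (lt_of_le_of_lt (Nat.zero_le m) hy)
    rw [← hFc i hi]
    exact hpos i (hFI i hi).1
  have hkc : (y.1 : ℕ) ≤ c0 := Nat.lt_succ_iff.1 y.1.2
  -- an injection `Fin m → F`
  let i0 : Fin m → ℕ := fun a => ((F.equivFin.symm ⟨(a : ℕ), lt_trans a.2 hy⟩ : F) : ℕ)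
  have hi0 : ∀ a, i0 a ∈ F := fun a => (F.equivFin.symm ⟨(a : ℕ), lt_trans a.2 hy⟩).2
  have hi0inj : Function.Injective i0 := by
    intro a b hab
    have h2 := F.equivFin.symm.injective (Subtype.ext hab)
    have h3 : (a : ℕ) = b := by
      have := congrArg Fin.val h2
      exact this
    exact Fin.ext h3
  have hlt : ∀ (i : Fin m) (a : Fin (y.1 : ℕ)),
      ((Fin.castLE hkc a : Fin c0) : ℕ) < (W.filter fun v => c v = i0 i).card := by
    intro i a
    rw [hFc _ (hi0 i)]
    exact a.2
  refine ⟨(y.1 : ℕ), fun i a => f (i0 i) (Fin.castLE hkc a), i0, hk0, hkc, hi0inj, ?_, ?_, ?_, ?_,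
    ?_⟩
  · intro i a
    exact Finset.mem_filter.1 (hf1 (i0 i) _ (hlt i a))
  · intro i w hw hcw
    obtain ⟨a, ha, haw⟩ := hf2 (i0 i) w (Finset.mem_filter.2 ⟨hw, hcw⟩)
    rw [hFc _ (hi0 i)] at ha
    refine ⟨⟨(a : ℕ), ha⟩, ?_⟩
    exact haw
  · intro i a b hab
    have := hf3 (i0 i) _ _ (hlt i a) (hlt i b) hab
    exact Fin.castLE_injective hkc this
  · intro i j a
    have h1 := (hFI _ (hi0 i)).2.trans (hFI _ (hi0 j)).2.symm
    have h2 := congrFun (congrArg (fun z => z.2.1) h1) (Fin.castLE hkc a)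
    exact h2
  · intro i j a b
    have h1 := (hFI _ (hi0 i)).2.trans (hFI _ (hi0 j)).2.symm
    have h2 := congrFun (congrArg (fun z => z.2.2) h1) (Fin.castLE hkc a, Fin.castLE hkc b)
    exact decide_eq_decide.1 h2

/-- **Structure.** For every `φ` there is `c` such that every tree model of height `h` with more
than `c` vertices contains, for some `k > 0`, `φ k` interchangeable pieces with `k` vertices.
Proof: induction on `h` (with the equality of labels in the induction). Height `0`: `c = 1`.
Height `h + 1`: `c0` the constant for `h`, `m = ∑ k ≤ c0, φ k`. If some class has more than `c0`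
vertices, take the pieces of this class: vertices outside of the class see only the labels.
Otherwise `exists_iso_classes` with this `m`, and `Fin (φ k) → Fin m`. -/
theorem exists_pieces {L : Type} [Fintype L] (φ : ℕ → ℕ) (h : ℕ) : ∃ c : ℕ,
    ∀ {V : Type} (G : SimpleGraph V) (lab : V → L) (W : Finset V), TreeModel G lab h W →
      c < W.card → ∃ (k : ℕ) (e : Fin (φ k) → Fin k → V), 0 < k ∧ Pieces G W (φ k) k e ∧
        ∀ i j a, lab (e i a) = lab (e j a) := by
  induction h with
  | zero =>
    refine ⟨1, ?_⟩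
    intro V G lab W hW hc
    have h1 : W.card ≤ 1 := hW
    exact absurd hc (by omega)
  | succ h ih =>
    obtain ⟨c0, hc0⟩ := ih
    refine ⟨c0 * ((∑ k ∈ Finset.range (c0 + 1), φ k) *
      ((c0 + 1) * Fintype.card L ^ c0 * 2 ^ (c0 * c0))), ?_⟩
    intro V G lab W hW hc
    obtain ⟨cl, M, hcl, hM⟩ := hW
    by_cases hbig : ∃ i, c0 < (W.filter fun v => cl v = i).card
    · obtain ⟨i0, hi0⟩ := hbig
      obtain ⟨k, e, hk, hP, hlab⟩ := hc0 G lab _ (hcl i0) hi0
      have hmem : ∀ i a, e i a ∈ W ∧ cl (e i a) = i0 := fun i a =>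
        Finset.mem_filter.1 (hP.mem i a)
      refine ⟨k, e, hk, ⟨fun i a => (hmem i a).1, hP.inj, hP.ins, hP.crs, ?_⟩, hlab⟩
      intro i j a w hw hout
      by_cases hwc : cl w = i0
      · exact hP.out i j a w (Finset.mem_filter.2 ⟨hw, hwc⟩) hout
      · have h1 := hM (e i a) (hmem i a).1 w hw
          (by rw [(hmem i a).2]; exact fun h => hwc h.symm)
        have h2 := hM (e j a) (hmem j a).1 w hw
          (by rw [(hmem j a).2]; exact fun h => hwc h.symm)
        rw [h1, h2, hlab i j a]
    · push Not at hbig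
      obtain ⟨k, e, i0, hk, hkc, hinj0, hmem, hcov, hinj, hlab, hadj⟩ :=
        exists_iso_classes G lab W cl c0 (∑ k ∈ Finset.range (c0 + 1), φ k) hbig hc
      have hle : φ k ≤ ∑ k ∈ Finset.range (c0 + 1), φ k :=
        Finset.single_le_sum (f := φ) (fun _ _ => Nat.zero_le _)
          (Finset.mem_range.2 (by omega))
      have hcross : ∀ i i' : Fin (∑ k ∈ Finset.range (c0 + 1), φ k), ∀ a b, i ≠ i' →
          (G.Adj (e i a) (e i' b) ↔ M (lab (e i a)) (lab (e i' b))) := by
        intro i i' a b hii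
        refine hM _ (hmem i a).1 _ (hmem i' b).1 ?_
        rw [(hmem i a).2, (hmem i' b).2]
        exact fun h => hii (hinj0 h)
      have hι : Function.Injective (Fin.castLE hle) := Fin.castLE_injective hle
      refine ⟨k, fun i => e (Fin.castLE hle i), hk, ⟨fun i a => (hmem _ a).1, ?_, ?_, ?_, ?_⟩, ?_⟩
      · intro i j a b hab
        have h1 : i0 (Fin.castLE hle i) = i0 (Fin.castLE hle j) := by
          rw [← (hmem (Fin.castLE hle i) a).2, ← (hmem (Fin.castLE hle j) b).2]
          exact congrArg cl hab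
        have h2 : i = j := hι (hinj0 h1)
        subst h2
        exact ⟨rfl, hinj _ hab⟩
      · intro i j a b
        exact hadj _ _ a b
      · intro i i' j j' a b hi hj
        have h1 := hcross (Fin.castLE hle i) (Fin.castLE hle i') a b (fun h => hi (hι h))
        have h2 := hcross (Fin.castLE hle j) (Fin.castLE hle j') a b (fun h => hj (hι h))
        show G.Adj (e (Fin.castLE hle i) a) (e (Fin.castLE hle i') b) ↔
          G.Adj (e (Fin.castLE hle j) a) (e (Fin.castLE hle j') b)
        rw [h1, h2, hlab (Fin.castLE hle i) (Fin.castLE hle j) a,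
          hlab (Fin.castLE hle i') (Fin.castLE hle j') b]
      · intro i j a w hw hout
        have hne : ∀ i : Fin (φ k), cl w ≠ i0 (Fin.castLE hle i) := by
          intro i hi
          obtain ⟨b, hb⟩ := hcov _ w hw hi
          exact hout i b hb
        have h1 := hM (e (Fin.castLE hle i) a) (hmem _ a).1 w hw
          (by rw [(hmem _ a).2]; exact (hne i).symm)
        have h2 := hM (e (Fin.castLE hle j) a) (hmem _ a).1 w hw
          (by rw [(hmem _ a).2]; exact (hne j).symm)
        show G.Adj (e (Fin.castLE hle i) a) w ↔ G.Adj (e (Fin.castLE hle j) a) w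
        rw [h1, h2, hlab (Fin.castLE hle i) (Fin.castLE hle j) a]
      · intro i j a
        exact hlab _ _ a

end Pool.Sdp
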