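import Pool.Agent.Rgd.ClosedRules
import Pool.Agent.Rgd.Clos
import Pool.Agent.Sdp.Ext
import Pool.Agent.Sdp.Str

/-!
# The local closure decides generic global rigidity of graphs with a tree model
-/

set_option autoImplicit false

namespace Pool.Sdp

open Pool.Rgd Finset

theorem gron_univ {V : Type} [Fintype V] {d : ℕ} {G : SimpleGraph V} (h : GGR d G) :
    GRon d G (univ : Finset V) := by
  intro p q hp hq u _ v _
  refine h p q ?_ (fun u v huv => hq u (mem_univ u) v (mem_univ v) huv) u v
  have h1 := AlgebraicIndependent.comp hp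
    (fun x : V × Fin d => ((⟨x.1, mem_univ x.1⟩ : (univ : Finset V)), x.2))
    (fun x y hxy => by
      have h2 := congrArg (fun z => ((z.1 : V), z.2)) hxy
      exact h2)
  exact h1

theorem ggr_induce {V : Type} {d : ℕ} {G : SimpleGraph V} (U : Finset V) (h : GRon d G U) :
    GGR d (G.induce (U : Set V)) := by
  classical
  intro p q hp hq u v
  set P : V → E d := fun w => if hw : w ∈ U then p ⟨w, hw⟩ else 0 with hP
  set Q : V → E d := fun w => if hw : w ∈ U then q ⟨w, hw⟩ else 0 with hQ
  have hPe : ∀ w : ↥(U : Set V), P w.1 = p w := fun w => dif_pos (show w.1 ∈ U from w.2)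
  have hQe : ∀ w : ↥(U : Set V), Q w.1 = q w := fun w => dif_pos (show w.1 ∈ U from w.2)
  have h1 : GenOn U P := by
    let f : ↥U × Fin d → ↥(U : Set V) × Fin d := fun x => (⟨x.1.1, x.1.2⟩, x.2)
    have hf : Function.Injective f := by
      rintro ⟨⟨a, ha⟩, i⟩ ⟨⟨b, hb⟩, j⟩ hab
      have h7 := congrArg (fun y : ↥(U : Set V) × Fin d => (y.1.1, y.2)) hab
      have h8 : a = b := congrArg Prod.fst h7
      have h9 : i = j := congrArg Prod.snd h7
      subst h8; subst h9; rfl
    have h2 := AlgebraicIndependent.comp hp f hf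
    have h3 : (fun x : ↥U × Fin d => (P x.1) x.2) =
        (fun x : ↥(U : Set V) × Fin d => (p x.1) x.2) ∘ f := by
      funext x
      show (P x.1.1) x.2 = (p ⟨x.1.1, x.1.2⟩) x.2
      rw [← hPe ⟨x.1.1, x.1.2⟩]
    show AlgebraicIndependent ℚ (fun x : ↥U × Fin d => (P x.1) x.2)
    rw [h3]
    exact h2
  have h4 : EqvOn G U P Q := by
    intro a ha b hb hab
    have h5 := hq ⟨a, ha⟩ ⟨b, hb⟩ hab
    rw [← hPe, ← hPe, ← hQe, ← hQe] at h5
    exact h5
  have h6 := h P Q h1 h4 u.1 u.2 v.1 v.2
  rw [hPe, hPe, hQe, hQe] at h6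
  exact h6

/-- more edges keep rigidity -/
theorem GRon.mono {V : Type} {d : ℕ} {G G' : SimpleGraph V} {U : Finset V} (h : GRon d G U)
    (hG : G ≤ G') : GRon d G' U := by
  intro p q hp hpq
  exact h p q hp fun u hu v hv huv => hpq u hu v hv (hG huv)

/-- auxiliary form of `gron_remove` for any number `m + 1` of pieces -/
theorem gron_remove_aux {V : Type} {d : ℕ} {G : SimpleGraph V} {W : Finset V} {m k : ℕ}
    (hd : 0 < d) (hm1 : (d + 1) + (d * (d + 1) + 1) ≤ m) (hm2 : k * ((d + 1) * d) < m)
    {e : Fin (m + 1) → Fin k → V} (he : Pieces G W (m + 1) k e) (i0 : Fin (m + 1))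
    (S : Finset V) (hS : S ⊆ W) (hmem : ∀ w ∈ W, (w ∈ S ↔ ∀ a, e i0 a ≠ w)) (h : GRon d G W) :
    GRon d G S := by
  intro p q hp hq u hu v hv
  have hs : Setup d G W S m k (fun i => e (Equiv.swap 0 i0 i)) p q := by
    refine ⟨⟨fun i a => he.mem _ a, ?_, fun i j a b => he.ins _ _ a b, ?_, ?_⟩, hS, ?_, hp, hq⟩
    · intro i j a b hij
      obtain ⟨h1, h2⟩ := he.inj _ _ a b hij
      exact ⟨(Equiv.swap 0 i0).injective h1, h2⟩
    · intro i i' j j' a b hi hj
      exact he.crs _ _ _ _ a b (fun h1 => hi ((Equiv.swap 0 i0).injective h1))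
        (fun h1 => hj ((Equiv.swap 0 i0).injective h1))
    · intro i j a w hw hne
      refine he.out _ _ a w hw (fun i' b => ?_)
      have h1 := hne (Equiv.swap 0 i0 i') b
      simp only [Equiv.swap_apply_self] at h1
      exact h1
    · intro w hw
      rw [hmem w hw]
      show (∀ a, e i0 a ≠ w) ↔ ∀ a, e (Equiv.swap 0 i0 0) a ≠ w
      rw [Equiv.swap_apply_left]
  obtain ⟨p1, q1, hp1, hq1, hpq⟩ := exists_extension hs hd hm1 hm2
  have h1 := h p1 q1 hp1 hq1 u (hS hu) v (hS hv)
  rw [(hpq u hu).1, (hpq u hu).2, (hpq v hv).1, (hpq v hv).2] at h1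
  exact h1

/-- **Removal of a piece.** Proof: exchange the indices `0` and `i0`, then `exists_extension`. -/
theorem gron_remove {V : Type} {d : ℕ} {G : SimpleGraph V} {W : Finset V} {k : ℕ} (hd : 0 < d)
    {e : Fin (phi d k) → Fin k → V} (he : Pieces G W (phi d k) k e) (i0 : Fin (phi d k))
    (S : Finset V) (hS : S ⊆ W) (hmem : ∀ w ∈ W, (w ∈ S ↔ ∀ a, e i0 a ≠ w)) (h : GRon d G W) :
    GRon d G S := by
  exact gron_remove_aux (m := k * ((d + 1) * d) + (d * (d + 1) + 1) + (d + 1) + 1) hd
    (by omega) (by omega) he i0 S hS hmem h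

/-- **Induction.** `Gc` is a graph with more edges which is closed under the local rules. Proof:
strong induction on `W.card`. If `W.card ≤ C`: rule `r4` (`ggr_induce`, `GRon.mono`). Otherwise
`hstr` gives `phi d k` pieces; let `W0`, `W1` be `W` without the piece `0`, `1`; both are generically
globally rigid (`gron_remove`), have tree models (`TreeModel.mono`) and are smaller (`0 < k`), so they are cliques of
`Gc`. Two different vertices which are not both in `W0` and not both in `W1` are one in the piece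
`0` and one in the piece `1`; they are adjacent by rule `r1` to `d + 1` vertices of the pieces
`2, …, d + 2` (`e i 0`), which are in `W0` and `W1`. -/
theorem clique_of_gron {V L : Type} {d C h : ℕ} (hd : 0 < d) (G Gc : SimpleGraph V) (hG : G ≤ Gc)
    (hR : Rules d C Gc) (lab : V → L)
    (hstr : ∀ W : Finset V, TreeModel G lab h W → C < W.card →
      ∃ (k : ℕ) (e : Fin (phi d k) → Fin k → V), 0 < k ∧ Pieces G W (phi d k) k e)
    (W : Finset V) (hT : TreeModel G lab h W) (hW : GRon d G W) : Cl Gc W := by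
  classical
  induction hn : W.card using Nat.strong_induction_on generalizing W with
  | _ n ih =>
    by_cases hc : W.card ≤ C
    · exact hR.r4 W hc (ggr_induce W (hW.mono hG))
    · obtain ⟨k, e, hk, he⟩ := hstr W hT (not_le.1 hc)
      -- without any one of the pieces
      have hclq : ∀ i0 : Fin (phi d k), Cl Gc (W.filter fun w => ∀ a, e i0 a ≠ w) := by
        intro i0
        have hs : (W.filter fun w => ∀ a, e i0 a ≠ w) ⊆ W := Finset.filter_subset _ _
        refine ih _ ?_ _ (hT.mono h hs) (gron_remove hd he i0 _ hs (fun w hw => ?_) hW) rfl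
        · rw [← hn]
          refine Finset.card_lt_card (Finset.ssubset_iff_subset_ne.2 ⟨hs, fun heq => ?_⟩)
          have h1 : e i0 ⟨0, hk⟩ ∈ W.filter fun w => ∀ a, e i0 a ≠ w := by
            rw [heq]; exact he.mem _ _
          exact (Finset.mem_filter.1 h1).2 ⟨0, hk⟩ rfl
        · rw [Finset.mem_filter]
          exact ⟨fun h => h.2, fun h => ⟨hw, h⟩⟩
      intro u hu v hv huv
      -- one of the first three pieces contains neither `u` nor `v`
      have h3 : 3 ≤ phi d k := by
        unfold phi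
        omega
      obtain ⟨i0, h0u, h0v⟩ : ∃ i0 : Fin (phi d k), (∀ a, e i0 a ≠ u) ∧ ∀ a, e i0 a ≠ v := by
        by_contra hcon
        push Not at hcon
        have hor : ∀ i : Fin (phi d k), (∃ a, e i a = u) ∨ ∃ a, e i a = v := by
          intro i
          by_cases hx : ∃ a, e i a = u
          · exact Or.inl hx
          · exact Or.inr (hcon i fun a ha => hx ⟨a, ha⟩)
        have huniq : ∀ (w : V) (i j : Fin (phi d k)), (∃ a, e i a = w) → (∃ a, e j a = w) →
            i = j := by
          rintro w i j ⟨a, ha⟩ ⟨b, hb⟩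
          exact (he.inj i j a b (ha.trans hb.symm)).1
        have n01 : (⟨0, by omega⟩ : Fin (phi d k)) ≠ ⟨1, by omega⟩ := by
          simp [Fin.ext_iff]
        have n02 : (⟨0, by omega⟩ : Fin (phi d k)) ≠ ⟨2, by omega⟩ := by
          simp [Fin.ext_iff]
        have n12 : (⟨1, by omega⟩ : Fin (phi d k)) ≠ ⟨2, by omega⟩ := by
          simp [Fin.ext_iff]
        rcases hor ⟨0, by omega⟩ with ha | ha <;> rcases hor ⟨1, by omega⟩ with hb | hb <;>
          rcases hor ⟨2, by omega⟩ with hc' | hc'
        · exact n01 (huniq _ _ _ ha hb)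
        · exact n01 (huniq _ _ _ ha hb)
        · exact n02 (huniq _ _ _ ha hc')
        · exact n12 (huniq _ _ _ hb hc')
        · exact n12 (huniq _ _ _ hb hc')
        · exact n02 (huniq _ _ _ ha hc')
        · exact n01 (huniq _ _ _ ha hb)
        · exact n01 (huniq _ _ _ ha hb)
      exact hclq i0 u (Finset.mem_filter.2 ⟨hu, h0u⟩) v (Finset.mem_filter.2 ⟨hv, h0v⟩) huv

theorem exists_constant_tree (d h : ℕ) (hd : 0 < d) (L : Type) [Fintype L] : ∃ C : ℕ,
    ∀ {V : Type} [Fintype V] (G : SimpleGraph V) (lab : V → L), TreeModel G lab h univ →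
      GGR d G → ∀ u v, u ≠ v → (clos d C G).Adj u v := by
  obtain ⟨c, hc⟩ := exists_pieces (L := L) (phi d) h
  refine ⟨max c (2 * (d * (d + 1) + 1) + d + 3), fun {V} _ G lab hT hr u v huv => ?_⟩
  have hR : Rules d (max c (2 * (d * (d + 1) + 1) + d + 3))
      (clos d (max c (2 * (d * (d + 1) + 1) + d + 3)) G) :=
    (closed_clos d _ G).rules (le_max_right _ _)
  refine clique_of_gron hd G _ (le_clos d _ G) hR lab (fun W hW hcard => ?_) univ hT (gron_univ hr)
    u (mem_univ _) v (mem_univ _) huv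
  obtain ⟨k, e, hk, he, _⟩ := hc G lab W hW (lt_of_le_of_lt (le_max_left _ _) hcard)
  exact ⟨k, e, hk, he⟩

end Pool.Sdp
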