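import Pool.Agent.Sdp.Main

/-!
# Large modules become cliques; graphs whose quotient by modules has a tree model

`exists_hyperplane`, `exists_reflection`, `not_ggr_of_sep`: a generically globally rigid graph has no
separator with at most `d` vertices. `clique_of_module`: so the local rules make a clique of every
module with at least `d (d + 1) + 1` vertices.
-/

set_option autoImplicit false

namespace Pool.Sdp

open Pool.Rgd Finset

/-- A hyperplane through `d` points of a generic configuration contains no other point of it. -/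
theorem exists_hyperplane {V : Type} {d : ℕ} (hd : 0 < d) {p : V → E d} (hp : Gen p)
    (s : Fin d → V) (hs : Function.Injective s) :
    ∃ k n : E d, (∀ i, inner ℝ n (p (s i) - k) = 0) ∧
      ∀ x, (∀ i, s i ≠ x) → inner ℝ n (p x - k) ≠ 0 := by
  obtain ⟨e, rfl⟩ : ∃ e, d = e + 1 := ⟨d - 1, by omega⟩
  set D : Submodule ℝ (E (e + 1)) :=
    Submodule.span ℝ (Set.range fun i : Fin e => p (s i.succ) - p (s 0)) with hD
  have hfin : Module.finrank ℝ D ≤ e := by
    have h1 := finrank_range_le_card (R := ℝ) (fun i : Fin e => p (s i.succ) - p (s 0))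
    rw [Fintype.card_fin] at h1
    exact h1
  have hne : D ≠ ⊤ := by
    intro h
    rw [h, finrank_top, finrank_euclideanSpace, Fintype.card_fin] at hfin
    omega
  have hbot : Dᗮ ≠ ⊥ := fun h => hne ((Submodule.orthogonal_eq_bot_iff).1 h)
  obtain ⟨n, hn, hn0⟩ := Submodule.exists_mem_ne_zero_of_ne_bot hbot
  have hin : ∀ i, inner ℝ n (p (s i) - p (s 0)) = 0 := by
    intro i
    refine Fin.cases ?_ (fun j => ?_) i
    · rw [sub_self, inner_zero_right]
    · have hj : p (s j.succ) - p (s 0) ∈ D := Submodule.subset_span ⟨j, rfl⟩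
      exact Submodule.inner_left_of_mem_orthogonal hj hn
  refine ⟨p (s 0), n, hin, ?_⟩
  intro x hx hzero
  have ht : Function.Injective (Fin.cons x s : Fin (e + 1 + 1) → V) := by
    rw [Fin.cons_injective_iff]
    refine ⟨?_, hs⟩
    rintro ⟨i, hi⟩
    exact hx i hi
  have haff := hp.affineIndependent (Fin.cons x s : Fin (e + 1 + 1) → V) ht
  have htop := (haff.affineSpan_eq_top_iff_card_eq_finrank_add_one).2 (by simp)
  have hvec := AffineSubspace.vectorSpan_eq_top_of_affineSpan_eq_top ℝ (E (e + 1)) (E (e + 1)) htop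
  rw [vectorSpan_range_eq_span_range_vsub_right ℝ _ (1 : Fin (e + 1 + 1))] at hvec
  have hmem : n ∈ (⊤ : Submodule ℝ (E (e + 1))) := Submodule.mem_top
  rw [← hvec] at hmem
  have hall : ∀ v ∈ Submodule.span ℝ (Set.range fun i : Fin (e + 1 + 1) =>
      p ((Fin.cons x s : Fin (e + 1 + 1) → V) i) -ᵥ
        p ((Fin.cons x s : Fin (e + 1 + 1) → V) 1)), inner ℝ n v = 0 := by
    intro v hv
    induction hv using Submodule.span_induction with
    | mem v hv =>
      obtain ⟨i, rfl⟩ := hv
      refine Fin.cases ?_ (fun j => ?_) i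
      · exact hzero
      · exact hin j
    | zero => exact inner_zero_right _
    | add a b _ _ ha hb => rw [inner_add_right, ha, hb, add_zero]
    | smul r a _ ha => rw [inner_smul_right, ha, mul_zero]
  exact hn0 (inner_self_eq_zero.1 (hall n hmem))

/-- reflection in a hyperplane -/
theorem exists_reflection {d : ℕ} (k n : E d) :
    ∃ ρ : E d → E d, (∀ x y, dist (ρ x) (ρ y) = dist x y) ∧
      (∀ x, inner ℝ n (x - k) = 0 → ρ x = x) ∧
      ∀ x y, dist (ρ x) y = dist x y → inner ℝ n (x - k) * inner ℝ n (y - k) = 0 := by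
  by_cases hn : n = 0
  · subst hn
    exact ⟨id, fun _ _ => rfl, fun _ _ => rfl, fun x y _ => by
      rw [inner_zero_left, zero_mul]⟩
  have hN : ‖n‖ ^ 2 ≠ 0 := pow_ne_zero 2 (norm_ne_zero_iff.2 hn)
  have hsq : ∀ (v : E d) (a : ℝ), ‖v - a • n‖ ^ 2 = ‖v‖ ^ 2 - 2 * (a * inner ℝ n v) +
      a ^ 2 * ‖n‖ ^ 2 := by
    intro v a
    rw [norm_sub_sq_real, inner_smul_right, norm_smul, mul_pow, Real.norm_eq_abs, sq_abs,
      real_inner_comm]
  refine ⟨fun x => x - (2 * inner ℝ n (x - k) / ‖n‖ ^ 2) • n, ?_, ?_, ?_⟩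
  · intro x y
    have h1 : x - (2 * inner ℝ n (x - k) / ‖n‖ ^ 2) • n -
        (y - (2 * inner ℝ n (y - k) / ‖n‖ ^ 2) • n) =
        (x - y) - (2 * inner ℝ n (x - y) / ‖n‖ ^ 2) • n := by
      have h2 : inner ℝ n (x - y) = inner ℝ n (x - k) - inner ℝ n (y - k) := by
        rw [← inner_sub_right]
        congr 1
        abel
      rw [h2, mul_sub, sub_div, sub_smul]
      abel
    have h3 : ‖(x - y) - (2 * inner ℝ n (x - y) / ‖n‖ ^ 2) • n‖ ^ 2 = ‖x - y‖ ^ 2 := by
      rw [hsq]
      field_simp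
      ring
    show dist (x - (2 * inner ℝ n (x - k) / ‖n‖ ^ 2) • n)
      (y - (2 * inner ℝ n (y - k) / ‖n‖ ^ 2) • n) = dist x y
    rw [dist_eq_norm, dist_eq_norm, h1]
    exact (sq_eq_sq₀ (norm_nonneg _) (norm_nonneg _)).1 h3
  · intro x hx
    show x - (2 * inner ℝ n (x - k) / ‖n‖ ^ 2) • n = x
    rw [hx, mul_zero, zero_div, zero_smul, sub_zero]
  · intro x y hxy
    have h1 : x - (2 * inner ℝ n (x - k) / ‖n‖ ^ 2) • n - y =
        (x - y) - (2 * inner ℝ n (x - k) / ‖n‖ ^ 2) • n := by abel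
    have h2 : inner ℝ n (x - y) = inner ℝ n (x - k) - inner ℝ n (y - k) := by
      rw [← inner_sub_right]
      congr 1
      abel
    have h3 : ‖(x - y) - (2 * inner ℝ n (x - k) / ‖n‖ ^ 2) • n‖ ^ 2 = ‖x - y‖ ^ 2 := by
      rw [← h1]
      have h4 : dist (x - (2 * inner ℝ n (x - k) / ‖n‖ ^ 2) • n) y = dist x y := hxy
      rw [dist_eq_norm, dist_eq_norm] at h4
      rw [h4]
    rw [hsq, h2] at h3
    have h5 : 2 * (2 * inner ℝ n (x - k) / ‖n‖ ^ 2 * (inner ℝ n (x - k) - inner ℝ n (y - k))) =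
        (2 * inner ℝ n (x - k) / ‖n‖ ^ 2) ^ 2 * ‖n‖ ^ 2 := by linarith
    field_simp at h5
    nlinarith [h5]

/-- a generically globally rigid graph has no separator with at most `d` vertices -/
theorem not_ggr_of_sep {V : Type} [Fintype V] {d : ℕ} (hd : 0 < d) {G : SimpleGraph V}
    (M N : Finset V) (hM : d < M.card) (hN : N.card ≤ d) (hMN : Disjoint M N)
    (hadj : ∀ x ∈ M, ∀ y, G.Adj x y → y ∈ M ∨ y ∈ N) (z : V) (hzM : z ∉ M) (hzN : z ∉ N) :
    ¬ GGR d G := by
  classical
  intro h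
  obtain ⟨p, hp, _⟩ := Gen.extend (V := V) (W := Empty) (d := d) (fun x => x.elim)
    (fun x => x.elim) (p := fun x => x.elim)
    (algebraicIndependent_empty_type_iff.2 (algebraMap ℚ ℝ).injective)
  obtain ⟨M1, hM1, hM1c⟩ := Finset.exists_subset_card_eq (show d - N.card ≤ M.card by omega)
  obtain ⟨m, hmM, hm1⟩ : ∃ m ∈ M, m ∉ M1 := by
    by_contra hcon
    push Not at hcon
    have := Finset.card_le_card (fun x hx => hcon x hx : M ⊆ M1)
    omega
  have hdis : Disjoint N M1 := (hMN.mono_left hM1).symm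
  have hcard : (N ∪ M1).card = d := by
    rw [Finset.card_union_of_disjoint hdis, hM1c]
    omega
  obtain ⟨s, hs, hsS⟩ := exists_fin (N ∪ M1) d hcard
  obtain ⟨k, n, h1, h2⟩ := exists_hyperplane hd hp s hs
  obtain ⟨ρ, r1, r2, r3⟩ := exists_reflection k n
  have hfix : ∀ y ∈ N, ρ (p y) = p y := by
    intro y hy
    obtain ⟨i, hi⟩ := (hsS y).1 (Finset.mem_union_left _ hy)
    refine r2 _ ?_
    rw [← hi]
    exact h1 i
  have hq : Eqv G p (fun x => if x ∈ M then ρ (p x) else p x) := by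
    intro x y hxy
    show dist (p x) (p y) = dist (if x ∈ M then ρ (p x) else p x) (if y ∈ M then ρ (p y) else p y)
    by_cases hx : x ∈ M <;> by_cases hy : y ∈ M
    · rw [if_pos hx, if_pos hy, r1]
    · rw [if_pos hx, if_neg hy]
      have hyN : y ∈ N := (hadj x hx y hxy).resolve_left hy
      rw [← hfix y hyN, r1, hfix y hyN]
    · rw [if_neg hx, if_pos hy]
      have hxN : x ∈ N := (hadj y hy x hxy.symm).resolve_left hx
      rw [← hfix x hxN, r1, hfix x hxN]
    · rw [if_neg hx, if_neg hy]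
  have h3 : dist (p m) (p z) = dist (if m ∈ M then ρ (p m) else p m)
      (if z ∈ M then ρ (p z) else p z) := h p _ hp hq m z
  rw [if_pos hmM, if_neg hzM] at h3
  rcases mul_eq_zero.1 (r3 _ _ h3.symm) with h4 | h4
  · refine h2 m (fun i hi => ?_) h4
    have h5 := (hsS m).2 ⟨i, hi⟩
    rcases Finset.mem_union.1 h5 with h6 | h6
    · exact Finset.disjoint_left.1 hMN hmM h6
    · exact hm1 h6
  · refine h2 z (fun i hi => ?_) h4
    have h5 := (hsS z).2 ⟨i, hi⟩
    rcases Finset.mem_union.1 h5 with h6 | h6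
    · exact hzN h6
    · exact hzM (hM1 h6)

/-- the local rules make a clique of a large module -/
theorem clique_of_module {V : Type} [Fintype V] {d C : ℕ} (hd : 0 < d) {G Gc : SimpleGraph V}
    (hG : G ≤ Gc) (hR : Rules d C Gc) (hr : GGR d G) (M : Finset V)
    (hM : d * (d + 1) + 1 ≤ M.card)
    (hmod : ∀ x ∈ M, ∀ x' ∈ M, ∀ y, y ∉ M → (G.Adj x y ↔ G.Adj x' y))
    (hz : (∃ x ∈ M, ∃ z, z ∉ M ∧ ¬ G.Adj x z) ∨ ∃ T : Finset V, d < T.card ∧ ∀ y ∈ T, y ∉ M) :
    Cl Gc M := by
  classical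
  have hdM : d < M.card := by nlinarith
  obtain ⟨x0, hx0⟩ : M.Nonempty := Finset.card_pos.1 (by omega)
  set N : Finset V := univ.filter (fun y => y ∉ M ∧ G.Adj x0 y) with hN
  by_cases hNc : N.card ≤ d
  · exfalso
    obtain ⟨z, hzM, hzN⟩ : ∃ z, z ∉ M ∧ z ∉ N := by
      rcases hz with ⟨x, hx, z, hzM, hxz⟩ | ⟨T, hT, hTM⟩
      · refine ⟨z, hzM, fun h => hxz ?_⟩
        exact (hmod x0 hx0 x hx z hzM).1 (Finset.mem_filter.1 h).2.2
      · obtain ⟨z, hzT, hzN⟩ : ∃ z ∈ T, z ∉ N := by
          by_contra hcon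
          push Not at hcon
          have := Finset.card_le_card (fun x hx => hcon x hx : T ⊆ N)
          omega
        exact ⟨z, hTM z hzT, hzN⟩
    refine not_ggr_of_sep hd M N hdM hNc ?_ ?_ z hzM hzN hr
    · rw [Finset.disjoint_left]
      intro y hy hyN
      exact (Finset.mem_filter.1 hyN).2.1 hy
    · intro x hx y hxy
      by_cases hy : y ∈ M
      · exact Or.inl hy
      · exact Or.inr (Finset.mem_filter.2 ⟨Finset.mem_univ _, hy, (hmod x hx x0 hx0 y hy).1 hxy⟩)
  · obtain ⟨S, hSN, hSc⟩ := Finset.exists_subset_card_eq (show d + 1 ≤ N.card by omega)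
    have hSM : ∀ s ∈ S, ∀ t ∈ M, Gc.Adj s t := by
      intro s hs t ht
      have h1 := (Finset.mem_filter.1 (hSN hs)).2
      exact (hG ((hmod x0 hx0 t ht s h1.1).1 h1.2)).symm
    have hS : Cl Gc S := hR.r2 S M hSc hM hSM
    intro a ha b hb hab
    exact hR.r1 S a b hSc hS hab (fun s hs => (hSM s hs a ha).symm)
      (fun s hs => (hSM s hs b hb).symm)

/-- finer labels -/
theorem TreeModel.relabel {V L L' : Type} {G : SimpleGraph V} {lab : V → L} {lab' : V → L'}
    (g : L' → L) (hg : ∀ v, lab v = g (lab' v)) (h : ℕ) {W : Finset V}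
    (hW : TreeModel G lab h W) : TreeModel G lab' h W := by
  induction h generalizing W with
  | zero => exact hW
  | succ h ih =>
    obtain ⟨c, M, h1, h2⟩ := hW
    refine ⟨c, fun a b => M (g a) (g b), fun i => ih (h1 i), fun x hx y hy hxy => ?_⟩
    rw [h2 x hx y hy hxy, hg x, hg y]

/-- substitution into a graph with a tree model -/
theorem TreeModel.compose {V L L' : Type} {G : SimpleGraph V} {Q : SimpleGraph ℕ} {lab : ℕ → L}
    {lab' : V → L'} {c : V → ℕ} {k : ℕ} (h : ℕ) (I : Finset ℕ) (W : Finset V)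
    (hQ : TreeModel Q lab h I) (hc : ∀ v ∈ W, c v ∈ I)
    (hW : ∀ i, TreeModel G lab' k (W.filter fun v => c v = i))
    (hadj : ∀ x ∈ W, ∀ y ∈ W, c x ≠ c y → (G.Adj x y ↔ Q.Adj (c x) (c y))) :
    TreeModel G (fun v => (lab (c v), lab' v)) (k + h) W := by
  induction h generalizing I W with
  | zero =>
    have hI : I.card ≤ 1 := hQ
    rcases W.eq_empty_or_nonempty with rfl | ⟨w, hw⟩
    · exact TreeModel.mono (k + 0) (TreeModel.relabel (g := Prod.snd) (fun _ => rfl) k (hW 0))
        (Finset.empty_subset _)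
    · have h1 : W ⊆ W.filter fun v => c v = c w := by
        intro v hv
        refine Finset.mem_filter.2 ⟨hv, ?_⟩
        exact Finset.card_le_one.1 hI _ (hc v hv) _ (hc w hw)
      exact TreeModel.mono k (TreeModel.relabel (g := Prod.snd) (fun _ => rfl) k (hW (c w))) h1
  | succ h ih =>
    obtain ⟨cQ, M, h1, h2⟩ := hQ
    refine ⟨fun v => cQ (c v), fun a b => M a.1 b.1, fun i => ?_, ?_⟩
    · refine ih (I.filter fun j => cQ j = i) _ (h1 i) ?_ ?_ ?_
      · intro v hv
        have h3 := Finset.mem_filter.1 hv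
        exact Finset.mem_filter.2 ⟨hc v h3.1, h3.2⟩
      · intro j
        refine TreeModel.mono k (hW j) ?_
        intro v hv
        have h3 := Finset.mem_filter.1 hv
        exact Finset.mem_filter.2 ⟨(Finset.mem_filter.1 h3.1).1, h3.2⟩
      · intro x hx y hy hxy
        exact hadj x (Finset.mem_filter.1 hx).1 y (Finset.mem_filter.1 hy).1 hxy
    · intro x hx y hy hxy
      have hxy' : c x ≠ c y := fun h3 => hxy (congrArg cQ h3)
      rw [hadj x hx y hy hxy']
      exact h2 (c x) (hc x hx) (c y) (hc y hy) hxy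

/-- labels which are injective on the small classes -/
theorem exists_small_labels {V : Type} [Fintype V] (c : V → ℕ) (t : ℕ) :
    ∃ lab : V → Fin (t + 1), ∀ x y, c x = c y →
      (univ.filter fun v => c v = c x).card ≤ t → lab x = lab y → x = y := by
  classical
  have h1 : ∀ i : ℕ, ∃ g : V → Fin (t + 1), (univ.filter fun v => c v = i).card ≤ t →
      ∀ x y, c x = i → c y = i → g x = g y → x = y := by
    intro i
    by_cases hi : (univ.filter fun v => c v = i).card ≤ t
    · refine ⟨fun v => if h : v ∈ univ.filter fun v => c v = i then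
        ⟨((univ.filter fun v => c v = i).equivFin ⟨v, h⟩).val, by
          have := ((univ.filter fun v => c v = i).equivFin ⟨v, h⟩).isLt
          omega⟩ else 0, fun _ x y hx hy hxy => ?_⟩
      have hx' : x ∈ univ.filter fun v => c v = i := Finset.mem_filter.2 ⟨Finset.mem_univ _, hx⟩
      have hy' : y ∈ univ.filter fun v => c v = i := Finset.mem_filter.2 ⟨Finset.mem_univ _, hy⟩
      simp only [dif_pos hx', dif_pos hy', Fin.mk.injEq] at hxy
      exact congrArg Subtype.val
        ((univ.filter fun v => c v = i).equivFin.injective (Fin.ext hxy))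
    · exact ⟨fun _ => 0, fun h => absurd h hi⟩
  choose g hg using h1
  refine ⟨fun v => g (c v) v, fun x y hxy hc h => hg (c x) hc x y rfl hxy.symm ?_⟩
  have h2 : g (c x) x = g (c y) y := h
  rw [h2, hxy]

end Pool.Sdp
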