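import Pool.Agent.Sdp.Tree

/-!
# Nested models with fixed labels: tree models of unbounded height

`Nested`: the depth of the decomposition is not bounded, but every vertex keeps its label. Under the
local rules a label class with more than `d` common neighbours is a clique or small, and this
collapses the decomposition to bounded height (`nested_model`).
-/

set_option autoImplicit false

namespace Pool.Sdp

open Pool.Rgd Finset

/-- The classes of `c` are put together by a tree model of height `h` with the labels `mu`: for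
`h = 0` there is one class; for `h + 1` the classes are divided into groups, which are put together
by tree models of height `h`, and whether vertices `x`, `y` of different groups are adjacent depends
only on `mu x` and `mu y`. -/
def Joined {V M : Type} (G : SimpleGraph V) (c : V → ℕ) (mu : V → M) : ℕ → Finset V → Prop
  | 0, W => ∀ x ∈ W, ∀ y ∈ W, c x = c y
  | h + 1, W => ∃ (e : ℕ → ℕ) (R : M → M → Prop),
      (∀ i, Joined G c mu h (W.filter fun v => e (c v) = i)) ∧
      ∀ x ∈ W, ∀ y ∈ W, e (c x) ≠ e (c y) → (G.Adj x y ↔ R (mu x) (mu y))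

/-- `Nested d l m h G lab W`: the subgraph of `G` on `W` has a nested model: at most one vertex
(`single`); or every vertex `w` of `W` has a label with more than `d` vertices which are adjacent to
all vertices of `W` with this label (`free`); or `W` is divided into classes which have nested models
and which are put together by a tree model of height `h` with `m` labels, where these `m` labels
depend only on the class and on the label `lab` (`step`). -/
inductive Nested {V : Type} (d l m h : ℕ) (G : SimpleGraph V) (lab : V → Fin l) :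
    Finset V → Prop
  | single (W : Finset V) : W.card ≤ 1 → Nested d l m h G lab W
  | free (W : Finset V) (S : Fin l → Finset V) : (∀ w ∈ W, d < (S (lab w)).card) →
      (∀ w ∈ W, ∀ s ∈ S (lab w), G.Adj s w) → Nested d l m h G lab W
  | step (W : Finset V) (c : V → ℕ) (mu : V → Fin m) :
      (∀ x ∈ W, ∀ y ∈ W, c x = c y → lab x = lab y → mu x = mu y) →
      Joined G c mu h W → (∀ i, Nested d l m h G lab (W.filter fun v => c v = i)) →
      Nested d l m h G lab W

theorem Joined.homog {V M : Type} {G : SimpleGraph V} {c : V → ℕ} {mu : V → M} (h : ℕ)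
    {W : Finset V} (hJ : Joined G c mu h W) {x y y' : V} (hx : x ∈ W) (hy : y ∈ W) (hy' : y' ∈ W)
    (hxy : c x ≠ c y) (hc : c y' = c y) (hmu : mu y' = mu y) : G.Adj x y ↔ G.Adj x y' := by
  induction h generalizing W with
  | zero => exact absurd (hJ x hx y hy) hxy
  | succ h ih =>
    obtain ⟨e, R, h1, h2⟩ := hJ
    by_cases he : e (c x) = e (c y)
    · exact ih (h1 (e (c x))) (Finset.mem_filter.2 ⟨hx, rfl⟩) (Finset.mem_filter.2 ⟨hy, he.symm⟩)
        (Finset.mem_filter.2 ⟨hy', by rw [hc, he]⟩)
    · rw [h2 x hx y hy he, h2 x hx y' hy' (by rw [hc]; exact he), hmu]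

theorem Joined.mono {V M : Type} {G : SimpleGraph V} {c : V → ℕ} {mu : V → M} (h : ℕ)
    {W W' : Finset V} (hJ : Joined G c mu h W) (hs : W' ⊆ W) : Joined G c mu h W' := by
  induction h generalizing W W' with
  | zero => exact fun x hx y hy => hJ x (hs hx) y (hs hy)
  | succ h ih =>
    obtain ⟨e, R, h1, h2⟩ := hJ
    exact ⟨e, R, fun i => ih (h1 i) (Finset.filter_subset_filter _ hs),
      fun x hx y hy hxy => h2 x (hs hx) y (hs hy) hxy⟩

/-- tree models of the classes give a tree model of `W` -/
theorem Joined.compose {V M L : Type} {G G' : SimpleGraph V} {c : V → ℕ} {mu : V → M}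
    {lab' : V → L} {k : ℕ} (h : ℕ) (W : Finset V) (hJ : Joined G c mu h W)
    (hG : ∀ x ∈ W, ∀ y ∈ W, c x ≠ c y → (G'.Adj x y ↔ G.Adj x y))
    (hW : ∀ i, TreeModel G' lab' k (W.filter fun v => c v = i)) :
    TreeModel G' (fun v => (mu v, lab' v)) (k + h) W := by
  induction h generalizing W with
  | zero =>
    rcases W.eq_empty_or_nonempty with rfl | ⟨w, hw⟩
    · exact TreeModel.mono k (TreeModel.relabel (g := Prod.snd) (fun _ => rfl) k (hW 0))
        (Finset.empty_subset _)
    · have h1 : W ⊆ W.filter fun v => c v = c w := fun v hv =>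
        Finset.mem_filter.2 ⟨hv, hJ v hv w hw⟩
      exact TreeModel.mono k (TreeModel.relabel (g := Prod.snd) (fun _ => rfl) k (hW (c w))) h1
  | succ h ih =>
    obtain ⟨e, R, h1, h2⟩ := hJ
    refine ⟨fun v => e (c v), fun a b => R a.1 b.1, fun i => ?_, fun x hx y hy hxy => ?_⟩
    · refine ih _ (h1 i) ?_ ?_
      · intro x hx y hy hxy
        exact hG x (Finset.mem_filter.1 hx).1 y (Finset.mem_filter.1 hy).1 hxy
      · intro j
        refine TreeModel.mono k (hW j) ?_
        intro v hv
        have h3 := Finset.mem_filter.1 hv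
        exact Finset.mem_filter.2 ⟨(Finset.mem_filter.1 h3.1).1, h3.2⟩
    · have hxy' : c x ≠ c y := fun h3 => hxy (congrArg e h3)
      rw [hG x hx y hy hxy']
      exact h2 x hx y hy hxy

/-- a tree model of any height is a nested model -/
theorem TreeModel.nested {V : Type} (d : ℕ) {l : ℕ} {G : SimpleGraph V} {lab : V → Fin l} (H : ℕ)
    {W : Finset V} (hW : TreeModel G lab H W) : Nested d l l 1 G lab W := by
  induction H generalizing W with
  | zero => exact Nested.single W hW
  | succ H ih =>
    obtain ⟨c, M, h1, h2⟩ := hW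
    refine Nested.step W c lab (fun x _ y _ _ h => h) ⟨id, M, fun i x hx y hy => ?_, h2⟩
      (fun i => ih (h1 i))
    exact (Finset.mem_filter.1 hx).2.trans (Finset.mem_filter.1 hy).2.symm

/-- lateration: a vertex which is adjacent to many vertices of a clique is adjacent to all -/
theorem adj_of_many {V : Type} {d C : ℕ} (hd : 0 < d) {Gc : SimpleGraph V} (hR : Rules d C Gc)
    {T T' : Finset V} (hT : Cl Gc T) (hs : T' ⊆ T) (hc : d * (d + 1) + 1 ≤ T'.card) {x : V}
    (hx : ∀ z ∈ T', z ≠ x → Gc.Adj x z) : ∀ z ∈ T, z ≠ x → Gc.Adj x z := by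
  classical
  intro z hz hzx
  by_cases hz' : z ∈ T'
  · exact hx z hz' hzx
  have h1 : d + 1 ≤ (T'.erase x).card := by
    have h2 := Finset.pred_card_le_card_erase (s := T') (a := x)
    have h3 : d + 1 ≤ d * (d + 1) := Nat.le_mul_of_pos_left _ hd
    omega
  obtain ⟨S, hS, hSc⟩ := Finset.exists_subset_card_eq h1
  have hS' : ∀ s ∈ S, s ≠ x ∧ s ∈ T' := fun s hs => Finset.mem_erase.1 (hS hs)
  refine hR.r1 S x z hSc ?_ hzx.symm ?_ ?_
  · intro a ha b hb hab
    exact hT a (hs (hS' a ha).2) b (hs (hS' b hb).2) hab
  · intro s hsS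
    exact hx s (hS' s hsS).2 (hS' s hsS).1
  · intro s hsS
    exact hT z hz s (hs (hS' s hsS).2) fun h => hz' (by rw [h]; exact (hS' s hsS).2)

/-- two large cliques are completely joined or their edges are covered by few vertices -/
theorem cliques_join {V : Type} {d C : ℕ} (hd : 0 < d) {Gc : SimpleGraph V} (hR : Rules d C Gc)
    {A B : Finset V} (hA : Cl Gc A) (hB : Cl Gc B) (hAB : ∀ a ∈ A, ∀ b ∈ B, a ≠ b) :
    (∀ a ∈ A, ∀ b ∈ B, Gc.Adj a b) ∨ ∃ E : Finset V, E.card ≤ 2 * (d * (d + 1) + 1) ∧
      ∀ a ∈ A, ∀ b ∈ B, a ∉ E → b ∉ E → ¬ Gc.Adj a b := by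
  classical
  -- matchings of size `m`
  let Mt : ℕ → Prop := fun m => ∃ a b : Fin m → V, Function.Injective a ∧ Function.Injective b ∧
    (∀ i, a i ∈ A) ∧ (∀ i, b i ∈ B) ∧ ∀ i, Gc.Adj (a i) (b i)
  have h0 : Mt 0 := ⟨fun i => i.elim0, fun i => i.elim0, fun i => i.elim0, fun i => i.elim0,
    fun i => i.elim0, fun i => i.elim0, fun i => i.elim0⟩
  by_cases hm : Mt (d * (d + 1) + 1)
  · left
    obtain ⟨a, b, ha, hb, haA, hbB, hab⟩ := hm
    have hall := hR.r3 a b ha hb (fun i j => hAB _ (haA i) _ (hbB j))
      (fun i j hij => hA _ (haA i) _ (haA j) fun h => hij (ha h))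
      (fun i j hij => hB _ (hbB i) _ (hbB j) fun h => hij (hb h)) hab
    have hcA : d * (d + 1) + 1 ≤ (univ.image a).card := by
      rw [Finset.card_image_of_injective _ ha, Finset.card_univ, Fintype.card_fin]
    have hcB : d * (d + 1) + 1 ≤ (univ.image b).card := by
      rw [Finset.card_image_of_injective _ hb, Finset.card_univ, Fintype.card_fin]
    have hsA : univ.image a ⊆ A := by
      intro x hx
      obtain ⟨i, _, rfl⟩ := Finset.mem_image.1 hx
      exact haA i
    have hsB : univ.image b ⊆ B := by
      intro x hx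
      obtain ⟨i, _, rfl⟩ := Finset.mem_image.1 hx
      exact hbB i
    -- `A` is adjacent to the vertices `b j`
    have h1 : ∀ x ∈ A, ∀ j, Gc.Adj x (b j) := by
      intro x hx j
      refine (adj_of_many hd hR hA hsA hcA (x := b j) ?_ x hx (hAB x hx _ (hbB j))).symm
      intro z hz _
      obtain ⟨i, _, rfl⟩ := Finset.mem_image.1 hz
      exact (hall i j).symm
    intro x hx y hy
    refine adj_of_many hd hR hB hsB hcB (x := x) ?_ y hy (hAB x hx y hy).symm
    intro z hz _
    obtain ⟨j, _, rfl⟩ := Finset.mem_image.1 hz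
    exact h1 x hx j
  · right
    -- a maximal matching
    obtain ⟨m, hm1, hm2, hm3⟩ : ∃ m, m < d * (d + 1) + 1 ∧ Mt m ∧ ¬ Mt (m + 1) := by
      by_contra hcon
      push Not at hcon
      have hall : ∀ m ≤ d * (d + 1) + 1, Mt m := by
        intro m
        induction m with
        | zero => exact fun _ => h0
        | succ m ih => exact fun hle => hcon m (by omega) (ih (by omega))
      exact hm (hall _ le_rfl)
    obtain ⟨a, b, ha, hb, haA, hbB, hab⟩ := hm2
    refine ⟨univ.image a ∪ univ.image b, ?_, ?_⟩
    · have h1 := Finset.card_union_le (univ.image a) (univ.image b)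
      have h2 := Finset.card_image_le (s := (univ : Finset (Fin m))) (f := a)
      have h3 := Finset.card_image_le (s := (univ : Finset (Fin m))) (f := b)
      rw [Finset.card_univ, Fintype.card_fin] at h2 h3
      omega
    · intro x hx y hy hxE hyE hxy
      refine hm3 ⟨Fin.cons x a, Fin.cons y b, ?_, ?_, ?_, ?_, ?_⟩
      · rw [Fin.cons_injective_iff]
        refine ⟨?_, ha⟩
        rintro ⟨i, rfl⟩
        exact hxE (Finset.mem_union_left _ (Finset.mem_image_of_mem _ (Finset.mem_univ i)))
      · rw [Fin.cons_injective_iff]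
        refine ⟨?_, hb⟩
        rintro ⟨i, rfl⟩
        exact hyE (Finset.mem_union_right _ (Finset.mem_image_of_mem _ (Finset.mem_univ i)))
      · intro i
        refine Fin.cases ?_ (fun i => ?_) i
        · exact hx
        · exact haA i
      · intro i
        refine Fin.cases ?_ (fun i => ?_) i
        · exact hy
        · exact hbB i
      · intro i
        refine Fin.cases ?_ (fun i => ?_) i
        · exact hxy
        · exact hab i

end Pool.Sdp
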