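import Pool.Agent.Sdp.NestedModel

/-!
# The local closure decides generic global rigidity of graphs with a nested model
-/

set_option autoImplicit false

namespace Pool.Sdp

open Pool.Rgd Finset

/-- parts with tree models of height `HT h r`, and the condition `CP` on the edges between
different parts -/
def PM {V : Type} (d l m h : ℕ) (G Gc : SimpleGraph V) (lab : V → Fin l) (r : ℕ)
    (S : Fin l → Finset V) (W : Finset V) (G' : SimpleGraph V) (lab' : V → NL d l m r)
    (c' : V → ℕ) : Prop :=
  (∀ x ∈ W, ∀ y ∈ W, c' x = c' y → G.Adj x y → G'.Adj x y) ∧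
  (∀ x ∈ W, ∀ y ∈ W, c' x = c' y → G'.Adj x y → Gc.Adj x y) ∧
  (∀ i, TreeModel G' lab' (HT h r) (W.filter fun v => c' v = i)) ∧
  ∀ x ∈ W, ∀ y ∈ W, c' x ≠ c' y → G.Adj x y → CP d Gc lab S W x y

/-- all labels are free -/
theorem pm_free {V : Type} [Fintype V] {d C l : ℕ} (m h : ℕ) (hd : 0 < d) {G Gc : SimpleGraph V}
    (hG : G ≤ Gc) (hR : Rules d C Gc) (lab : V → Fin l) (W : Finset V) (S : Fin l → Finset V)
    (hS : ∀ w ∈ W, ∀ s ∈ S (lab w), G.Adj s w) (hf : ∀ w ∈ W, d < (S (lab w)).card) (r : ℕ)
    (S' : Fin l → Finset V) :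
    ∃ G' lab' c', PM d l m h G Gc lab r S' W G' lab' c' := by
  classical
  obtain ⟨G2, lab2, h1, h2, h3⟩ := finish hd hG hR lab W S hS (L := Unit) (k := 0) G
    (fun _ => ()) (fun v => (Fintype.equivFin V v).val) (fun x _ y _ _ h => h)
    (fun x _ y _ _ h => hG h) (fun i => by
      show (W.filter fun v => (Fintype.equivFin V v).val = i).card ≤ 1
      rw [Finset.card_le_one]
      intro a ha b hb
      exact (Fintype.equivFin V).injective
        (Fin.ext ((Finset.mem_filter.1 ha).2.trans (Finset.mem_filter.1 hb).2.symm)))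
    (fun x hx y hy _ _ => by
      by_cases hx1 : d * (d + 1) + 1 ≤ (W.filter fun v => lab v = lab x).card
      · by_cases hy1 : d * (d + 1) + 1 ≤ (W.filter fun v => lab v = lab y).card
        · exact Or.inr (Or.inr (Or.inl ⟨⟨hf x hx, hx1⟩, ⟨hf y hy, hy1⟩⟩))
        · exact Or.inr (Or.inl ⟨hf y hy, not_le.1 hy1⟩)
      · exact Or.inl ⟨hf x hx, not_le.1 hx1⟩)
  obtain ⟨j, hj⟩ := HT_pos h r
  refine ⟨G2, fun v => NL.up d l m r (lab2 v), fun _ => 0, fun x hx y hy _ => h1 x hx y hy,
    fun x hx y hy _ => h2 x hx y hy, fun i => ?_, fun x _ y _ hxy => absurd rfl hxy⟩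
  refine TreeModel.mono _ ?_ (Finset.filter_subset _ _)
  rw [hj]
  exact TreeModel.up j (TreeModel.relabel (NL.down d l m r)
    (fun v => (NL.down_up d l m r (lab2 v)).symm) 1 h3)

/-- **Collapse.** A nested model gives parts with tree models of bounded height. -/
theorem nested_model {V : Type} [Fintype V] {d C l m h : ℕ} (hd : 0 < d) {G Gc : SimpleGraph V}
    (hG : G ≤ Gc) (hR : Rules d C Gc) (lab : V → Fin l) {W : Finset V}
    (hW : Nested d l m h G lab W) :
    ∀ (r : ℕ) (S : Fin l → Finset V), (∀ w ∈ W, ∀ s ∈ S (lab w), G.Adj s w) →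
      (∀ a, ∀ s ∈ S a, s ∉ W) → ∑ a, pot d (W.filter fun v => lab v = a) (S a) ≤ r →
      ∃ G' lab' c', PM d l m h G Gc lab r S W G' lab' c' := by
  classical
  induction hW with
  | single W hW =>
    intro r S _ _ _
    refine ⟨G, fun v => NL.up d l m r (none, fun _ => false, lab v, fun _ => false, ()),
      fun _ => 0, fun x _ y _ _ h => h, fun x _ y _ _ h => hG h, fun i => ?_,
      fun x _ y _ hxy => absurd rfl hxy⟩
    have h0 : TreeModel G (fun v => NL.up d l m r
        (none, fun _ => false, lab v, fun _ => false, ())) 0 (W.filter fun _ => 0 = i) :=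
      (Finset.card_le_card (Finset.filter_subset _ _)).trans hW
    have h1 := TreeModel.up (HT h r) h0
    rw [Nat.zero_add] at h1
    exact h1
  | free W S hS1 hS2 =>
    intro r S' _ _ _
    exact pm_free m h hd hG hR lab W S hS2 hS1 r S'
  | step W c mu hmu hJ _ ih =>
    intro r S hS hSW hpot
    by_cases hf : ∀ w ∈ W, d < (S (lab w)).card
    · exact pm_free m h hd hG hR lab W S hS hf r S
    -- now `r` is positive
    rcases r with _ | r
    · exfalso
      apply hf
      intro w hw
      by_contra hlt
      have h1 := Finset.single_le_sum (f := fun a => pot d (W.filter fun v => lab v = a) (S a))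
        (fun _ _ => Nat.zero_le _) (Finset.mem_univ (lab w))
      have h2 : (W.filter fun v => lab v = lab w).card ≠ 0 := by
        have h5 : w ∈ W.filter fun v => lab v = lab w := Finset.mem_filter.2 ⟨hw, rfl⟩
        exact (Finset.card_pos.2 ⟨w, h5⟩).ne'
      have h3 : pot d (W.filter fun v => lab v = lab w) (S (lab w)) =
          d + 2 - (S (lab w)).card := by
        unfold pot
        rw [if_neg h2, if_neg hlt]
      have h4 := h1.trans hpot
      simp only [h3] at h4
      omega
    -- common neighbours for the classes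
    have hch : ∀ (i : ℕ) (a : Fin l), ∃ S' : Finset V,
        (∀ s ∈ S', ∀ w ∈ (W.filter fun v => c v = i).filter fun v => lab v = a, G.Adj s w) ∧
        (∀ s ∈ S', s ∉ W.filter fun v => c v = i) ∧
        pot d ((W.filter fun v => c v = i).filter fun v => lab v = a) S' ≤
          pot d (W.filter fun v => lab v = a) (S a) ∧
        ((S' = S a ∧ ((W.filter fun v => lab v = a).card = 0 ∨ d < (S a).card ∨
          ∀ y ∈ W, y ∉ (W.filter fun v => c v = i) →
            ¬ ∀ w ∈ (W.filter fun v => c v = i).filter fun v => lab v = a, G.Adj y w)) ∨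
          pot d ((W.filter fun v => c v = i).filter fun v => lab v = a) S' <
            pot d (W.filter fun v => lab v = a) (S a)) := by
      intro i a
      refine exists_child d W (W.filter fun v => c v = i) (W.filter fun v => lab v = a)
        ((W.filter fun v => c v = i).filter fun v => lab v = a) (S a)
        (Finset.filter_subset _ _) ?_ ?_ (hSW a)
      · intro v hv
        have h1 := Finset.mem_filter.1 hv
        exact Finset.mem_filter.2 ⟨(Finset.mem_filter.1 h1.1).1, h1.2⟩
      · intro s hs w hw
        have h1 := Finset.mem_filter.1 hw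
        exact hS w h1.1 s (by rw [h1.2]; exact hs)
    choose Si hSi1 hSi2 hSi3 hSi4 using hch
    have hSiAdj : ∀ i, ∀ w ∈ W.filter fun v => c v = i, ∀ s ∈ Si i (lab w), G.Adj s w :=
      fun i w hw s hs => hSi1 i (lab w) s hs w (Finset.mem_filter.2 ⟨hw, rfl⟩)
    -- the classes of smaller value
    let AT : ℕ → Prop := fun i =>
      ∑ a, pot d ((W.filter fun v => c v = i).filter fun v => lab v = a) (Si i a) ≤ r
    have hA : ∀ i, ∃ (G2 : SimpleGraph V) (lab2 : V → FL d l (NL d l m r)), AT i →
        (∀ x ∈ W.filter fun v => c v = i, ∀ y ∈ W.filter fun v => c v = i,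
          G.Adj x y → G2.Adj x y) ∧
        (∀ x ∈ W.filter fun v => c v = i, ∀ y ∈ W.filter fun v => c v = i,
          G2.Adj x y → Gc.Adj x y) ∧
        TreeModel G2 lab2 (HT h r + 1) (W.filter fun v => c v = i) := by
      intro i
      by_cases hi : AT i
      · obtain ⟨G', lab', c', q1, q2, q3, q4⟩ := ih i r (Si i) (hSiAdj i) (hSi2 i) hi
        obtain ⟨G2, lab2, h1, h2, h3⟩ := finish hd hG hR lab (W.filter fun v => c v = i) (Si i)
          (hSiAdj i) G' lab' c' q1 q2 q3 q4
        exact ⟨G2, lab2, fun _ => ⟨h1, h2, h3⟩⟩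
      · exact ⟨G, fun v => (none, fun _ => false, lab v, fun _ => false,
          NL.up d l m r (none, fun _ => false, lab v, fun _ => false, ())), fun h => absurd h hi⟩
    -- the other classes have the same state
    have hBeq : ∀ i, ¬ AT i → ∀ a,
        (S a = Si i a ∧ ((W.filter fun v => lab v = a).card = 0 ∨ d < (S a).card ∨
          ∀ y ∈ W, y ∉ (W.filter fun v => c v = i) →
            ¬ ∀ w ∈ (W.filter fun v => c v = i).filter fun v => lab v = a, G.Adj y w)) ∧
        pot d ((W.filter fun v => c v = i).filter fun v => lab v = a) (Si i a) =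
          pot d (W.filter fun v => lab v = a) (S a) := by
      intro i hi a
      have hnlt : ¬ pot d ((W.filter fun v => c v = i).filter fun v => lab v = a) (Si i a) <
          pot d (W.filter fun v => lab v = a) (S a) := by
        intro hlt
        have h1 := Finset.sum_lt_sum (s := (univ : Finset (Fin l))) (fun b _ => hSi3 i b)
          ⟨a, Finset.mem_univ a, hlt⟩
        exact hi (Nat.lt_succ_iff.1 (lt_of_lt_of_le h1 hpot))
      rcases hSi4 i a with h1 | h1
      · exact ⟨⟨h1.1.symm, h1.2⟩, le_antisymm (hSi3 i a) (not_lt.1 hnlt)⟩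
      · exact absurd h1 hnlt
    have hB : ∀ i, ∃ (G' : SimpleGraph V) (lab' : V → NL d l m (r + 1)) (c' : V → ℕ), ¬ AT i →
        PM d l m h G Gc lab (r + 1) S (W.filter fun v => c v = i) G' lab' c' := by
      intro i
      by_cases hi : AT i
      · exact ⟨G, fun v => NL.up d l m (r + 1) (none, fun _ => false, lab v, fun _ => false, ()),
          fun _ => 0, fun h => absurd hi h⟩
      · have hSS : Si i = S := funext fun a => (hBeq i hi a).1.1.symm
        obtain ⟨G', lab', c', h1⟩ := ih i (r + 1) (Si i) (hSiAdj i) (hSi2 i)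
          ((Finset.sum_le_sum fun a _ => hSi3 i a).trans hpot)
        rw [hSS] at h1
        exact ⟨G', lab', c', fun _ => h1⟩
    choose GA labA hA using hA
    choose GB labB cB hB using hB
    have hmem : ∀ x ∈ W, x ∈ W.filter fun v => c v = c x := fun x hx =>
      Finset.mem_filter.2 ⟨hx, rfl⟩
    -- large labels stay large in the classes of the same state
    have hlarge : ∀ i, ¬ AT i → ∀ a, Lg d lab S W a →
        d * (d + 1) + 1 ≤ ((W.filter fun v => c v = i).filter fun v => lab v = a).card := by
      intro i hi a ha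
      have h1 := (hBeq i hi a).2
      rw [← (hBeq i hi a).1.1] at h1
      have h2 : pot d (W.filter fun v => lab v = a) (S a) = 1 := by
        unfold pot
        rw [if_neg (show (W.filter fun v => lab v = a).card ≠ 0 by have := ha.2; omega),
          if_pos ha.1, if_pos ha.2]
      rw [h2] at h1
      by_contra h3
      unfold pot at h1
      by_cases h4 : ((W.filter fun v => c v = i).filter fun v => lab v = a).card = 0
      · rw [if_pos h4] at h1
        omega
      · rw [if_neg h4, if_pos ha.1, if_neg h3] at h1
        omega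
    have hsubT : ∀ i a, ((W.filter fun v => c v = i).filter fun v => lab v = a) ⊆
        W.filter fun v => lab v = a := by
      intro i a v hv
      have h1 := Finset.mem_filter.1 hv
      exact Finset.mem_filter.2 ⟨(Finset.mem_filter.1 h1.1).1, h1.2⟩
    have hjoin : ∀ i, ¬ AT i → ∀ a, Lg d lab S W a → ∀ x,
        (∀ z ∈ W.filter fun v => c v = i, lab z = a → z ≠ x → Gc.Adj x z) →
        ∀ z ∈ W, lab z = a → z ≠ x → Gc.Adj x z := by
      intro i hi a ha x hx z hz hza hzx
      refine adj_of_many hd hR (lg_clique hG hR hS ha) (hsubT i a) (hlarge i hi a ha) ?_ z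
        (Finset.mem_filter.2 ⟨hz, hza⟩) hzx
      intro z' hz' hzx'
      have h1 := Finset.mem_filter.1 hz'
      exact hx z' h1.1 h1.2 hzx'
    have hCP : ∀ i, ¬ AT i → ∀ x y, CP d Gc lab S (W.filter fun v => c v = i) x y →
        CP d Gc lab S W x y := by
      intro i hi x y hxy
      have hSm : ∀ a, Sm d lab S (W.filter fun v => c v = i) a → Sm d lab S W a := by
        intro a ha
        refine ⟨ha.1, ?_⟩
        by_contra h1
        have h2 := hlarge i hi a ⟨ha.1, not_lt.1 h1⟩
        have h3 := ha.2
        omega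
      have hLg : ∀ a, Lg d lab S (W.filter fun v => c v = i) a → Lg d lab S W a := fun a ha =>
        ⟨ha.1, ha.2.trans (Finset.card_le_card (hsubT i a))⟩
      rcases hxy with h1 | h1 | ⟨h1, h2⟩ | ⟨h1, h2⟩ | ⟨h1, h2⟩
      · exact Or.inl (hSm _ h1)
      · exact Or.inr (Or.inl (hSm _ h1))
      · exact Or.inr (Or.inr (Or.inl ⟨hLg _ h1, hLg _ h2⟩))
      · exact Or.inr (Or.inr (Or.inr (Or.inl ⟨hLg _ h1, hjoin i hi _ (hLg _ h1) x h2⟩)))
      · exact Or.inr (Or.inr (Or.inr (Or.inr ⟨hLg _ h1, hjoin i hi _ (hLg _ h1) y h2⟩)))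
    -- edges between different classes, one of them of the same state
    have hkey : ∀ x ∈ W, ∀ y ∈ W, c x ≠ c y → ¬ AT (c y) → G.Adj x y → CP d Gc lab S W x y := by
      intro x hx y hy hxy hy1 hadj
      have hall : ∀ z ∈ W.filter fun v => c v = c y, lab z = lab y → G.Adj x z := by
        intro z hz hzy
        have hz1 := Finset.mem_filter.1 hz
        exact (Joined.homog h hJ hx hy hz1.1 hxy hz1.2
          (hmu z hz1.1 y hy hz1.2 hzy)).1 hadj
      by_cases hfr : d < (S (lab y)).card
      · by_cases hlg : d * (d + 1) + 1 ≤ (W.filter fun v => lab v = lab y).card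
        · have hLg : Lg d lab S W (lab y) := ⟨hfr, hlg⟩
          exact Or.inr (Or.inr (Or.inr (Or.inl ⟨hLg, hjoin (c y) hy1 (lab y) hLg x
            fun z hz hzy _ => hG (hall z hz hzy)⟩)))
        · exact Or.inr (Or.inl ⟨hfr, not_le.1 hlg⟩)
      · exfalso
        rcases (hBeq (c y) hy1 (lab y)).1.2 with h1 | h1 | h1
        · have h5 : y ∈ W.filter fun v => lab v = lab y := Finset.mem_filter.2 ⟨hy, rfl⟩
          exact (Finset.card_pos.2 ⟨y, h5⟩).ne' h1
        · exact hfr h1
        · refine h1 x hx ?_ ?_
          · intro h2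
            exact hxy (Finset.mem_filter.1 h2).2
          · intro w hw
            have h2 := Finset.mem_filter.1 hw
            exact hall w h2.1 h2.2
    let GI : ℕ → SimpleGraph V := fun i => if AT i then GA i else GB i
    have hGIA : ∀ i, AT i → GI i = GA i := fun i hi => if_pos hi
    have hGIB : ∀ i, ¬ AT i → GI i = GB i := fun i hi => if_neg hi
    let G' : SimpleGraph V :=
      { Adj := fun x y => (c x = c y ∧ (GI (c x)).Adj x y) ∨ (c x ≠ c y ∧ G.Adj x y)
        symm := ⟨by
          rintro x y (⟨h1, h2⟩ | ⟨h1, h2⟩)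
          · exact Or.inl ⟨h1.symm, by rw [← h1]; exact h2.symm⟩
          · exact Or.inr ⟨h1.symm, h2.symm⟩⟩
        loopless := ⟨by
          rintro x (⟨_, h2⟩ | ⟨h1, _⟩)
          · exact h2.ne rfl
          · exact h1 rfl⟩ }
    have hsame : ∀ x y, c x = c y → (G'.Adj x y ↔ (GI (c x)).Adj x y) := by
      intro x y hxy
      constructor
      · rintro (⟨_, h2⟩ | ⟨h1, _⟩)
        · exact h2
        · exact absurd hxy h1
      · exact fun h2 => Or.inl ⟨hxy, h2⟩
    have hdiff : ∀ x y, c x ≠ c y → (G'.Adj x y ↔ G.Adj x y) := by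
      intro x y hxy
      constructor
      · rintro (⟨h1, _⟩ | ⟨_, h2⟩)
        · exact absurd h1 hxy
        · exact h2
      · exact fun h2 => Or.inr ⟨hxy, h2⟩
    let labC : V → NL d l m (r + 1) := fun v =>
      if AT (c v) then ((mu v).castSucc, labA (c v) v) else labB (c v) v
    let cC : V → ℕ := fun v => if AT (c v) then 0 else Nat.pair (c v) (cB (c v) v) + 1
    have hcC0 : ∀ v, AT (c v) → cC v = 0 := fun v hv => if_pos hv
    have hcC1 : ∀ v, ¬ AT (c v) → cC v = Nat.pair (c v) (cB (c v) v) + 1 := fun v hv => if_neg hv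
    have hcB : ∀ x y, c x = c y → ¬ AT (c x) → (cC x = cC y ↔ cB (c x) x = cB (c x) y) := by
      intro x y hxy hx
      rw [hcC1 x hx, hcC1 y (by rw [← hxy]; exact hx), ← hxy]
      constructor
      · intro h1
        exact (Nat.pair_eq_pair.1 (Nat.succ_injective h1)).2
      · intro h1
        rw [h1]
    refine ⟨G', labC, cC, ?_, ?_, ?_, ?_⟩
    · intro x hx y hy hc hxy
      by_cases h1 : c x = c y
      · rw [hsame x y h1]
        by_cases h2 : AT (c x)
        · rw [hGIA _ h2]
          exact (hA (c x) h2).1 x (hmem x hx) y (by rw [h1]; exact hmem y hy) hxy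
        · rw [hGIB _ h2]
          exact (hB (c x) h2).1 x (hmem x hx) y (by rw [h1]; exact hmem y hy)
            ((hcB x y h1 h2).1 hc) hxy
      · exact (hdiff x y h1).2 hxy
    · intro x hx y hy hc hxy
      by_cases h1 : c x = c y
      · rw [hsame x y h1] at hxy
        by_cases h2 : AT (c x)
        · rw [hGIA _ h2] at hxy
          exact (hA (c x) h2).2.1 x (hmem x hx) y (by rw [h1]; exact hmem y hy) hxy
        · rw [hGIB _ h2] at hxy
          exact (hB (c x) h2).2.1 x (hmem x hx) y (by rw [h1]; exact hmem y hy)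
            ((hcB x y h1 h2).1 hc) hxy
      · exact hG ((hdiff x y h1).1 hxy)
    · intro i
      rcases i with _ | i
      · have hAT : ∀ v ∈ W.filter fun v => cC v = 0, AT (c v) := by
          intro v hv
          by_contra h1
          have h2 := (Finset.mem_filter.1 hv).2
          rw [hcC1 v h1] at h2
          exact absurd h2 (Nat.succ_ne_zero _)
        have hcomp := Joined.compose (G' := G') (lab' := fun v => labA (c v) v)
          (k := HT h r + 1) h (W.filter fun v => cC v = 0)
          (Joined.mono h (Joined.map (Fin.castSucc : Fin m → Fin (m + 1))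
            (Fin.castSucc_injective m) h hJ) (Finset.filter_subset _ _))
          (fun x _ y _ hxy => hdiff x y hxy)
          (fun i => by
            by_cases hi : AT i
            · refine TreeModel.mono _ (W := W.filter fun v => c v = i) ?_ ?_
              · refine TreeModel.congr _ ?_ ?_ (hA i hi).2.2
                · intro x hx y hy
                  have hx1 := (Finset.mem_filter.1 hx).2
                  have hy1 := (Finset.mem_filter.1 hy).2
                  rw [hsame x y (by rw [hx1, hy1]), hx1, hGIA i hi]
                · intro x hx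
                  have hx1 := (Finset.mem_filter.1 hx).2
                  rw [hx1]
              · intro v hv
                have h3 := Finset.mem_filter.1 hv
                exact Finset.mem_filter.2 ⟨(Finset.mem_filter.1 h3.1).1, h3.2⟩
            · have hemp : ((W.filter fun v => cC v = 0).filter fun v => c v = i) = ∅ := by
                rw [Finset.eq_empty_iff_forall_notMem]
                intro v hv
                have h3 := Finset.mem_filter.1 hv
                exact hi (by rw [← h3.2]; exact hAT v h3.1)
              rw [hemp]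
              have h0 : TreeModel G' (fun v => labA (c v) v) 0 (∅ : Finset V) := Nat.zero_le _
              have h1 := TreeModel.up (HT h r + 1) h0
              rw [Nat.zero_add] at h1
              exact h1)
        refine TreeModel.congr _ (fun x _ y _ => Iff.rfl) ?_ hcomp
        intro x hx
        exact (if_pos (hAT x hx)).symm
      · obtain ⟨a, b, hab⟩ : ∃ a b, Nat.pair a b = i := ⟨_, _, Nat.pair_unpair i⟩
        have hsub : ∀ v ∈ W.filter fun v => cC v = i + 1, c v = a ∧ cB a v = b ∧ ¬ AT a ∧ v ∈ W := by
          intro v hv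
          have h1 := Finset.mem_filter.1 hv
          by_cases h2 : AT (c v)
          · have h3 := h1.2
            rw [hcC0 v h2] at h3
            exact absurd h3.symm (Nat.succ_ne_zero _)
          · have h3 := h1.2
            rw [hcC1 v h2, ← hab] at h3
            obtain ⟨h4, h5⟩ := Nat.pair_eq_pair.1 (Nat.succ_injective h3)
            rw [h4] at h5 h2
            exact ⟨h4, h5, h2, h1.1⟩
        rcases (W.filter fun v => cC v = i + 1).eq_empty_or_nonempty with hemp | ⟨w, hw⟩
        · rw [hemp]
          have h0 : TreeModel G' labC 0 (∅ : Finset V) := Nat.zero_le _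
          have h1 := TreeModel.up (HT h (r + 1)) h0
          rw [Nat.zero_add] at h1
          exact h1
        have haT : ¬ AT a := (hsub w hw).2.2.1
        refine TreeModel.congr (G := GB a) (lab := labB a) _ ?_ ?_
          (TreeModel.mono _ ((hB a haT).2.2.1 b) ?_)
        · intro x hx y hy
          obtain ⟨h1, _, h2, _⟩ := hsub x hx
          obtain ⟨h3, _, _, _⟩ := hsub y hy
          rw [hsame x y (by rw [h1, h3]), h1, hGIB a h2]
        · intro x hx
          obtain ⟨h1, _, h2, _⟩ := hsub x hx
          have h5 : ¬ AT (c x) := by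
            rw [h1]
            exact h2
          have h6 : labC x = labB (c x) x := if_neg h5
          rw [h6, h1]
        · intro v hv
          obtain ⟨h1, h3, _, h4⟩ := hsub v hv
          exact Finset.mem_filter.2 ⟨Finset.mem_filter.2 ⟨h4, h1⟩, h3⟩
    · intro x hx y hy hc hxy
      by_cases h1 : c x = c y
      · by_cases h2 : AT (c x)
        · exact absurd (by rw [hcC0 x h2, hcC0 y (by rw [← h1]; exact h2)]) hc
        · refine hCP (c x) h2 x y ((hB (c x) h2).2.2.2 x (hmem x hx) y
            (by rw [h1]; exact hmem y hy) ?_ hxy)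
          intro h3
          exact hc ((hcB x y h1 h2).2 h3)
      · by_cases hyT : AT (c y)
        · by_cases hxT : AT (c x)
          · exact absurd (by rw [hcC0 x hxT, hcC0 y hyT]) hc
          · exact (hkey y hy x hx (fun h => h1 h.symm) hxT hxy.symm).symm
        · exact hkey x hx y hy h1 hyT hxy

end Pool.Sdp
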