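import Pool.Agent.Sdp.Nested

/-!
# Nested models collapse to bounded height
-/

set_option autoImplicit false

namespace Pool.Sdp

open Pool.Rgd Finset

/-- `a` is free (`S a` has more than `d` elements) and has few vertices in `W` -/
def Sm {V : Type} {l : ℕ} (d : ℕ) (lab : V → Fin l) (S : Fin l → Finset V) (W : Finset V)
    (a : Fin l) : Prop :=
  d < (S a).card ∧ (W.filter fun v => lab v = a).card < d * (d + 1) + 1

/-- `a` is free and has many vertices in `W` -/
def Lg {V : Type} {l : ℕ} (d : ℕ) (lab : V → Fin l) (S : Fin l → Finset V) (W : Finset V)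
    (a : Fin l) : Prop :=
  d < (S a).card ∧ d * (d + 1) + 1 ≤ (W.filter fun v => lab v = a).card

/-- what is known of an edge `x y` between different parts -/
def CP {V : Type} {l : ℕ} (d : ℕ) (Gc : SimpleGraph V) (lab : V → Fin l) (S : Fin l → Finset V)
    (W : Finset V) (x y : V) : Prop :=
  Sm d lab S W (lab x) ∨ Sm d lab S W (lab y) ∨ (Lg d lab S W (lab x) ∧ Lg d lab S W (lab y)) ∨
    (Lg d lab S W (lab y) ∧ ∀ z ∈ W, lab z = lab y → z ≠ x → Gc.Adj x z) ∨
    (Lg d lab S W (lab x) ∧ ∀ z ∈ W, lab z = lab x → z ≠ y → Gc.Adj y z)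

theorem CP.symm {V : Type} {l : ℕ} {d : ℕ} {Gc : SimpleGraph V} {lab : V → Fin l}
    {S : Fin l → Finset V} {W : Finset V} {x y : V} (h : CP d Gc lab S W x y) :
    CP d Gc lab S W y x := by
  rcases h with h | h | h | h | h
  · exact Or.inr (Or.inl h)
  · exact Or.inl h
  · exact Or.inr (Or.inr (Or.inl ⟨h.2, h.1⟩))
  · exact Or.inr (Or.inr (Or.inr (Or.inr h)))
  · exact Or.inr (Or.inr (Or.inr (Or.inl h)))

theorem lg_clique {V : Type} {d C l : ℕ} {G Gc : SimpleGraph V} (hG : G ≤ Gc) (hR : Rules d C Gc)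
    {lab : V → Fin l} {S : Fin l → Finset V} {W : Finset V}
    (hS : ∀ w ∈ W, ∀ s ∈ S (lab w), G.Adj s w) {a : Fin l} (ha : Lg d lab S W a) :
    Cl Gc (W.filter fun v => lab v = a) := by
  obtain ⟨T, hTS, hTc⟩ := Finset.exists_subset_card_eq (show d + 1 ≤ (S a).card from ha.1)
  have hTW : ∀ s ∈ T, ∀ w ∈ W.filter fun v => lab v = a, Gc.Adj s w := by
    intro s hs w hw
    have hw1 := Finset.mem_filter.1 hw
    exact hG (hS w hw1.1 s (by rw [hw1.2]; exact hTS hs))
  have hT : Cl Gc T := hR.r2 T _ hTc ha.2 hTW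
  intro x hx y hy hxy
  exact hR.r1 T x y hTc hT hxy (fun s hs => (hTW s hs x hx).symm)
    (fun s hs => (hTW s hs y hy).symm)

/-- the number of exceptional vertices -/
def e0 (d l : ℕ) : ℕ := l * (d * (d + 1) + 1) + l * l * (2 * (d * (d + 1) + 1))

/-- labels: exceptional vertices, adjacency to them, the label, the joined labels, the old labels -/
abbrev FL (d l : ℕ) (L : Type) : Type :=
  Option (Fin (e0 d l)) × (Fin (e0 d l) → Bool) × Fin l × (Fin l → Bool) × L

/-- From parts with tree models to a tree model. -/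
theorem finish {V : Type} [Fintype V] {d C l : ℕ} (hd : 0 < d) {G Gc : SimpleGraph V}
    (hG : G ≤ Gc) (hR : Rules d C Gc) (lab : V → Fin l) (W : Finset V) (S : Fin l → Finset V)
    (hS : ∀ w ∈ W, ∀ s ∈ S (lab w), G.Adj s w) {L : Type} {k : ℕ} (G' : SimpleGraph V)
    (lab' : V → L) (c' : V → ℕ)
    (p1 : ∀ x ∈ W, ∀ y ∈ W, c' x = c' y → G.Adj x y → G'.Adj x y)
    (p1' : ∀ x ∈ W, ∀ y ∈ W, c' x = c' y → G'.Adj x y → Gc.Adj x y)
    (p2 : ∀ i, TreeModel G' lab' k (W.filter fun v => c' v = i))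
    (p3 : ∀ x ∈ W, ∀ y ∈ W, c' x ≠ c' y → G.Adj x y → CP d Gc lab S W x y) :
    ∃ (G2 : SimpleGraph V) (lab2 : V → FL d l L),
      (∀ x ∈ W, ∀ y ∈ W, G.Adj x y → G2.Adj x y) ∧ (∀ x ∈ W, ∀ y ∈ W, G2.Adj x y → Gc.Adj x y) ∧
      TreeModel G2 lab2 (k + 1) W := by
  classical
  -- exceptional vertices
  have hE2 : ∀ a b : Fin l, ∃ E : Finset V, E.card ≤ 2 * (d * (d + 1) + 1) ∧
      (Lg d lab S W a → Lg d lab S W b → a ≠ b →
        (∀ x ∈ W, ∀ y ∈ W, lab x = a → lab y = b → Gc.Adj x y) ∨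
        (∀ x ∈ W, ∀ y ∈ W, lab x = a → lab y = b → x ∉ E → y ∉ E → ¬ Gc.Adj x y)) := by
    intro a b
    by_cases h : Lg d lab S W a ∧ Lg d lab S W b ∧ a ≠ b
    · obtain ⟨ha, hb, hab⟩ := h
      rcases cliques_join hd hR (lg_clique hG hR hS ha) (lg_clique hG hR hS hb) (by
        intro x hx y hy hxy
        exact hab (by rw [← (Finset.mem_filter.1 hx).2, hxy, (Finset.mem_filter.1 hy).2])) with
        h1 | ⟨E, hE, h1⟩
      · exact ⟨∅, by simp, fun _ _ _ => Or.inl fun x hx y hy hxa hyb =>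
          h1 x (Finset.mem_filter.2 ⟨hx, hxa⟩) y (Finset.mem_filter.2 ⟨hy, hyb⟩)⟩
      · exact ⟨E, hE, fun _ _ _ => Or.inr fun x hx y hy hxa hyb =>
          h1 x (Finset.mem_filter.2 ⟨hx, hxa⟩) y (Finset.mem_filter.2 ⟨hy, hyb⟩)⟩
    · exact ⟨∅, by simp, fun h1 h2 h3 => absurd ⟨h1, h2, h3⟩ h⟩
  choose E2 hE2c hE2 using hE2
  let E1 : Finset V := (univ : Finset (Fin l)).biUnion fun a =>
    if Sm d lab S W a then W.filter fun v => lab v = a else ∅
  let E3 : Finset V := (univ : Finset (Fin l × Fin l)).biUnion fun p => E2 p.1 p.2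
  have hE1c : E1.card ≤ l * (d * (d + 1) + 1) := by
    have h1 := Finset.card_biUnion_le_card_mul (univ : Finset (Fin l))
      (fun a => if Sm d lab S W a then W.filter fun v => lab v = a else ∅) (d * (d + 1) + 1)
      (fun a _ => by
        by_cases ha : Sm d lab S W a
        · rw [if_pos ha]
          exact ha.2.le
        · rw [if_neg ha]
          simp)
    rw [Finset.card_univ, Fintype.card_fin] at h1
    exact h1
  have hE3c : E3.card ≤ l * l * (2 * (d * (d + 1) + 1)) := by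
    have h1 := Finset.card_biUnion_le_card_mul (univ : Finset (Fin l × Fin l))
      (fun p => E2 p.1 p.2) (2 * (d * (d + 1) + 1)) (fun p _ => hE2c p.1 p.2)
    rw [Finset.card_univ, Fintype.card_prod, Fintype.card_fin] at h1
    exact h1
  let E : Finset V := E1 ∪ E3
  have hEc : E.card ≤ e0 d l := (Finset.card_union_le _ _).trans (Nat.add_le_add hE1c hE3c)
  have hE1m : ∀ x ∈ W, Sm d lab S W (lab x) → x ∈ E := by
    intro x hx hs
    refine Finset.mem_union_left _ (Finset.mem_biUnion.2 ⟨lab x, Finset.mem_univ _, ?_⟩)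
    rw [if_pos hs]
    exact Finset.mem_filter.2 ⟨hx, rfl⟩
  have hE3m : ∀ a b x, x ∈ E2 a b → x ∈ E := fun a b x hx =>
    Finset.mem_union_right _ (Finset.mem_biUnion.2 ⟨(a, b), Finset.mem_univ _, hx⟩)
  obtain ⟨ix, ix1, ix2, ix3⟩ := exists_numbers E (e0 d l) hEc
  have ix0 : ∀ x, x ∉ E → ix x = none := by
    intro x hx
    cases hix : ix x with
    | none => rfl
    | some j => exact absurd (ix2 x j hix) hx
  -- joined labels
  let J : V → Fin l → Prop := fun x b => Lg d lab S W b ∧ ∀ z ∈ W, lab z = b → z ≠ x → Gc.Adj x z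
  let G2 : SimpleGraph V :=
    { Adj := fun x y => ((x ∈ E ∨ y ∈ E) ∧ G.Adj x y) ∨
        (x ∉ E ∧ y ∉ E ∧ c' x = c' y ∧ G'.Adj x y) ∨
        (x ∉ E ∧ y ∉ E ∧ c' x ≠ c' y ∧ (J x (lab y) ∨ J y (lab x)))
      symm := ⟨by
        rintro x y (⟨h1, h2⟩ | ⟨h1, h2, h3, h4⟩ | ⟨h1, h2, h3, h4⟩)
        · exact Or.inl ⟨h1.symm, h2.symm⟩
        · exact Or.inr (Or.inl ⟨h2, h1, h3.symm, h4.symm⟩)
        · exact Or.inr (Or.inr ⟨h2, h1, h3.symm, h4.symm⟩)⟩
      loopless := ⟨by
        rintro x (⟨_, h2⟩ | ⟨_, _, _, h4⟩ | ⟨_, _, h3, _⟩)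
        · exact h2.ne rfl
        · exact h4.ne rfl
        · exact h3 rfl⟩ }
  let full : V → FL d l L := fun v =>
    (ix v, fun j => decide (∃ z, ix z = some j ∧ G.Adj z v), lab v, fun b => decide (J v b), lab' v)
  let cX : V → ℕ := fun v => if v ∈ E then 2 * (Fintype.equivFin V v).val + 1 else 2 * c' v
  have hcX1 : ∀ v, v ∈ E → cX v = 2 * (Fintype.equivFin V v).val + 1 := fun v hv => if_pos hv
  have hcX2 : ∀ v, v ∉ E → cX v = 2 * c' v := fun v hv => if_neg hv
  refine ⟨G2, full, ?_, ?_, ?_⟩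
  · intro x hx y hy hxy
    by_cases hxE : x ∈ E
    · exact Or.inl ⟨Or.inl hxE, hxy⟩
    by_cases hyE : y ∈ E
    · exact Or.inl ⟨Or.inr hyE, hxy⟩
    by_cases hc : c' x = c' y
    · exact Or.inr (Or.inl ⟨hxE, hyE, hc, p1 x hx y hy hc hxy⟩)
    refine Or.inr (Or.inr ⟨hxE, hyE, hc, ?_⟩)
    rcases p3 x hx y hy hc hxy with h | h | ⟨h1, h2⟩ | h | h
    · exact absurd (hE1m x hx h) hxE
    · exact absurd (hE1m y hy h) hyE
    · left
      refine ⟨h2, fun z hz hzy hzx => ?_⟩
      by_cases hl : lab x = lab y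
      · exact lg_clique hG hR hS h2 x (Finset.mem_filter.2 ⟨hx, hl⟩) z
          (Finset.mem_filter.2 ⟨hz, hzy⟩) hzx.symm
      · rcases hE2 (lab x) (lab y) h1 h2 hl with h3 | h3
        · exact h3 x hx z hz rfl hzy
        · exact absurd (hG hxy) (h3 x hx y hy rfl rfl (fun h4 => hxE (hE3m _ _ _ h4))
            (fun h4 => hyE (hE3m _ _ _ h4)))
    · exact Or.inl h
    · exact Or.inr h
  · intro x hx y hy hxy
    rcases hxy with ⟨_, h2⟩ | ⟨_, _, h3, h4⟩ | ⟨_, _, h3, h4 | h4⟩
    · exact hG h2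
    · exact p1' x hx y hy h3 h4
    · exact h4.2 y hy rfl fun h => h3 (by rw [h])
    · exact (h4.2 x hx rfl fun h => h3 (by rw [h])).symm
  · refine ⟨cX, fun p q => (∃ j, p.1 = some j ∧ q.2.1 j = true) ∨
      (∃ j, q.1 = some j ∧ p.2.1 j = true) ∨
      (p.1 = none ∧ q.1 = none ∧ (p.2.2.2.1 q.2.2.1 = true ∨ q.2.2.2.1 p.2.2.1 = true)),
      fun i => ?_, fun x hx y hy hxy => ?_⟩
    · by_cases hi : ∃ x ∈ E, cX x = i
      · obtain ⟨x, hx, hxi⟩ := hi
        have h0 : TreeModel G2 full 0 (W.filter fun v => cX v = i) := by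
          show (W.filter fun v => cX v = i).card ≤ 1
          rw [Finset.card_le_one]
          have hall : ∀ a, cX a = i → a = x := by
            intro a ha
            rw [hcX1 x hx] at hxi
            by_cases haX : a ∈ E
            · rw [hcX1 a haX] at ha
              exact (Fintype.equivFin V).injective (Fin.ext (by omega))
            · rw [hcX2 a haX] at ha
              omega
          intro a ha b hb
          rw [hall a (Finset.mem_filter.1 ha).2, hall b (Finset.mem_filter.1 hb).2]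
        have h5 := TreeModel.up k h0
        rw [Nat.zero_add] at h5
        exact h5
      · have hni : ∀ v ∈ W.filter fun v => cX v = i, v ∉ E ∧ c' v = i / 2 := by
          intro v hv
          have h5 := (Finset.mem_filter.1 hv).2
          have h6 : v ∉ E := fun hvX => hi ⟨v, hvX, h5⟩
          rw [hcX2 v h6] at h5
          exact ⟨h6, by omega⟩
        refine TreeModel.congr (G := G') (lab := full) _ ?_ (fun _ _ => rfl)
          (TreeModel.mono _ (TreeModel.relabel (fun a => a.2.2.2.2) (fun _ => rfl) _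
            (p2 (i / 2))) ?_)
        · intro x hx y hy
          obtain ⟨hx1, hx2⟩ := hni x hx
          obtain ⟨hy1, hy2⟩ := hni y hy
          constructor
          · exact fun h5 => Or.inr (Or.inl ⟨hx1, hy1, hx2.trans hy2.symm, h5⟩)
          · rintro (⟨h5, _⟩ | ⟨_, _, _, h5⟩ | ⟨_, _, h5, _⟩)
            · exact absurd h5 (not_or.2 ⟨hx1, hy1⟩)
            · exact h5
            · exact absurd (hx2.trans hy2.symm) h5
        · intro v hv
          exact Finset.mem_filter.2 ⟨(Finset.mem_filter.1 hv).1, (hni v hv).2⟩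
    · show G2.Adj x y ↔ (∃ j, ix x = some j ∧ decide (∃ z, ix z = some j ∧ G.Adj z y) = true) ∨
        (∃ j, ix y = some j ∧ decide (∃ z, ix z = some j ∧ G.Adj z x) = true) ∨
        (ix x = none ∧ ix y = none ∧ (decide (J x (lab y)) = true ∨ decide (J y (lab x)) = true))
      simp only [decide_eq_true_eq]
      constructor
      · rintro (⟨a1 | a1, a2⟩ | ⟨a1, a2, a3, _⟩ | ⟨a1, a2, _, a4⟩)
        · obtain ⟨j, hj⟩ := ix1 x a1
          exact Or.inl ⟨j, hj, x, hj, a2⟩
        · obtain ⟨j, hj⟩ := ix1 y a1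
          exact Or.inr (Or.inl ⟨j, hj, y, hj, a2.symm⟩)
        · exact absurd (by rw [hcX2 x a1, hcX2 y a2, a3]) hxy
        · exact Or.inr (Or.inr ⟨ix0 x a1, ix0 y a2, a4⟩)
      · rintro (⟨j, hj, z, hz, hzy⟩ | ⟨j, hj, z, hz, hzx⟩ | ⟨h1, h2, h3⟩)
        · rw [ix3 z x j hz hj] at hzy
          exact Or.inl ⟨Or.inl (ix2 x j hj), hzy⟩
        · rw [ix3 z y j hz hj] at hzx
          exact Or.inl ⟨Or.inr (ix2 y j hj), hzx.symm⟩
        · have hxE : x ∉ E := by
            intro h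
            obtain ⟨j, hj⟩ := ix1 x h
            rw [h1] at hj
            exact absurd hj (by simp)
          have hyE : y ∉ E := by
            intro h
            obtain ⟨j, hj⟩ := ix1 y h
            rw [h2] at hj
            exact absurd hj (by simp)
          refine Or.inr (Or.inr ⟨hxE, hyE, fun h4 => hxy ?_, h3⟩)
          rw [hcX2 x hxE, hcX2 y hyE, h4]

/-- the value of a label class `T` with the common neighbours `S` -/
def pot {V : Type} (d : ℕ) (T S : Finset V) : ℕ :=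
  if T.card = 0 then 0 else if d < S.card then (if d * (d + 1) + 1 ≤ T.card then 1 else 0)
  else d + 2 - S.card

theorem pot_mono {V : Type} (d : ℕ) {T T' : Finset V} (S : Finset V) (hs : T' ⊆ T) :
    pot d T' S ≤ pot d T S := by
  have hc := Finset.card_le_card hs
  unfold pot
  by_cases h1 : T'.card = 0
  · rw [if_pos h1]
    exact Nat.zero_le _
  · rw [if_neg h1, if_neg (show T.card ≠ 0 by omega)]
    by_cases h2 : d < S.card
    · rw [if_pos h2, if_pos h2]
      by_cases h3 : d * (d + 1) + 1 ≤ T'.card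
      · rw [if_pos h3, if_pos (h3.trans hc)]
      · rw [if_neg h3]
        exact Nat.zero_le _
    · rw [if_neg h2, if_neg h2]

theorem pot_insert {V : Type} (d : ℕ) {T T' S S' : Finset V} (hs : T' ⊆ T) (h0 : T'.card ≠ 0)
    (hS : S.card ≤ d) (hS' : S'.card = S.card + 1) : pot d T' S' < pot d T S := by
  have hc := Finset.card_le_card hs
  unfold pot
  rw [if_neg h0, if_neg (show T.card ≠ 0 by omega), if_neg (show ¬ d < S.card by omega)]
  by_cases h2 : d < S'.card
  · rw [if_pos h2]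
    by_cases h3 : d * (d + 1) + 1 ≤ T'.card
    · rw [if_pos h3]
      omega
    · rw [if_neg h3]
      omega
  · rw [if_neg h2]
    omega

/-- common neighbours for a label in a class -/
theorem exists_child {V : Type} (d : ℕ) {G : SimpleGraph V} (W W' T T' S : Finset V)
    (hW' : W' ⊆ W) (hT' : T' ⊆ T) (hS : ∀ s ∈ S, ∀ w ∈ T, G.Adj s w)
    (hSW : ∀ s ∈ S, s ∉ W) :
    ∃ S' : Finset V, (∀ s ∈ S', ∀ w ∈ T', G.Adj s w) ∧ (∀ s ∈ S', s ∉ W') ∧
      pot d T' S' ≤ pot d T S ∧
      ((S' = S ∧ (T.card = 0 ∨ d < S.card ∨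
        ∀ y ∈ W, y ∉ W' → ¬ ∀ w ∈ T', G.Adj y w)) ∨ pot d T' S' < pot d T S) := by
  classical
  have h1 : ∀ s ∈ S, ∀ w ∈ T', G.Adj s w := fun s hs w hw => hS s hs w (hT' hw)
  have h2 : ∀ s ∈ S, s ∉ W' := fun s hs h => hSW s hs (hW' h)
  by_cases hT : T.card = 0
  · exact ⟨S, h1, h2, pot_mono d S hT', Or.inl ⟨rfl, Or.inl hT⟩⟩
  by_cases hd : d < S.card
  · exact ⟨S, h1, h2, pot_mono d S hT', Or.inl ⟨rfl, Or.inr (Or.inl hd)⟩⟩
  by_cases hT0 : T'.card = 0
  · refine ⟨S, h1, h2, pot_mono d S hT', Or.inr ?_⟩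
    unfold pot
    rw [if_pos hT0, if_neg hT, if_neg hd]
    omega
  by_cases hy : ∃ y ∈ W, y ∉ W' ∧ ∀ w ∈ T', G.Adj y w
  · obtain ⟨y, hyW, hyW', hyT⟩ := hy
    have hyS : y ∉ S := fun h => hSW y h hyW
    have hlt : pot d T' (insert y S) < pot d T S :=
      pot_insert d hT' hT0 (not_lt.1 hd) (Finset.card_insert_of_notMem hyS)
    refine ⟨insert y S, ?_, ?_, hlt.le, Or.inr hlt⟩
    · intro s hs w hw
      rcases Finset.mem_insert.1 hs with rfl | hs
      · exact hyT w hw
      · exact h1 s hs w hw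
    · intro s hs
      rcases Finset.mem_insert.1 hs with rfl | hs
      · exact hyW'
      · exact h2 s hs
  · refine ⟨S, h1, h2, pot_mono d S hT', Or.inl ⟨rfl, Or.inr (Or.inr ?_)⟩⟩
    intro y hyW hyW' h
    exact hy ⟨y, hyW, hyW', h⟩

theorem Joined.map {V M M' : Type} {G : SimpleGraph V} {c : V → ℕ} {mu : V → M} (f : M → M')
    (hf : Function.Injective f) (h : ℕ) {W : Finset V} (hJ : Joined G c mu h W) :
    Joined G c (fun v => f (mu v)) h W := by
  induction h generalizing W with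
  | zero => exact hJ
  | succ h ih =>
    obtain ⟨e, R, h1, h2⟩ := hJ
    refine ⟨e, fun p q => ∃ a b, f a = p ∧ f b = q ∧ R a b, fun i => ih (h1 i),
      fun x hx y hy hxy => ?_⟩
    rw [h2 x hx y hy hxy]
    constructor
    · exact fun h3 => ⟨_, _, rfl, rfl, h3⟩
    · rintro ⟨a, b, ha, hb, h3⟩
      rw [← hf ha, ← hf hb]
      exact h3

/-- the labels at the level `r` -/
def NL (d l m : ℕ) : ℕ → Type
  | 0 => FL d l Unit
  | r + 1 => Fin (m + 1) × FL d l (NL d l m r)

instance instFintypeNL (d l m : ℕ) : (r : ℕ) → Fintype (NL d l m r)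
  | 0 => inferInstanceAs (Fintype (FL d l Unit))
  | r + 1 =>
    letI := instFintypeNL d l m r
    inferInstanceAs (Fintype (Fin (m + 1) × FL d l (NL d l m r)))

/-- a label of level `0` as a label of level `r` -/
def NL.up (d l m : ℕ) : (r : ℕ) → FL d l Unit → NL d l m r
  | 0, a => a
  | r + 1, a => (0, (none, fun _ => false, a.2.2.1, fun _ => false, NL.up d l m r a))

/-- back -/
def NL.down (d l m : ℕ) : (r : ℕ) → NL d l m r → FL d l Unit
  | 0, a => a
  | r + 1, a => NL.down d l m r a.2.2.2.2.2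

theorem NL.down_up (d l m r : ℕ) (a : FL d l Unit) :
    NL.down d l m r (NL.up d l m r a) = a := by
  induction r with
  | zero => rfl
  | succ r ih => exact ih

end Pool.Sdp
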