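import Pool.Agent.Sdp.Modules

/-!
# Tree models: changes of the labels, of the graph and of the height
-/

set_option autoImplicit false

namespace Pool.Sdp

open Pool.Rgd Finset

/-- tree models depend only on the graph and the labels on `W` -/
theorem TreeModel.congr {V L : Type} {G G' : SimpleGraph V} {lab lab' : V → L} (h : ℕ)
    {W : Finset V} (hG : ∀ x ∈ W, ∀ y ∈ W, (G.Adj x y ↔ G'.Adj x y))
    (hl : ∀ x ∈ W, lab x = lab' x) (hW : TreeModel G lab h W) : TreeModel G' lab' h W := by
  induction h generalizing W with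
  | zero => exact hW
  | succ h ih =>
    obtain ⟨c, M, h1, h2⟩ := hW
    refine ⟨c, M, fun i => ih ?_ ?_ (h1 i), fun x hx y hy hxy => ?_⟩
    · intro x hx y hy
      exact hG x (Finset.mem_filter.1 hx).1 y (Finset.mem_filter.1 hy).1
    · intro x hx
      exact hl x (Finset.mem_filter.1 hx).1
    · rw [← hG x hx y hy, ← hl x hx, ← hl y hy]
      exact h2 x hx y hy hxy

/-- one more level -/
theorem TreeModel.up {V L : Type} {G : SimpleGraph V} {lab : V → L} {h : ℕ} (j : ℕ)
    {W : Finset V} (hW : TreeModel G lab h W) : TreeModel G lab (h + j) W := by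
  induction j with
  | zero => exact hW
  | succ j ih =>
    exact ⟨fun _ => 0, fun _ _ => True, fun i => TreeModel.mono (h + j) ih
      (Finset.filter_subset _ _), fun x _ y _ hxy => absurd rfl hxy⟩

/-- the height at the level `r` -/
def HT (h : ℕ) : ℕ → ℕ
  | 0 => 1
  | r + 1 => HT h r + 1 + h

theorem HT_pos (h r : ℕ) : ∃ j, HT h r = 1 + j := by
  induction r with
  | zero => exact ⟨0, rfl⟩
  | succ r ih =>
    obtain ⟨j, hj⟩ := ih
    exact ⟨j + 1 + h, by rw [HT, hj]; omega⟩

/-- numbers for the elements of a set -/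
theorem exists_numbers {V : Type} (X : Finset V) (k : ℕ) (hX : X.card ≤ k) :
    ∃ ix : V → Option (Fin k), (∀ x ∈ X, ∃ j, ix x = some j) ∧
      (∀ x j, ix x = some j → x ∈ X) ∧ ∀ x y j, ix x = some j → ix y = some j → x = y := by
  classical
  let ix : V → Option (Fin k) := fun v => if hv : v ∈ X then some ⟨(X.equivFin ⟨v, hv⟩).val,
    lt_of_lt_of_le (X.equivFin ⟨v, hv⟩).isLt hX⟩ else none
  have e1 : ∀ v (hv : v ∈ X), ix v = some ⟨(X.equivFin ⟨v, hv⟩).val,
    lt_of_lt_of_le (X.equivFin ⟨v, hv⟩).isLt hX⟩ := fun v hv => dif_pos hv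
  have e2 : ∀ v, v ∉ X → ix v = none := fun v hv => dif_neg hv
  have e3 : ∀ x j, ix x = some j → x ∈ X := by
    intro x j hj
    by_contra hx
    rw [e2 x hx] at hj
    exact absurd hj (by simp)
  refine ⟨ix, fun x hx => ⟨_, e1 x hx⟩, e3, ?_⟩
  intro x y j hx hy
  have hxX := e3 x j hx
  have hyX := e3 y j hy
  rw [e1 x hxX] at hx
  rw [e1 y hyX] at hy
  have h5 := (Option.some_injective _ hx).trans (Option.some_injective _ hy).symm
  have h6 := congrArg Fin.val h5
  exact congrArg Subtype.val (X.equivFin.injective (Fin.ext h6))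

end Pool.Sdp
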